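import Pool.Agent.TH373.DR2.Dens

set_option autoImplicit false

/-!
Deviations of the size `√(λ L)` in all windows: all but `C (log X)^2 X e^(-cλ)` of the `n ≤ X`.
-/

namespace Pool.Agent.TH373.DR

open Finset Pool.Agent.Helper153.Vdc Pool.Agent.W226.MP

/-- **Core theorem.** -/
theorem core2 {θ : ℝ} {k0 : ℕ} {s : ℝ} {f : ℕ → ℝ → ℝ} (hf : Reg θ k0 s f)
    (b k : ℕ) (hb : 2 ≤ b) (hk : 1 ≤ k) (α β : ℝ) (hα : α ≠ 0)
    (g0 A : ℝ) (hg0 : 0 ≤ g0) (hA : 0 < A)
    (hE : ((max 2 k0 : ℕ) : ℝ) - 2 - θ < g0 * Real.log b) :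
    ∃ κ : ℝ, 0 < κ ∧ ∃ K2 : ℝ, 0 < K2 ∧ ∃ X0 : ℕ, ∀ X : ℕ, X0 ≤ X → ∀ μ : ℝ, 0 < μ →
      μ ≤ 2 * Real.log X → ∀ S : Finset ℕ,
      (∀ n ∈ S, 1 ≤ n ∧ n ≤ X ∧ ∃ i t : ℕ, g0 * Real.log X ≤ i ∧ i ≤ A * Real.log X ∧
        2 ≤ t ∧ μ ≤ t ∧ (t : ℝ) ≤ κ * Real.log X ∧
        BadAt b k t (Real.sqrt (μ / t)) (α * f 0 n + β) i) →
      (S.card : ℝ) ≤ K2 * Real.log X ^ 2 * X * Real.exp (-(μ / 4)) := by
  classical
  obtain ⟨κ, hκ, X0, hdens⟩ := density hf b hb α β hα g0 (A + 1) hg0 (by linarith) hE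
  have hkR : (1 : ℝ) ≤ k := by exact_mod_cast hk
  have hbR : (2 : ℝ) ≤ b := by exact_mod_cast hb
  refine ⟨κ / k, by positivity, (A + 1) * (κ / k + 1) * k * (b : ℝ) ^ k * 68, by positivity, ?_⟩
  have t : Filter.Tendsto (fun X : ℕ => Real.log X) Filter.atTop Filter.atTop :=
    Real.tendsto_log_atTop.comp tendsto_natCast_atTop_atTop
  obtain ⟨X1, hX1⟩ := Filter.eventually_atTop.1 (t.eventually_ge_atTop (k : ℝ))
  refine ⟨max X0 (max X1 1), fun X hX μ hμ hμX S hS => ?_⟩
  simp only [max_le_iff] at hX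
  obtain ⟨g0X, g1X, g2X⟩ := hX
  have hXpos : (0 : ℝ) < X := by exact_mod_cast g2X
  have hlogk := hX1 X g1X
  have hlog : 1 ≤ Real.log X := hkR.trans hlogk
  have hbk : 2 ≤ b ^ k := by
    calc 2 ≤ b := hb
      _ = b ^ 1 := (pow_one b).symm
      _ ≤ b ^ k := Nat.pow_le_pow_right (by omega) hk
  set ex := Real.exp (-(μ / 4)) with hex
  have hexpos : 0 < ex := Real.exp_pos _
  -- `√X ≤ X e^(-μ/4)`
  have hsq : (X : ℝ) ^ (1 / 2 : ℝ) ≤ X * ex := by
    have e1 : (X : ℝ) = Real.exp (Real.log X) := (Real.exp_log hXpos).symm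
    have e2 : (X : ℝ) * ex = Real.exp (Real.log X - μ / 4) := by
      rw [hex, sub_eq_add_neg, Real.exp_add, ← e1]
    rw [e2, Real.rpow_def_of_pos hXpos]
    apply Real.exp_le_exp.2
    linarith
  set I : Finset ℕ := (range (⌊A * Real.log X⌋₊ + 1)).filter (fun i => g0 * Real.log X ≤ (i : ℝ))
    with hI
  set J : Finset ℕ := (range (⌊κ / k * Real.log X⌋₊ + 1)).filter (fun t => 2 ≤ t ∧ μ ≤ (t : ℝ))
    with hJ
  set U : ℕ → ℕ → ℕ → ℕ → Finset ℕ := fun i t r a => S.filter (fun n =>
    Hit b f α β (i + r) (k * t) (Zb (b ^ k) t (Real.sqrt (μ / t)) a) n) with hU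
  have hsub : S ⊆ I.biUnion fun i => J.biUnion fun t => (range k).biUnion fun r =>
      (range (b ^ k)).biUnion fun a => U i t r a := by
    intro n hn
    obtain ⟨_, _, i, t, h1, h2, h3, h4, h5, r, hr, a, ha, hz⟩ := hS n hn
    simp only [mem_biUnion, mem_range, mem_filter, hI, hJ, hU]
    refine ⟨i, ⟨Nat.lt_succ_of_le (Nat.le_floor h2), h1⟩, t,
      ⟨Nat.lt_succ_of_le (Nat.le_floor h5), h3, h4⟩, r, hr, a, ha, hn, ?_⟩
    unfold Hit
    have e : b ^ (k * t) = (b ^ k) ^ t := pow_mul b k t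
    rw [e]
    exact hz
  have hpiece : ∀ i ∈ I, ∀ t ∈ J, ∀ r ∈ range k, ∀ a ∈ range (b ^ k),
      ((U i t r a).card : ℝ) ≤ 68 * X * ex := by
    intro i hi t ht r hr a ha
    rw [hI, mem_filter, mem_range] at hi
    rw [hJ, mem_filter, mem_range] at ht
    rw [mem_range] at hr ha
    have hi2 : (i : ℝ) ≤ A * Real.log X :=
      (Nat.le_floor_iff (by positivity)).1 (Nat.lt_succ_iff.1 hi.1)
    have ht2 : (t : ℝ) ≤ κ / k * Real.log X :=
      (Nat.le_floor_iff (by positivity)).1 (Nat.lt_succ_iff.1 ht.1)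
    have htpos : (0 : ℝ) < t := by exact_mod_cast (by omega : 0 < t)
    have hrk : (r : ℝ) ≤ k := by exact_mod_cast hr.le
    have hd := hdens X g0X (i + r) (k * t) (by
        push_cast
        have : (0 : ℝ) ≤ r := by positivity
        linarith [hi.2]) (by
        push_cast
        linarith) (by
        calc 2 ≤ t := ht.2.1
          _ ≤ k * t := Nat.le_mul_of_pos_left _ (by omega)) (by
        push_cast
        calc (k : ℝ) * t ≤ k * (κ / k * Real.log X) := mul_le_mul_of_nonneg_left ht2 (by positivity)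
          _ = κ * Real.log X := by field_simp)
        (Zb (b ^ k) t (Real.sqrt (μ / t)) a) (U i t r a) (fun n hn => by
          rw [hU, mem_filter] at hn
          exact ⟨(hS n hn.1).1, (hS n hn.1).2.1, hn.2⟩)
    refine hd.trans ?_
    have hquot : 0 < μ / t := by positivity
    have hZ := Zb_card (b ^ k) t (Real.sqrt (μ / t)) a hbk ha (Real.sqrt_pos.2 hquot) (by
      have h0 : μ / t ≤ 1 := (div_le_one htpos).2 ht.2.2
      calc Real.sqrt (μ / t) ≤ Real.sqrt 1 := Real.sqrt_le_sqrt h0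
        _ = 1 := Real.sqrt_one)
    rw [Real.sq_sqrt hquot.le] at hZ
    have e1 : -(μ / t / 4) * (t : ℝ) = -(μ / 4) := by field_simp
    rw [e1] at hZ
    have e2 : (((b ^ k : ℕ) : ℝ)) ^ t = (b : ℝ) ^ (k * t) := by push_cast; rw [← pow_mul]
    rw [e2] at hZ
    have hbpos : (0 : ℝ) < (b : ℝ) ^ (k * t) := by positivity
    have h1 : 33 * (X : ℝ) * ((Zb (b ^ k) t (Real.sqrt (μ / t)) a).card : ℝ) / (b : ℝ) ^ (k * t) ≤
        66 * X * ex := by
      rw [div_le_iff₀ hbpos]
      calc 33 * (X : ℝ) * ((Zb (b ^ k) t (Real.sqrt (μ / t)) a).card : ℝ)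
          ≤ 33 * X * (2 * ex * (b : ℝ) ^ (k * t)) := mul_le_mul_of_nonneg_left hZ (by positivity)
        _ = _ := by ring
    linarith
  have hcard : (S.card : ℝ) ≤ ∑ i ∈ I, ∑ t ∈ J, ∑ r ∈ range k, ∑ a ∈ range (b ^ k),
      ((U i t r a).card : ℝ) := by
    have h1 := card_le_card hsub
    have h2 : (I.biUnion fun i => J.biUnion fun t => (range k).biUnion fun r =>
      (range (b ^ k)).biUnion fun a => U i t r a).card ≤
        ∑ i ∈ I, ∑ t ∈ J, ∑ r ∈ range k, ∑ a ∈ range (b ^ k), (U i t r a).card := by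
      refine card_biUnion_le.trans (sum_le_sum fun i _ => ?_)
      refine card_biUnion_le.trans (sum_le_sum fun t _ => ?_)
      refine card_biUnion_le.trans (sum_le_sum fun r _ => ?_)
      exact card_biUnion_le
    exact_mod_cast h1.trans h2
  have hIc : (I.card : ℝ) ≤ (A + 1) * Real.log X := by
    have h4 : I.card ≤ ⌊A * Real.log X⌋₊ + 1 := by
      rw [hI]; exact (card_filter_le _ _).trans (by rw [card_range])
    have h5 : (I.card : ℝ) ≤ ⌊A * Real.log X⌋₊ + 1 := by exact_mod_cast h4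
    have h6 : (⌊A * Real.log X⌋₊ : ℝ) ≤ A * Real.log X := Nat.floor_le (by positivity)
    linarith
  have hJc : (J.card : ℝ) ≤ (κ / k + 1) * Real.log X := by
    have h4 : J.card ≤ ⌊κ / k * Real.log X⌋₊ + 1 := by
      rw [hJ]; exact (card_filter_le _ _).trans (by rw [card_range])
    have h5 : (J.card : ℝ) ≤ ⌊κ / k * Real.log X⌋₊ + 1 := by exact_mod_cast h4
    have h6 : (⌊κ / k * Real.log X⌋₊ : ℝ) ≤ κ / k * Real.log X := Nat.floor_le (by positivity)
    linarith
  calc (S.card : ℝ) ≤ _ := hcard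
    _ ≤ ∑ i ∈ I, ∑ t ∈ J, ∑ r ∈ range k, ∑ a ∈ range (b ^ k), (68 * X * ex) :=
        sum_le_sum fun i hi => sum_le_sum fun t ht => sum_le_sum fun r hr =>
          sum_le_sum fun a ha => hpiece i hi t ht r hr a ha
    _ = I.card * (J.card * (k * ((b : ℝ) ^ k * (68 * X * ex)))) := by
        simp only [sum_const, card_range, nsmul_eq_mul]
        push_cast; ring
    _ ≤ ((A + 1) * Real.log X) * (((κ / k + 1) * Real.log X) * (k * ((b : ℝ) ^ k * (68 * X * ex)))) := by
        gcongr
    _ = _ := by ring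

/-- one window of length at most `k T` -/
theorem dv_short (b k : ℕ) (hb : 2 ≤ b) (hk : 1 ≤ k) (w : Fin k → Fin b) (x : ℝ) (i T L : ℕ)
    (μ : ℝ) (hμ : 2 ≤ μ)
    (h : ∀ t : ℕ, 2 ≤ t → μ ≤ t → t ≤ T → ¬ BadAt b k t (Real.sqrt (μ / t)) x i)
    (hL1 : 1 ≤ L) (hLT : L / k ≤ T) :
    dv b k w x i L ≤ 3 * k * Real.sqrt (μ * L) := by
  classical
  have hkR : (1 : ℝ) ≤ k := by exact_mod_cast hk
  have hLR : (1 : ℝ) ≤ L := by exact_mod_cast hL1
  have hμL : 1 ≤ μ * L := by nlinarith
  have hsq1 : 1 ≤ Real.sqrt (μ * L) := Real.one_le_sqrt.2 hμL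
  rcases lt_or_ge L k with hlt | hge
  · have h1 := dv_triv b k (by omega) w x i L
    have h2 : (L : ℝ) ≤ k := by exact_mod_cast hlt.le
    nlinarith
  · set t := L / k with ht
    have ht1 : 1 ≤ t := (Nat.one_le_div_iff (by omega)).2 hge
    have hLt : L < k * (t + 1) := by
      rw [ht]; exact Nat.lt_mul_div_succ L (by omega)
    have ht1R : (1 : ℝ) ≤ t := by exact_mod_cast ht1
    have hL2 : (L : ℝ) ≤ 2 * k * t := by
      have h1 : (L : ℝ) ≤ k * (t + 1) := by exact_mod_cast hLt.le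
      nlinarith
    rcases lt_or_ge (t : ℝ) μ with htμ | htμ
    · have h1 := dv_triv b k (by omega) w x i L
      refine h1.trans ?_
      have h2 : (L : ℝ) ≤ 2 * k * μ := by nlinarith
      have h3 : (L : ℝ) ≤ Real.sqrt ((2 * k) ^ 2 * (μ * L)) := by
        apply Real.le_sqrt_of_sq_le
        have : (2 * (k : ℝ)) ≤ (2 * k) ^ 2 := by nlinarith
        calc (L : ℝ) ^ 2 = L * L := by ring
          _ ≤ (2 * k * μ) * L := mul_le_mul_of_nonneg_right h2 (by positivity)
          _ = (2 * k) * (μ * L) := by ring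
          _ ≤ _ := mul_le_mul_of_nonneg_right this (by positivity)
      rw [Real.sqrt_mul (by positivity), Real.sqrt_sq (by positivity)] at h3
      nlinarith
    · have htpos : (0 : ℝ) < t := by linarith
      have ht2 : 2 ≤ t := by exact_mod_cast (hμ.trans htμ)
      set ε := Real.sqrt (μ / t) with hε
      have hbad := h t ht2 htμ hLT
      set w' : ℕ → ℕ := fun s => if hs : s < k then (w ⟨s, hs⟩ : ℕ) else 0 with hw'
      have hw'b : ∀ s, w' s < b := by
        intro s
        simp only [hw']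
        split_ifs with hs
        · exact (w ⟨s, hs⟩).2
        · omega
      have hval : val b w' k < b ^ k := val_lt b w' hw'b k
      have hcc := count_close b k hb hk w' hw'b x i L ε (Real.sqrt_nonneg _) (by
        intro r hr
        rw [← ht]
        by_contra hcon
        push Not at hcon
        apply hbad
        refine ⟨r, hr, val b w' k, hval, ?_⟩
        unfold Zb
        rw [mem_filter, mem_range]
        constructor
        · have h0 : 0 ≤ Int.fract (x * (b : ℝ) ^ (i + r)) := Int.fract_nonneg _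
          have h1 : Int.fract (x * (b : ℝ) ^ (i + r)) < 1 := Int.fract_lt_one _
          have hpos : (0 : ℝ) < (((b ^ k) ^ t : ℕ) : ℝ) := by positivity
          rw [Nat.floor_lt (by positivity)]
          calc Int.fract (x * (b : ℝ) ^ (i + r)) * (((b ^ k) ^ t : ℕ) : ℝ) <
                1 * (((b ^ k) ^ t : ℕ) : ℝ) := mul_lt_mul_of_pos_right h1 hpos
            _ = _ := one_mul _
        · have e : (((b ^ k) ^ t : ℕ) : ℝ) = ((b ^ k : ℕ) : ℝ) ^ t := by push_cast; rfl
          rw [e]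
          exact hcon)
      have e : oc b k w x i L = ((range L).filter (fun j =>
            ∀ s < k, ⌊x * (b : ℝ) ^ (i + j + s + 1)⌋ % (b : ℤ) = w' s)).card := by
        unfold oc
        congr 1
        apply filter_congr
        intro j _
        constructor
        · intro hh s hs
          have := hh ⟨s, hs⟩
          simp only [hw', hs, dif_pos]
          exact this
        · intro hh s
          have := hh s s.2
          simp only [hw', s.2, dif_pos] at this
          exact this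
      unfold dv
      rw [e]
      refine hcc.trans ?_
      have h3 : ε * L ≤ 2 * k * Real.sqrt (μ * L) := by
        have e1 : ε * L = Real.sqrt (μ / t * (L : ℝ) ^ 2) := by
          rw [Real.sqrt_mul (by positivity), Real.sqrt_sq (by positivity)]
        have e2 : 2 * k * Real.sqrt (μ * L) = Real.sqrt ((2 * k) ^ 2 * (μ * L)) := by
          rw [Real.sqrt_mul (show (0 : ℝ) ≤ (2 * k) ^ 2 by positivity) (μ * L),
            Real.sqrt_sq (by positivity)]
        rw [e1, e2]
        apply Real.sqrt_le_sqrt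
        have h4 : μ / t * (L : ℝ) ^ 2 ≤ (2 * k) * (μ * L) := by
          rw [div_mul_eq_mul_div, div_le_iff₀ htpos]
          have : 0 ≤ μ * L := by positivity
          nlinarith
        refine h4.trans ?_
        have : (2 * (k : ℝ)) ≤ (2 * k) ^ 2 := by nlinarith
        exact mul_le_mul_of_nonneg_right this (by positivity)
      nlinarith

/-- **All windows.** -/
theorem windows2 (b k : ℕ) (hb : 2 ≤ b) (hk : 1 ≤ k) (x : ℝ) (T : ℕ) (hT : 1 ≤ T)
    (μ : ℝ) (hμ : 2 ≤ μ) (lo hi : ℕ)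
    (h : ∀ i t : ℕ, lo ≤ i → i ≤ hi → 2 ≤ t → μ ≤ t → t ≤ T →
      ¬ BadAt b k t (Real.sqrt (μ / t)) x i)
    (R : ℝ) (hR : (hi : ℝ) ≤ R * T) (w : Fin k → Fin b) (i L : ℕ) (hi1 : lo ≤ i)
    (hL : i + L ≤ hi) :
    dv b k w x i L ≤ (3 * k + 6 * k * Real.sqrt R) * Real.sqrt (μ * L) := by
  have hkR : (1 : ℝ) ≤ k := by exact_mod_cast hk
  have hTR : (1 : ℝ) ≤ T := by exact_mod_cast hT
  have hkT : 0 < k * T := Nat.mul_pos (by omega) (by omega)
  have hR0 : 0 ≤ R := by
    by_contra hcon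
    push Not at hcon
    have : R * T < 0 := mul_neg_of_neg_of_pos hcon (by linarith)
    have h0 : (0 : ℝ) ≤ hi := by positivity
    linarith
  rcases Nat.eq_zero_or_pos L with rfl | hL1
  · have h1 := dv_triv b k (by omega) w x i 0
    have h2 : 0 ≤ (3 * k + 6 * k * Real.sqrt R) * Real.sqrt (μ * (0 : ℕ)) := by positivity
    push_cast at h1 h2 ⊢
    linarith
  have hshort : ∀ i L : ℕ, lo ≤ i → i ≤ hi → 1 ≤ L → L / k ≤ T →
      dv b k w x i L ≤ 3 * k * Real.sqrt (μ * L) := fun i L h1 h2 h3 h4 =>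
    dv_short b k hb hk w x i T L μ hμ (fun t ht1 ht2 ht3 => h i t h1 h2 ht1 ht2 ht3) h3 h4
  rcases lt_or_ge L (k * T) with hlt | hge
  · have h1 := hshort i L hi1 (by omega) hL1 (by
      have := Nat.div_le_div_right (c := k) hlt.le
      rwa [Nat.mul_div_cancel_left T (by omega)] at this)
    have h2 : 0 ≤ 6 * k * Real.sqrt R * Real.sqrt (μ * L) := by positivity
    linarith
  · -- long windows
    set S := 3 * k * Real.sqrt (μ * ((k * T : ℕ) : ℝ)) with hS
    have hS0 : 0 ≤ S := by positivity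
    have hlong : ∀ q i r : ℕ, lo ≤ i → i + k * T * q + r ≤ hi → r < k * T →
        dv b k w x i (k * T * q + r) ≤ (q + 1) * S := by
      intro q
      induction q with
      | zero =>
        intro i r h1 h2 hr
        rcases Nat.eq_zero_or_pos r with rfl | hr1
        · have := dv_triv b k (by omega) w x i (k * T * 0 + 0)
          push_cast at this ⊢
          linarith
        · have h3 := hshort i r h1 (by omega) hr1 (by
            have := Nat.div_le_div_right (c := k) hr.le
            rwa [Nat.mul_div_cancel_left T (by omega)] at this)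
          have e : k * T * 0 + r = r := by ring
          rw [e]
          refine h3.trans ?_
          have h4 : Real.sqrt (μ * r) ≤ Real.sqrt (μ * ((k * T : ℕ) : ℝ)) := by
            apply Real.sqrt_le_sqrt
            apply mul_le_mul_of_nonneg_left _ (by linarith)
            exact_mod_cast hr.le
          push_cast at h4 ⊢
          rw [hS]
          push_cast
          have : 3 * (k : ℝ) * Real.sqrt (μ * r) ≤ 3 * k * Real.sqrt (μ * (k * T)) :=
            mul_le_mul_of_nonneg_left h4 (by positivity)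
          linarith
      | succ q ih =>
        intro i r h1 h2 hr
        have e : k * T * (q + 1) + r = k * T + (k * T * q + r) := by ring
        rw [e]
        refine (dv_add b k w x i (k * T) _).trans ?_
        have g1 := hshort i (k * T) h1 (by omega) hkT (by
          rw [Nat.mul_div_cancel_left T (by omega)])
        have g2 := ih (i + k * T) r (by omega) (by
          have : i + k * T + k * T * q + r = i + k * T * (q + 1) + r := by ring
          omega) hr
        rw [← hS] at g1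
        push_cast at g2 ⊢
        linarith
    have hLd := Nat.div_add_mod L (k * T)
    have hr := Nat.mod_lt L hkT
    have h1 := hlong (L / (k * T)) i (L % (k * T)) hi1 (by omega) hr
    rw [hLd] at h1
    refine h1.trans ?_
    set q := L / (k * T) with hq
    have hq1 : 1 ≤ q := (Nat.one_le_div_iff hkT).2 hge
    have hq1R : (1 : ℝ) ≤ q := by exact_mod_cast hq1
    set Y : ℝ := ((k * T : ℕ) : ℝ) with hY
    have hYpos : 0 < Y := by rw [hY]; exact_mod_cast hkT
    have hqY : (q : ℝ) * Y ≤ L := by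
      have : q * (k * T) ≤ L := Nat.div_mul_le_self L (k * T)
      rw [hY]; exact_mod_cast this
    have hLpos : (0 : ℝ) < L := by exact_mod_cast hL1
    -- `(q + 1) √(μ Y) ≤ 2 √(μ L) √R`
    have hLR : (L : ℝ) ≤ R * Y := by
      have h2 : (L : ℝ) ≤ hi := by exact_mod_cast (by omega : L ≤ hi)
      have h3 : (T : ℝ) ≤ Y := by
        rw [hY]; exact_mod_cast Nat.le_mul_of_pos_left T (by omega)
      exact h2.trans (hR.trans (mul_le_mul_of_nonneg_left h3 hR0))
    have h5 : ((q : ℝ) + 1) * Real.sqrt (μ * Y) ≤ 2 * (Real.sqrt (μ * L) * Real.sqrt R) := by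
      have e1 : Real.sqrt (μ * L) * Real.sqrt R = Real.sqrt (μ * L * R) := by
        rw [Real.sqrt_mul (show 0 ≤ μ * L by positivity) R]
      have e2 : (q : ℝ) * Real.sqrt (μ * Y) = Real.sqrt (μ * Y * (q : ℝ) ^ 2) := by
        rw [Real.sqrt_mul (show 0 ≤ μ * Y by positivity) ((q : ℝ) ^ 2),
          Real.sqrt_sq (by positivity)]; ring
      have h6 : (q : ℝ) * Real.sqrt (μ * Y) ≤ Real.sqrt (μ * L) * Real.sqrt R := by
        rw [e1, e2]
        apply Real.sqrt_le_sqrt
        have h7 : (q : ℝ) ≤ R := by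
          have : (q : ℝ) * Y ≤ R * Y := hqY.trans hLR
          exact le_of_mul_le_mul_right this hYpos
        calc μ * Y * (q : ℝ) ^ 2 = μ * (q * Y) * q := by ring
          _ ≤ μ * L * R := by gcongr
      have h8 : Real.sqrt (μ * Y) ≤ q * Real.sqrt (μ * Y) :=
        le_mul_of_one_le_left (Real.sqrt_nonneg _) hq1R
      linarith
    calc ((q : ℝ) + 1) * S = 3 * k * ((q + 1) * Real.sqrt (μ * Y)) := by rw [hS]; ring
      _ ≤ 3 * k * (2 * (Real.sqrt (μ * L) * Real.sqrt R)) :=
          mul_le_mul_of_nonneg_left h5 (by positivity)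
      _ = 6 * k * Real.sqrt R * Real.sqrt (μ * L) := by ring
      _ ≤ _ := by
          have : 0 ≤ 3 * k * Real.sqrt (μ * L) := by positivity
          linarith

/-- sets of integers whose density decays exponentially in the parameter -/
def Chern (p : ℕ → ℝ → ℕ → Prop) : Prop :=
  ∃ c : ℝ, 0 < c ∧ ∃ C : ℝ, 0 < C ∧ ∃ X0 : ℕ, ∀ X : ℕ, X0 ≤ X → ∀ lam : ℝ, 0 ≤ lam →
    ∀ S : Finset ℕ, (∀ n ∈ S, 1 ≤ n ∧ n ≤ X ∧ p X lam n) →
    (S.card : ℝ) ≤ C * Real.log X ^ 2 * X * Real.exp (-(c * lam))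

theorem Chern.or {p q : ℕ → ℝ → ℕ → Prop} (hp : Chern p) (hq : Chern q) :
    Chern (fun X lam n => p X lam n ∨ q X lam n) := by
  classical
  obtain ⟨c1, hc1, C1, hC1, X1, h1⟩ := hp
  obtain ⟨c2, hc2, C2, hC2, X2, h2⟩ := hq
  refine ⟨min c1 c2, lt_min hc1 hc2, C1 + C2, by positivity, max X1 X2, fun X hX lam hlam S hS => ?_⟩
  simp only [max_le_iff] at hX
  obtain ⟨g1, g2⟩ := hX
  have e : S ⊆ S.filter (fun n => p X lam n) ∪ S.filter (fun n => q X lam n) := by
    intro n hn
    rw [mem_union, mem_filter, mem_filter]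
    rcases (hS n hn).2.2 with h | h
    · exact Or.inl ⟨hn, h⟩
    · exact Or.inr ⟨hn, h⟩
  have a1 := h1 X g1 lam hlam (S.filter (fun n => p X lam n)) (fun n hn => by
    rw [mem_filter] at hn; exact ⟨(hS n hn.1).1, (hS n hn.1).2.1, hn.2⟩)
  have a2 := h2 X g2 lam hlam (S.filter (fun n => q X lam n)) (fun n hn => by
    rw [mem_filter] at hn; exact ⟨(hS n hn.1).1, (hS n hn.1).2.1, hn.2⟩)
  have a3 : (S.card : ℝ) ≤ (S.filter (fun n => p X lam n)).card +
      (S.filter (fun n => q X lam n)).card := by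
    exact_mod_cast (card_le_card e).trans (card_union_le _ _)
  have b1 : Real.exp (-(c1 * lam)) ≤ Real.exp (-(min c1 c2 * lam)) := by
    apply Real.exp_le_exp.2
    have := mul_le_mul_of_nonneg_right (min_le_left c1 c2) hlam
    linarith
  have b2 : Real.exp (-(c2 * lam)) ≤ Real.exp (-(min c1 c2 * lam)) := by
    apply Real.exp_le_exp.2
    have := mul_le_mul_of_nonneg_right (min_le_right c1 c2) hlam
    linarith
  have b3 : C1 * Real.log X ^ 2 * X * Real.exp (-(c1 * lam)) ≤
      C1 * Real.log X ^ 2 * X * Real.exp (-(min c1 c2 * lam)) :=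
    mul_le_mul_of_nonneg_left b1 (by positivity)
  have b4 : C2 * Real.log X ^ 2 * X * Real.exp (-(c2 * lam)) ≤
      C2 * Real.log X ^ 2 * X * Real.exp (-(min c1 c2 * lam)) :=
    mul_le_mul_of_nonneg_left b2 (by positivity)
  calc (S.card : ℝ) ≤ C1 * Real.log X ^ 2 * X * Real.exp (-(min c1 c2 * lam)) +
        C2 * Real.log X ^ 2 * X * Real.exp (-(min c1 c2 * lam)) := by linarith
    _ = _ := by ring

theorem Chern.exists {p : ℕ → ℕ → ℝ → ℕ → Prop} (K : ℕ) (hp : ∀ k < K, Chern (p k)) :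
    Chern (fun X lam n => ∃ k < K, p k X lam n) := by
  induction K with
  | zero =>
    refine ⟨1, one_pos, 1, one_pos, 0, fun X hX lam _ S hS => ?_⟩
    have : S = ∅ := by
      rw [eq_empty_iff_forall_notMem]
      intro n hn
      obtain ⟨k, hk, _⟩ := (hS n hn).2.2
      omega
    rw [this]
    simp only [card_empty, Nat.cast_zero]
    positivity
  | succ K ih =>
    have h1 := (ih (fun k hk => hp k (by omega))).or (hp K (by omega))
    obtain ⟨c, hc, C, hC, X0, h⟩ := h1
    refine ⟨c, hc, C, hC, X0, fun X hX lam hlam S hS => h X hX lam hlam S (fun n hn => ?_)⟩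
    obtain ⟨g1, g2, k, hk, hpk⟩ := hS n hn
    refine ⟨g1, g2, ?_⟩
    rcases Nat.lt_succ_iff_lt_or_eq.1 hk with h' | h'
    · exact Or.inl ⟨k, h', hpk⟩
    · exact Or.inr (h' ▸ hpk)

theorem Chern.of_false {p : ℕ → ℝ → ℕ → Prop} (hp : ∀ X lam n, ¬ p X lam n) : Chern p := by
  refine ⟨1, one_pos, 1, one_pos, 0, fun X hX lam _ S hS => ?_⟩
  have : S = ∅ := by
    rw [eq_empty_iff_forall_notMem]
    intro n hn
    exact hp _ _ _ (hS n hn).2.2
  rw [this]
  simp only [card_empty, Nat.cast_zero]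
  positivity

/-- **Chernoff bound for all windows.** -/
theorem chern_windows {θ : ℝ} {k0 : ℕ} {s : ℝ} {f : ℕ → ℝ → ℝ} (hf : Reg θ k0 s f)
    (b k : ℕ) (hb : 2 ≤ b) (hk : 1 ≤ k) (α β : ℝ) (hα : α ≠ 0)
    (g0 A : ℝ) (hg0 : 0 ≤ g0) (hA : 0 < A)
    (hE : ((max 2 k0 : ℕ) : ℝ) - 2 - θ < g0 * Real.log b) :
    Chern (fun X lam n => ∃ (w : Fin k → Fin b) (i L : ℕ), g0 * Real.log X ≤ i ∧
      ((i + L : ℕ) : ℝ) ≤ A * Real.log X ∧
      Real.sqrt (lam * L) < dv b k w (α * f 0 n + β) i L) := by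
  classical
  obtain ⟨κ, hκ, K2, hK2, X0, hcore⟩ := core2 hf b k hb hk α β hα g0 A hg0 hA hE
  have hkR : (1 : ℝ) ≤ k := by exact_mod_cast hk
  set R : ℝ := 2 * A / κ with hR
  have hR0 : 0 < R := by positivity
  set C1 : ℝ := 3 * k + 6 * k * Real.sqrt R + A with hC1
  have hC1' : 3 ≤ C1 := by
    have : 0 ≤ 6 * k * Real.sqrt R := by positivity
    linarith
  have hC1A : A ≤ C1 ^ 2 := by
    have : A ≤ C1 := by
      have : 0 ≤ 6 * k * Real.sqrt R := by positivity
      linarith
    nlinarith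
  have hC1sq : 0 < C1 ^ 2 := by positivity
  have t : Filter.Tendsto (fun X : ℕ => Real.log X) Filter.atTop Filter.atTop :=
    Real.tendsto_log_atTop.comp tendsto_natCast_atTop_atTop
  obtain ⟨X1, hX1⟩ := Filter.eventually_atTop.1 (t.eventually_ge_atTop (max 1 (2 / κ)))
  refine ⟨1 / (4 * C1 ^ 2), by positivity, K2 + 2, by positivity, max X0 (max X1 1),
    fun X hX lam hlam S hS => ?_⟩
  simp only [max_le_iff] at hX
  obtain ⟨g0X, g1X, g2X⟩ := hX
  have hXpos : (0 : ℝ) < X := by exact_mod_cast g2X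
  have hlog' := hX1 X g1X
  rw [max_le_iff] at hlog'
  obtain ⟨hlog, hlog2⟩ := hlog'
  have hκlog : 2 ≤ κ * Real.log X := by
    rw [div_le_iff₀ hκ] at hlog2; linarith
  have hlogsq : 1 ≤ Real.log X ^ 2 := by nlinarith
  set μ : ℝ := lam / C1 ^ 2 with hμdef
  have hμ0 : 0 ≤ μ := by positivity
  have elam : lam = C1 ^ 2 * μ := by rw [hμdef]; field_simp
  have eexp : 1 / (4 * C1 ^ 2) * lam = μ / 4 := by rw [hμdef]; field_simp
  rw [eexp]
  have hexpos : 0 < Real.exp (-(μ / 4)) := Real.exp_pos _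
  rcases lt_or_ge μ 2 with hμ2 | hμ2
  · -- trivial
    have h1 : (S.card : ℝ) ≤ X := by
      have : S ⊆ Icc 1 X := by
        intro n hn
        rw [mem_Icc]
        exact ⟨(hS n hn).1, (hS n hn).2.1⟩
      have h2 := card_le_card this
      rw [Nat.card_Icc] at h2
      exact_mod_cast (by omega : S.card ≤ X)
    refine h1.trans ?_
    have h3 : 1 / 2 ≤ Real.exp (-(μ / 4)) := by
      have := Real.add_one_le_exp (-(μ / 4))
      linarith
    have h4 : 1 ≤ (K2 + 2) * Real.log X ^ 2 * Real.exp (-(μ / 4)) := by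
      calc (1 : ℝ) = 2 * 1 * (1 / 2) := by norm_num
        _ ≤ (K2 + 2) * Real.log X ^ 2 * Real.exp (-(μ / 4)) := by
            gcongr
            linarith
    calc (X : ℝ) = 1 * X := (one_mul _).symm
      _ ≤ ((K2 + 2) * Real.log X ^ 2 * Real.exp (-(μ / 4))) * X :=
          mul_le_mul_of_nonneg_right h4 hXpos.le
      _ = _ := by ring
  rcases lt_or_ge (2 * Real.log X) μ with hμX | hμX
  · -- empty
    have : S = ∅ := by
      rw [eq_empty_iff_forall_notMem]
      intro n hn
      obtain ⟨_, _, w, i, L, _, hL2, hbad⟩ := hS n hn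
      have h1 := dv_triv b k (by omega) w (α * f 0 n + β) i L
      have h2 : Real.sqrt (lam * L) < L := lt_of_lt_of_le hbad h1
      have h3 : lam * L < (L : ℝ) ^ 2 := by
        have := (Real.sqrt_lt' (lt_of_le_of_lt (Real.sqrt_nonneg _) h2)).1 h2
        exact this
      have hLpos : (0 : ℝ) < L := lt_of_le_of_lt (Real.sqrt_nonneg _) h2
      have h4 : lam < L := by
        have : lam * L < L * L := by rw [← sq]; exact h3
        exact lt_of_mul_lt_mul_right this hLpos.le
      have h5 : (L : ℝ) ≤ A * Real.log X := by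
        refine le_trans ?_ hL2
        push_cast
        have : (0 : ℝ) ≤ i := by positivity
        linarith
      have h6 : A * (2 * Real.log X) ≤ C1 ^ 2 * μ := mul_le_mul hC1A hμX.le (by positivity) hC1sq.le
      have h7 : 0 < A * Real.log X := by positivity
      linarith
    rw [this]
    simp only [card_empty, Nat.cast_zero]
    positivity
  · set T : ℕ := ⌊κ * Real.log X⌋₊ with hT
    have hT1 : 1 ≤ T := Nat.le_floor (by push_cast; linarith)
    have hTle : (T : ℝ) ≤ κ * Real.log X := Nat.floor_le (by positivity)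
    have hTge : κ * Real.log X / 2 ≤ T := by
      have := Nat.lt_floor_add_one (κ * Real.log X)
      rw [← hT] at this
      linarith
    have h1 := hcore X g0X μ (by linarith) hμX S (fun n hn => by
      obtain ⟨hn1, hn2, w, i, L, hi, hL, hbad⟩ := hS n hn
      refine ⟨hn1, hn2, ?_⟩
      by_contra hcon
      push Not at hcon
      set lo : ℕ := ⌈g0 * Real.log X⌉₊ with hlo
      set hi' : ℕ := ⌊A * Real.log X⌋₊ with hhi
      have hw := windows2 b k hb hk (α * f 0 n + β) T hT1 μ hμ2 lo hi' (fun j t h1 h2 h3 h4 h5 =>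
        hcon j t (by
          have := Nat.le_ceil (g0 * Real.log X)
          have h6 : (lo : ℝ) ≤ j := by exact_mod_cast h1
          linarith) (by
          have h6 : (j : ℝ) ≤ hi' := by exact_mod_cast h2
          exact h6.trans (Nat.floor_le (by positivity))) h3 h4 (by
          have h6 : (t : ℝ) ≤ T := by exact_mod_cast h5
          exact h6.trans hTle)) R (by
          calc (hi' : ℝ) ≤ A * Real.log X := Nat.floor_le (by positivity)
            _ = R * (κ * Real.log X / 2) := by rw [hR]; field_simp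
            _ ≤ R * T := mul_le_mul_of_nonneg_left hTge hR0.le) w i L (Nat.ceil_le.2 hi)
          (Nat.le_floor hL)
      have h7 : (3 * k + 6 * k * Real.sqrt R) * Real.sqrt (μ * L) ≤ Real.sqrt (lam * L) := by
        have e1 : Real.sqrt (lam * L) = C1 * Real.sqrt (μ * L) := by
          rw [elam, mul_assoc, Real.sqrt_mul (by positivity), Real.sqrt_sq (by linarith)]
        rw [e1]
        apply mul_le_mul_of_nonneg_right _ (Real.sqrt_nonneg _)
        linarith
      linarith)
    refine h1.trans ?_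
    have h8 : 0 ≤ Real.log X ^ 2 * X * Real.exp (-(μ / 4)) := by positivity
    nlinarith

end Pool.Agent.TH373.DR
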