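import Pool.Agent.TH373.DR2.Low

set_option autoImplicit false

/-!
Density of words and the Chernoff bound for all windows of significant digits, exponents `θ ≤ 0`.
-/

namespace Pool.Agent.TH373.DR

open Finset Pool.Agent.Helper153.Vdc Pool.Agent.W226.MP

/-- the words of digits of `y n`, `n ≤ X`, hit every set `Z` of words with a density at most
`C log X` times the right one, at the admissible places `j` -/
def Dens (b : ℕ) (y : ℕ → ℝ) (adm : ℕ → ℕ → Prop) : Prop :=
  ∀ A : ℝ, 0 < A → ∃ κ : ℝ, 0 < κ ∧ ∃ C : ℝ, 0 < C ∧ ∃ X0 : ℕ, ∀ X : ℕ, X0 ≤ X →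
    ∀ j l : ℕ, (j : ℝ) ≤ A * Real.log X → 2 ≤ l → (l : ℝ) ≤ κ * Real.log X →
    ∀ (Z S : Finset ℕ), (∀ n ∈ S, 1 ≤ n ∧ n ≤ X ∧ adm j n ∧
      ⌊Int.fract (y n * (b : ℝ) ^ j) * ((b ^ l : ℕ) : ℝ)⌋₊ ∈ Z) →
    (S.card : ℝ) ≤ C * Real.log X * X * Z.card / (b : ℝ) ^ l + 2 * (X : ℝ) ^ (1 / 2 : ℝ)

/-- **Core theorem.** -/
theorem core3 (b k : ℕ) (hb : 2 ≤ b) (hk : 1 ≤ k) (y : ℕ → ℝ) (adm : ℕ → ℕ → Prop)
    (hmono : ∀ j n, adm j n → adm (j + 1) n) (hD : Dens b y adm) (A : ℝ) (hA : 0 < A) :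
    ∃ κ : ℝ, 0 < κ ∧ ∃ K2 : ℝ, 0 < K2 ∧ ∃ X0 : ℕ, ∀ X : ℕ, X0 ≤ X → ∀ μ : ℝ, 0 < μ →
      μ ≤ 2 * Real.log X → ∀ S : Finset ℕ,
      (∀ n ∈ S, 1 ≤ n ∧ n ≤ X ∧ ∃ i t : ℕ, adm i n ∧ i ≤ A * Real.log X ∧
        2 ≤ t ∧ μ ≤ t ∧ (t : ℝ) ≤ κ * Real.log X ∧
        BadAt b k t (Real.sqrt (μ / t)) (y n) i) →
      (S.card : ℝ) ≤ K2 * Real.log X ^ 3 * X * Real.exp (-(μ / 4)) := by
  classical
  have hmono' : ∀ r j n, adm j n → adm (j + r) n := by
    intro r
    induction r with
    | zero => intro j n h; exact h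
    | succ r ih => intro j n h; exact hmono _ _ (ih j n h)
  obtain ⟨κ, hκ, CD, hCD, X0, hdens⟩ := hD (A + 1) (by linarith)
  have hkR : (1 : ℝ) ≤ k := by exact_mod_cast hk
  have hbR : (2 : ℝ) ≤ b := by exact_mod_cast hb
  refine ⟨κ / k, by positivity, (A + 1) * (κ / k + 1) * k * (b : ℝ) ^ k * (2 * CD + 2), by positivity, ?_⟩
  have t : Filter.Tendsto (fun X : ℕ => Real.log X) Filter.atTop Filter.atTop :=
    Real.tendsto_log_atTop.comp tendsto_natCast_atTop_atTop
  obtain ⟨X1, hX1⟩ := Filter.eventually_atTop.1 (t.eventually_ge_atTop (k : ℝ))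
  refine ⟨max X0 (max X1 1), fun X hX μ hμ hμX S hS => ?_⟩
  simp only [max_le_iff] at hX
  obtain ⟨g0X, g1X, g2X⟩ := hX
  have hXpos : (0 : ℝ) < X := by exact_mod_cast g2X
  have hlogk := hX1 X g1X
  have hlog : 1 ≤ Real.log X := hkR.trans hlogk
  have hbk : 2 ≤ b ^ k := by
    calc 2 ≤ b := hb
      _ = b ^ 1 := (pow_one b).symm
      _ ≤ b ^ k := Nat.pow_le_pow_right (by omega) hk
  set ex := Real.exp (-(μ / 4)) with hex
  have hexpos : 0 < ex := Real.exp_pos _
  -- `√X ≤ X e^(-μ/4)`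
  have hsq : (X : ℝ) ^ (1 / 2 : ℝ) ≤ X * ex := by
    have e1 : (X : ℝ) = Real.exp (Real.log X) := (Real.exp_log hXpos).symm
    have e2 : (X : ℝ) * ex = Real.exp (Real.log X - μ / 4) := by
      rw [hex, sub_eq_add_neg, Real.exp_add, ← e1]
    rw [e2, Real.rpow_def_of_pos hXpos]
    apply Real.exp_le_exp.2
    linarith
  set I : Finset ℕ := range (⌊A * Real.log X⌋₊ + 1) with hI
  set J : Finset ℕ := (range (⌊κ / k * Real.log X⌋₊ + 1)).filter (fun t => 2 ≤ t ∧ μ ≤ (t : ℝ))
    with hJ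
  set U : ℕ → ℕ → ℕ → ℕ → Finset ℕ := fun i t r a => S.filter (fun n => adm i n ∧
    ⌊Int.fract (y n * (b : ℝ) ^ (i + r)) * ((b ^ (k * t) : ℕ) : ℝ)⌋₊ ∈
      Zb (b ^ k) t (Real.sqrt (μ / t)) a) with hU
  have hsub : S ⊆ I.biUnion fun i => J.biUnion fun t => (range k).biUnion fun r =>
      (range (b ^ k)).biUnion fun a => U i t r a := by
    intro n hn
    obtain ⟨_, _, i, t, h1, h2, h3, h4, h5, r, hr, a, ha, hz⟩ := hS n hn
    simp only [mem_biUnion, mem_range, mem_filter, hI, hJ, hU]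
    refine ⟨i, Nat.lt_succ_of_le (Nat.le_floor h2), t,
      ⟨Nat.lt_succ_of_le (Nat.le_floor h5), h3, h4⟩, r, hr, a, ha, hn, h1, ?_⟩
    have e : b ^ (k * t) = (b ^ k) ^ t := pow_mul b k t
    rw [e]
    exact hz
  have hpiece : ∀ i ∈ I, ∀ t ∈ J, ∀ r ∈ range k, ∀ a ∈ range (b ^ k),
      ((U i t r a).card : ℝ) ≤ (2 * CD + 2) * Real.log X * X * ex := by
    intro i hi t ht r hr a ha
    rw [hI, mem_range] at hi
    rw [hJ, mem_filter, mem_range] at ht
    rw [mem_range] at hr ha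
    have hi2 : (i : ℝ) ≤ A * Real.log X :=
      (Nat.le_floor_iff (by positivity)).1 (Nat.lt_succ_iff.1 hi)
    have ht2 : (t : ℝ) ≤ κ / k * Real.log X :=
      (Nat.le_floor_iff (by positivity)).1 (Nat.lt_succ_iff.1 ht.1)
    have htpos : (0 : ℝ) < t := by exact_mod_cast (by omega : 0 < t)
    have hrk : (r : ℝ) ≤ k := by exact_mod_cast hr.le
    have hd := hdens X g0X (i + r) (k * t) (by
        push_cast
        linarith) (by
        calc 2 ≤ t := ht.2.1
          _ ≤ k * t := Nat.le_mul_of_pos_left _ (by omega)) (by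
        push_cast
        calc (k : ℝ) * t ≤ k * (κ / k * Real.log X) := mul_le_mul_of_nonneg_left ht2 (by positivity)
          _ = κ * Real.log X := by field_simp)
        (Zb (b ^ k) t (Real.sqrt (μ / t)) a) (U i t r a) (fun n hn => by
          rw [hU, mem_filter] at hn
          exact ⟨(hS n hn.1).1, (hS n hn.1).2.1, hmono' r i n hn.2.1, hn.2.2⟩)
    refine hd.trans ?_
    have hquot : 0 < μ / t := by positivity
    have hZ := Zb_card (b ^ k) t (Real.sqrt (μ / t)) a hbk ha (Real.sqrt_pos.2 hquot) (by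
      have h0 : μ / t ≤ 1 := (div_le_one htpos).2 ht.2.2
      calc Real.sqrt (μ / t) ≤ Real.sqrt 1 := Real.sqrt_le_sqrt h0
        _ = 1 := Real.sqrt_one)
    rw [Real.sq_sqrt hquot.le] at hZ
    have e1 : -(μ / t / 4) * (t : ℝ) = -(μ / 4) := by field_simp
    rw [e1] at hZ
    have e2 : (((b ^ k : ℕ) : ℝ)) ^ t = (b : ℝ) ^ (k * t) := by push_cast; rw [← pow_mul]
    rw [e2] at hZ
    have hbpos : (0 : ℝ) < (b : ℝ) ^ (k * t) := by positivity
    have h1 : CD * Real.log X * (X : ℝ) * ((Zb (b ^ k) t (Real.sqrt (μ / t)) a).card : ℝ) /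
        (b : ℝ) ^ (k * t) ≤ 2 * CD * Real.log X * X * ex := by
      rw [div_le_iff₀ hbpos]
      calc CD * Real.log X * (X : ℝ) * ((Zb (b ^ k) t (Real.sqrt (μ / t)) a).card : ℝ)
          ≤ CD * Real.log X * X * (2 * ex * (b : ℝ) ^ (k * t)) :=
            mul_le_mul_of_nonneg_left hZ (by positivity)
        _ = _ := by ring
    have h2 : (X : ℝ) * ex ≤ Real.log X * (X * ex) :=
      le_mul_of_one_le_left (by positivity) hlog
    nlinarith
  have hcard : (S.card : ℝ) ≤ ∑ i ∈ I, ∑ t ∈ J, ∑ r ∈ range k, ∑ a ∈ range (b ^ k),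
      ((U i t r a).card : ℝ) := by
    have h1 := card_le_card hsub
    have h2 : (I.biUnion fun i => J.biUnion fun t => (range k).biUnion fun r =>
      (range (b ^ k)).biUnion fun a => U i t r a).card ≤
        ∑ i ∈ I, ∑ t ∈ J, ∑ r ∈ range k, ∑ a ∈ range (b ^ k), (U i t r a).card := by
      refine card_biUnion_le.trans (sum_le_sum fun i _ => ?_)
      refine card_biUnion_le.trans (sum_le_sum fun t _ => ?_)
      refine card_biUnion_le.trans (sum_le_sum fun r _ => ?_)
      exact card_biUnion_le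
    exact_mod_cast h1.trans h2
  have hIc : (I.card : ℝ) ≤ (A + 1) * Real.log X := by
    have h4 : I.card ≤ ⌊A * Real.log X⌋₊ + 1 := by
      rw [hI, card_range]
    have h5 : (I.card : ℝ) ≤ ⌊A * Real.log X⌋₊ + 1 := by exact_mod_cast h4
    have h6 : (⌊A * Real.log X⌋₊ : ℝ) ≤ A * Real.log X := Nat.floor_le (by positivity)
    linarith
  have hJc : (J.card : ℝ) ≤ (κ / k + 1) * Real.log X := by
    have h4 : J.card ≤ ⌊κ / k * Real.log X⌋₊ + 1 := by
      rw [hJ]; exact (card_filter_le _ _).trans (by rw [card_range])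
    have h5 : (J.card : ℝ) ≤ ⌊κ / k * Real.log X⌋₊ + 1 := by exact_mod_cast h4
    have h6 : (⌊κ / k * Real.log X⌋₊ : ℝ) ≤ κ / k * Real.log X := Nat.floor_le (by positivity)
    linarith
  calc (S.card : ℝ) ≤ _ := hcard
    _ ≤ ∑ i ∈ I, ∑ t ∈ J, ∑ r ∈ range k, ∑ a ∈ range (b ^ k), ((2 * CD + 2) * Real.log X * X * ex) :=
        sum_le_sum fun i hi => sum_le_sum fun t ht => sum_le_sum fun r hr =>
          sum_le_sum fun a ha => hpiece i hi t ht r hr a ha
    _ = I.card * (J.card * (k * ((b : ℝ) ^ k * ((2 * CD + 2) * Real.log X * X * ex)))) := by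
        simp only [sum_const, card_range, nsmul_eq_mul]
        push_cast; ring
    _ ≤ ((A + 1) * Real.log X) * (((κ / k + 1) * Real.log X) * (k * ((b : ℝ) ^ k * ((2 * CD + 2) * Real.log X * X * ex)))) := by
        gcongr
    _ = _ := by ring

/-- sets of integers whose density decays exponentially in the parameter -/
def Chern3 (p : ℕ → ℝ → ℕ → Prop) : Prop :=
  ∃ c : ℝ, 0 < c ∧ ∃ C : ℝ, 0 < C ∧ ∃ X0 : ℕ, ∀ X : ℕ, X0 ≤ X → ∀ lam : ℝ, 0 ≤ lam →
    ∀ S : Finset ℕ, (∀ n ∈ S, 1 ≤ n ∧ n ≤ X ∧ p X lam n) →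
    (S.card : ℝ) ≤ C * Real.log X ^ 3 * X * Real.exp (-(c * lam))

theorem Chern3.or {p q : ℕ → ℝ → ℕ → Prop} (hp : Chern3 p) (hq : Chern3 q) :
    Chern3 (fun X lam n => p X lam n ∨ q X lam n) := by
  classical
  obtain ⟨c1, hc1, C1, hC1, X1, h1⟩ := hp
  obtain ⟨c2, hc2, C2, hC2, X2, h2⟩ := hq
  refine ⟨min c1 c2, lt_min hc1 hc2, C1 + C2, by positivity, max X1 X2, fun X hX lam hlam S hS => ?_⟩
  simp only [max_le_iff] at hX
  obtain ⟨g1, g2⟩ := hX
  have e : S ⊆ S.filter (fun n => p X lam n) ∪ S.filter (fun n => q X lam n) := by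
    intro n hn
    rw [mem_union, mem_filter, mem_filter]
    rcases (hS n hn).2.2 with h | h
    · exact Or.inl ⟨hn, h⟩
    · exact Or.inr ⟨hn, h⟩
  have a1 := h1 X g1 lam hlam (S.filter (fun n => p X lam n)) (fun n hn => by
    rw [mem_filter] at hn; exact ⟨(hS n hn.1).1, (hS n hn.1).2.1, hn.2⟩)
  have a2 := h2 X g2 lam hlam (S.filter (fun n => q X lam n)) (fun n hn => by
    rw [mem_filter] at hn; exact ⟨(hS n hn.1).1, (hS n hn.1).2.1, hn.2⟩)
  have a3 : (S.card : ℝ) ≤ (S.filter (fun n => p X lam n)).card +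
      (S.filter (fun n => q X lam n)).card := by
    exact_mod_cast (card_le_card e).trans (card_union_le _ _)
  have b1 : Real.exp (-(c1 * lam)) ≤ Real.exp (-(min c1 c2 * lam)) := by
    apply Real.exp_le_exp.2
    have := mul_le_mul_of_nonneg_right (min_le_left c1 c2) hlam
    linarith
  have b2 : Real.exp (-(c2 * lam)) ≤ Real.exp (-(min c1 c2 * lam)) := by
    apply Real.exp_le_exp.2
    have := mul_le_mul_of_nonneg_right (min_le_right c1 c2) hlam
    linarith
  have b3 : C1 * Real.log X ^ 3 * X * Real.exp (-(c1 * lam)) ≤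
      C1 * Real.log X ^ 3 * X * Real.exp (-(min c1 c2 * lam)) :=
    mul_le_mul_of_nonneg_left b1 (by positivity)
  have b4 : C2 * Real.log X ^ 3 * X * Real.exp (-(c2 * lam)) ≤
      C2 * Real.log X ^ 3 * X * Real.exp (-(min c1 c2 * lam)) :=
    mul_le_mul_of_nonneg_left b2 (by positivity)
  calc (S.card : ℝ) ≤ C1 * Real.log X ^ 3 * X * Real.exp (-(min c1 c2 * lam)) +
        C2 * Real.log X ^ 3 * X * Real.exp (-(min c1 c2 * lam)) := by linarith
    _ = _ := by ring

theorem Chern3.exists {p : ℕ → ℕ → ℝ → ℕ → Prop} (K : ℕ) (hp : ∀ k < K, Chern3 (p k)) :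
    Chern3 (fun X lam n => ∃ k < K, p k X lam n) := by
  induction K with
  | zero =>
    refine ⟨1, one_pos, 1, one_pos, 0, fun X hX lam _ S hS => ?_⟩
    have : S = ∅ := by
      rw [eq_empty_iff_forall_notMem]
      intro n hn
      obtain ⟨k, hk, _⟩ := (hS n hn).2.2
      omega
    rw [this]
    simp only [card_empty, Nat.cast_zero]
    positivity
  | succ K ih =>
    have h1 := (ih (fun k hk => hp k (by omega))).or (hp K (by omega))
    obtain ⟨c, hc, C, hC, X0, h⟩ := h1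
    refine ⟨c, hc, C, hC, X0, fun X hX lam hlam S hS => h X hX lam hlam S (fun n hn => ?_)⟩
    obtain ⟨g1, g2, k, hk, hpk⟩ := hS n hn
    refine ⟨g1, g2, ?_⟩
    rcases Nat.lt_succ_iff_lt_or_eq.1 hk with h' | h'
    · exact Or.inl ⟨k, h', hpk⟩
    · exact Or.inr (h' ▸ hpk)

theorem Chern3.of_false {p : ℕ → ℝ → ℕ → Prop} (hp : ∀ X lam n, ¬ p X lam n) : Chern3 p := by
  refine ⟨1, one_pos, 1, one_pos, 0, fun X hX lam _ S hS => ?_⟩
  have : S = ∅ := by
    rw [eq_empty_iff_forall_notMem]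
    intro n hn
    exact hp _ _ _ (hS n hn).2.2
  rw [this]
  simp only [card_empty, Nat.cast_zero]
  positivity

/-- **Chernoff bound for all windows.** -/
theorem chern_dens (b k : ℕ) (hb : 2 ≤ b) (hk : 1 ≤ k) (y : ℕ → ℝ) (adm : ℕ → ℕ → Prop)
    (hmono : ∀ j n, adm j n → adm (j + 1) n) (hD : Dens b y adm) (A : ℝ) (hA : 0 < A) :
    Chern3 (fun X lam n => ∃ (w : Fin k → Fin b) (i L : ℕ), adm i n ∧
      ((i + L : ℕ) : ℝ) ≤ A * Real.log X ∧
      Real.sqrt (lam * L) < dv b k w (y n) i L) := by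
  classical
  obtain ⟨κ, hκ, K2, hK2, X0, hcore⟩ := core3 b k hb hk y adm hmono hD A hA
  have hkR : (1 : ℝ) ≤ k := by exact_mod_cast hk
  set R : ℝ := 2 * A / κ with hR
  have hR0 : 0 < R := by positivity
  set C1 : ℝ := 3 * k + 6 * k * Real.sqrt R + A with hC1
  have hC1' : 3 ≤ C1 := by
    have : 0 ≤ 6 * k * Real.sqrt R := by positivity
    linarith
  have hC1A : A ≤ C1 ^ 2 := by
    have : A ≤ C1 := by
      have : 0 ≤ 6 * k * Real.sqrt R := by positivity
      linarith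
    nlinarith
  have hC1sq : 0 < C1 ^ 2 := by positivity
  have t : Filter.Tendsto (fun X : ℕ => Real.log X) Filter.atTop Filter.atTop :=
    Real.tendsto_log_atTop.comp tendsto_natCast_atTop_atTop
  obtain ⟨X1, hX1⟩ := Filter.eventually_atTop.1 (t.eventually_ge_atTop (max 1 (2 / κ)))
  refine ⟨1 / (4 * C1 ^ 2), by positivity, K2 + 2, by positivity, max X0 (max X1 1),
    fun X hX lam hlam S hS => ?_⟩
  simp only [max_le_iff] at hX
  obtain ⟨g0X, g1X, g2X⟩ := hX
  have hXpos : (0 : ℝ) < X := by exact_mod_cast g2X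
  have hlog' := hX1 X g1X
  rw [max_le_iff] at hlog'
  obtain ⟨hlog, hlog2⟩ := hlog'
  have hκlog : 2 ≤ κ * Real.log X := by
    rw [div_le_iff₀ hκ] at hlog2; linarith
  have hlogsq : 1 ≤ Real.log X ^ 3 := one_le_pow₀ hlog
  set μ : ℝ := lam / C1 ^ 2 with hμdef
  have hμ0 : 0 ≤ μ := by positivity
  have elam : lam = C1 ^ 2 * μ := by rw [hμdef]; field_simp
  have eexp : 1 / (4 * C1 ^ 2) * lam = μ / 4 := by rw [hμdef]; field_simp
  rw [eexp]
  have hexpos : 0 < Real.exp (-(μ / 4)) := Real.exp_pos _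
  rcases lt_or_ge μ 2 with hμ2 | hμ2
  · -- trivial
    have h1 : (S.card : ℝ) ≤ X := by
      have : S ⊆ Icc 1 X := by
        intro n hn
        rw [mem_Icc]
        exact ⟨(hS n hn).1, (hS n hn).2.1⟩
      have h2 := card_le_card this
      rw [Nat.card_Icc] at h2
      exact_mod_cast (by omega : S.card ≤ X)
    refine h1.trans ?_
    have h3 : 1 / 2 ≤ Real.exp (-(μ / 4)) := by
      have := Real.add_one_le_exp (-(μ / 4))
      linarith
    have h4 : 1 ≤ (K2 + 2) * Real.log X ^ 3 * Real.exp (-(μ / 4)) := by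
      calc (1 : ℝ) = 2 * 1 * (1 / 2) := by norm_num
        _ ≤ (K2 + 2) * Real.log X ^ 3 * Real.exp (-(μ / 4)) := by
            gcongr
            linarith
    calc (X : ℝ) = 1 * X := (one_mul _).symm
      _ ≤ ((K2 + 2) * Real.log X ^ 3 * Real.exp (-(μ / 4))) * X :=
          mul_le_mul_of_nonneg_right h4 hXpos.le
      _ = _ := by ring
  rcases lt_or_ge (2 * Real.log X) μ with hμX | hμX
  · -- empty
    have : S = ∅ := by
      rw [eq_empty_iff_forall_notMem]
      intro n hn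
      obtain ⟨_, _, w, i, L, _, hL2, hbad⟩ := hS n hn
      have h1 := dv_triv b k (by omega) w (y n) i L
      have h2 : Real.sqrt (lam * L) < L := lt_of_lt_of_le hbad h1
      have h3 : lam * L < (L : ℝ) ^ 2 := by
        have := (Real.sqrt_lt' (lt_of_le_of_lt (Real.sqrt_nonneg _) h2)).1 h2
        exact this
      have hLpos : (0 : ℝ) < L := lt_of_le_of_lt (Real.sqrt_nonneg _) h2
      have h4 : lam < L := by
        have : lam * L < L * L := by rw [← sq]; exact h3
        exact lt_of_mul_lt_mul_right this hLpos.le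
      have h5 : (L : ℝ) ≤ A * Real.log X := by
        refine le_trans ?_ hL2
        push_cast
        have : (0 : ℝ) ≤ i := by positivity
        linarith
      have h6 : A * (2 * Real.log X) ≤ C1 ^ 2 * μ := mul_le_mul hC1A hμX.le (by positivity) hC1sq.le
      have h7 : 0 < A * Real.log X := by positivity
      linarith
    rw [this]
    simp only [card_empty, Nat.cast_zero]
    positivity
  · set T : ℕ := ⌊κ * Real.log X⌋₊ with hT
    have hT1 : 1 ≤ T := Nat.le_floor (by push_cast; linarith)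
    have hTle : (T : ℝ) ≤ κ * Real.log X := Nat.floor_le (by positivity)
    have hTge : κ * Real.log X / 2 ≤ T := by
      have := Nat.lt_floor_add_one (κ * Real.log X)
      rw [← hT] at this
      linarith
    have h1 := hcore X g0X μ (by linarith) hμX S (fun n hn => by
      obtain ⟨hn1, hn2, w, i, L, hi, hL, hbad⟩ := hS n hn
      refine ⟨hn1, hn2, ?_⟩
      by_contra hcon
      push Not at hcon
      have hmono' : ∀ r j, adm j n → adm (j + r) n := by
        intro r
        induction r with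
        | zero => intro j h; exact h
        | succ r ih => intro j h; exact hmono _ _ (ih j h)
      set hi' : ℕ := ⌊A * Real.log X⌋₊ with hhi
      have hw := windows2 b k hb hk (y n) T hT1 μ hμ2 i hi' (fun j t h1 h2 h3 h4 h5 =>
        hcon j t (by
          have := hmono' (j - i) i hi
          have e : i + (j - i) = j := by omega
          rwa [e] at this) (by
          have h6 : (j : ℝ) ≤ hi' := by exact_mod_cast h2
          exact h6.trans (Nat.floor_le (by positivity))) h3 h4 (by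
          have h6 : (t : ℝ) ≤ T := by exact_mod_cast h5
          exact h6.trans hTle)) R (by
          calc (hi' : ℝ) ≤ A * Real.log X := Nat.floor_le (by positivity)
            _ = R * (κ * Real.log X / 2) := by rw [hR]; field_simp
            _ ≤ R * T := mul_le_mul_of_nonneg_left hTge hR0.le) w i L le_rfl
          (Nat.le_floor hL)
      have h7 : (3 * k + 6 * k * Real.sqrt R) * Real.sqrt (μ * L) ≤ Real.sqrt (lam * L) := by
        have e1 : Real.sqrt (lam * L) = C1 * Real.sqrt (μ * L) := by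
          rw [elam, mul_assoc, Real.sqrt_mul (by positivity), Real.sqrt_sq (by linarith)]
        rw [e1]
        apply mul_le_mul_of_nonneg_right _ (Real.sqrt_nonneg _)
        linarith
      linarith)
    refine h1.trans ?_
    have h8 : 0 ≤ Real.log X ^ 3 * X * Real.exp (-(μ / 4)) := by positivity
    nlinarith

end Pool.Agent.TH373.DR
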