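import Pool.Agent.TH373.DR2.Vdc2
import Pool.Agent.TH373.DR.Win

set_option autoImplicit false

/-!
Upper bounds for the number of `n ≤ X` such that a word of digits of `α f(n) + β` lies in a given
set `Z` of words.
-/

namespace Pool.Agent.TH373.DR

open Finset Pool.Agent.Helper153.Vdc Pool.Agent.W226.MP

/-- `n` is counted: the `l` digits of `α f(n) + β` after the place `j` form a word in `Z` -/
def Hit (b : ℕ) (f : ℕ → ℝ → ℝ) (α β : ℝ) (j l : ℕ) (Z : Finset ℕ) (n : ℕ) : Prop :=
  ⌊Int.fract ((α * f 0 n + β) * (b : ℝ) ^ j) * ((b ^ l : ℕ) : ℝ)⌋₊ ∈ Z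

/-- **Density of words.** -/
theorem density {θ : ℝ} {k0 : ℕ} {s : ℝ} {f : ℕ → ℝ → ℝ} (hf : Reg θ k0 s f)
    (b : ℕ) (hb : 2 ≤ b) (α β : ℝ) (hα : α ≠ 0)
    (g0 A : ℝ) (hg0 : 0 ≤ g0) (hA : 0 < A)
    (hE : ((max 2 k0 : ℕ) : ℝ) - 2 - θ < g0 * Real.log b) :
    ∃ κ : ℝ, 0 < κ ∧ ∃ X0 : ℕ, ∀ X : ℕ, X0 ≤ X →
      ∀ j l : ℕ, g0 * Real.log X ≤ j → j ≤ A * Real.log X → 2 ≤ l → (l : ℝ) ≤ κ * Real.log X →
      ∀ (Z : Finset ℕ) (S : Finset ℕ), (∀ n ∈ S, 1 ≤ n ∧ n ≤ X ∧ Hit b f α β j l Z n) →
      (S.card : ℝ) ≤ 33 * X * Z.card / (b : ℝ) ^ l + 2 * (X : ℝ) ^ (1 / 2 : ℝ) := by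
  classical
  set E : ℝ := ((max 2 k0 : ℕ) : ℝ) - 2 - θ with hEdef
  have hbR : (2 : ℝ) ≤ b := by exact_mod_cast hb
  have hlb : 0 < Real.log b := Real.log_pos (by linarith)
  -- the exponent `η`
  obtain ⟨η, hη, hη1, γ, hγ, hPγ⟩ : ∃ η : ℝ, 0 < η ∧ η ≤ 1 / 2 ∧ ∃ γ : ℝ, γ < g0 * Real.log b ∧
      ∀ P X : ℕ, 1 ≤ P → P ≤ X → X ≤ P ^ 2 → (P : ℝ) ^ (E + η) ≤ (X : ℝ) ^ γ := by
    rcases lt_or_ge E 0 with hneg | hpos
    · refine ⟨min (1 / 2) (-E / 2), lt_min (by norm_num) (by linarith), min_le_left _ _,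
        (E + min (1 / 2) (-E / 2)) / 2, ?_, ?_⟩
      · have : min (1 / 2) (-E / 2) ≤ -E / 2 := min_le_right _ _
        have : 0 ≤ g0 * Real.log b := by positivity
        linarith
      · intro P X hP hPX hX
        have hle : E + min (1 / 2) (-E / 2) ≤ 0 := by
          have : min (1 / 2) (-E / 2) ≤ -E / 2 := min_le_right _ _
          linarith
        have hP0 : (0 : ℝ) < P := by exact_mod_cast hP
        have hX0 : (0 : ℝ) < X := by exact_mod_cast (by omega : 0 < X)
        have h1 : (P : ℝ) ^ (E + min (1 / 2) (-E / 2)) =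
            ((P : ℝ) ^ 2) ^ ((E + min (1 / 2) (-E / 2)) / 2) := by
          rw [← Real.rpow_natCast (P : ℝ) 2, ← Real.rpow_mul hP0.le]
          congr 1
          push_cast; ring
        rw [h1]
        exact Real.rpow_le_rpow_of_nonpos hX0 (by exact_mod_cast hX) (by linarith)
    · have hd : 0 < g0 * Real.log b - E := by linarith
      refine ⟨min (1 / 2) ((g0 * Real.log b - E) / 2), lt_min (by norm_num) (by linarith),
        min_le_left _ _, E + min (1 / 2) ((g0 * Real.log b - E) / 2), ?_, ?_⟩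
      · have : min (1 / 2) ((g0 * Real.log b - E) / 2) ≤ (g0 * Real.log b - E) / 2 :=
          min_le_right _ _
        linarith
      · intro P X hP hPX _
        apply Real.rpow_le_rpow (by positivity) (by exact_mod_cast hPX)
        have : 0 < min (1 / 2) ((g0 * Real.log b - E) / 2) := lt_min (by norm_num) (by linarith)
        linarith
  -- the exponential sums
  set A2 : ℝ := A * Real.log b + 2 with hA2
  have hA2pos : 0 < A2 := by positivity
  obtain ⟨σ, hσ, C, hC, hsum⟩ := hf.expsum η (2 * A2) hη hη1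
  set σ' := min σ (1 / 2) with hσ'
  have hσ'0 : 0 < σ' := lt_min hσ (by norm_num)
  set κ := σ' / (2 * Real.log b) with hκdef
  have hκ : 0 < κ := by positivity
  have hκ2 : κ * Real.log b = σ' / 2 := by
    rw [hκdef]; field_simp
  refine ⟨κ, hκ, ?_⟩
  obtain ⟨X1, hX1⟩ := large γ (g0 * Real.log b) hγ |α|⁻¹
  obtain ⟨X2, hX2⟩ := large (A2 - 1) A2 (by linarith) |α|
  obtain ⟨X3, hX3⟩ := log_sq_le (8 * C) (σ' / 2) (by positivity)
  refine ⟨max (max X1 X2) (max X3 3), fun X hX j l hj1 hj2 hl2 hlκ Z S hS => ?_⟩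
  simp only [max_le_iff] at hX
  obtain ⟨⟨g1, g2⟩, g3, g6⟩ := hX
  have hX1' : (1 : ℝ) ≤ X := by exact_mod_cast (by omega : 1 ≤ X)
  have hXpos : (0 : ℝ) < X := by linarith
  have hlog : 1 ≤ Real.log X := by
    rw [Real.le_log_iff_exp_le hXpos]
    have : Real.exp 1 < 2.7182818286 := Real.exp_one_lt_d9
    have : (3 : ℝ) ≤ X := by exact_mod_cast g6
    linarith
  set W : ℕ := b ^ l with hW
  have hW4 : 4 ≤ W := by
    calc 4 = 2 ^ 2 := by norm_num
      _ ≤ b ^ 2 := Nat.pow_le_pow_left hb 2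
      _ ≤ b ^ l := Nat.pow_le_pow_right (by omega) hl2
  have hWle : (W : ℝ) ≤ (X : ℝ) ^ (σ' / 2) := by
    have e1 : (W : ℝ) = Real.exp (l * Real.log b) := by
      rw [hW]; push_cast
      rw [← Real.exp_log (show (0 : ℝ) < b by linarith), ← Real.exp_nat_mul,
        Real.exp_log (show (0 : ℝ) < b by linarith)]
    rw [e1, Real.rpow_def_of_pos hXpos]
    apply Real.exp_le_exp.2
    calc (l : ℝ) * Real.log b ≤ (κ * Real.log X) * Real.log b :=
          mul_le_mul_of_nonneg_right hlκ hlb.le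
      _ = (κ * Real.log b) * Real.log X := by ring
      _ = _ := by rw [hκ2]; ring
  have hWpos : (0 : ℝ) < W := by exact_mod_cast (by omega : 0 < W)
  set p : ℕ → Prop := Hit b f α β j l Z with hp
  set D : ℝ := C * (X : ℝ) ^ (1 - σ') with hDdef
  have hD0 : 0 ≤ D := by positivity
  -- one block
  have hblock : ∀ P M : ℕ, P + M ≤ X → Nat.sqrt X + 1 ≤ P → M ≤ P →
      (((range M).filter (fun m => p (P + 1 + m))).card : ℝ) ≤ Z.card * (32 * M / W + 4 * D) := by
    intro P M hPM hsq hMP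
    have hP1 : 1 ≤ P := by omega
    have hPX : P ≤ X := by omega
    have hXP : X ≤ P ^ 2 := by
      have := Nat.lt_succ_sqrt' X
      calc X ≤ (Nat.sqrt X + 1) ^ 2 := this.le
        _ ≤ P ^ 2 := Nat.pow_le_pow_left hsq 2
    have hP1R : (1 : ℝ) ≤ P := by exact_mod_cast hP1
    have hPpos : (0 : ℝ) < P := by linarith
    have hbi : (b : ℝ) ^ j = Real.exp (j * Real.log b) := by
      rw [← Real.exp_log (show (0 : ℝ) < b by linarith), ← Real.exp_nat_mul,
        Real.exp_log (show (0 : ℝ) < b by linarith)]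
    have hα0 : 0 < |α| := abs_pos.2 hα
    have hD : ∀ h : ℤ, h ≠ 0 → |h| < W → ‖∑ m ∈ range M,
        ee (h * ((α * f 0 ((P + 1 + m : ℕ) : ℝ) + β) * (b : ℝ) ^ j))‖ ≤ D := by
      intro h h0 hhW
      have e1 : ∀ m : ℕ, (h : ℝ) * ((α * f 0 ((P + 1 + m : ℕ) : ℝ) + β) * (b : ℝ) ^ j) =
          (h * α * (b : ℝ) ^ j) * f 0 ((P : ℝ) + 1 + m) + h * β * (b : ℝ) ^ j := by
        intro m; push_cast; ring
      simp only [e1]
      rw [ee_norm_const (range M) (fun m : ℕ => (h * α * (b : ℝ) ^ j) * f 0 ((P : ℝ) + 1 + m))]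
      have hh1 : (1 : ℝ) ≤ |(h : ℝ)| := by exact_mod_cast Int.one_le_abs h0
      have hhWR : |(h : ℝ)| ≤ W := by exact_mod_cast hhW.le
      have eabs : |(h : ℝ) * α * (b : ℝ) ^ j| = |(h : ℝ)| * |α| * (b : ℝ) ^ j := by
        rw [abs_mul, abs_mul, abs_of_pos (show (0 : ℝ) < (b : ℝ) ^ j by positivity)]
      refine (hsum P M _ hP1 hMP ?_ ?_).trans ?_
      · -- lower bound of the frequency
        refine (hPγ P X hP1 hPX hXP).trans ?_
        have h3 := hX1 X g1
        have h4 : (X : ℝ) ^ γ ≤ |α| * (X : ℝ) ^ (g0 * Real.log b) := by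
          rw [inv_mul_le_iff₀ hα0] at h3
          exact h3
        refine h4.trans ?_
        rw [eabs]
        have h5 : (X : ℝ) ^ (g0 * Real.log b) ≤ (b : ℝ) ^ j := by
          rw [hbi, Real.rpow_def_of_pos hXpos]
          apply Real.exp_le_exp.2
          calc Real.log X * (g0 * Real.log b) = (g0 * Real.log X) * Real.log b := by ring
            _ ≤ j * Real.log b := mul_le_mul_of_nonneg_right hj1 hlb.le
        calc |α| * (X : ℝ) ^ (g0 * Real.log b) ≤ |α| * (b : ℝ) ^ j :=
              mul_le_mul_of_nonneg_left h5 hα0.le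
          _ = 1 * |α| * (b : ℝ) ^ j := by ring
          _ ≤ _ := by gcongr
      · -- upper bound of the frequency
        rw [eabs]
        have h5 : (b : ℝ) ^ j ≤ (X : ℝ) ^ (A * Real.log b) := by
          rw [hbi, Real.rpow_def_of_pos hXpos]
          apply Real.exp_le_exp.2
          calc (j : ℝ) * Real.log b ≤ (A * Real.log X) * Real.log b :=
                mul_le_mul_of_nonneg_right hj2 hlb.le
            _ = _ := by ring
        have h7 : (W : ℝ) ≤ X := by
          calc (W : ℝ) ≤ (X : ℝ) ^ (σ' / 2) := hWle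
            _ ≤ (X : ℝ) ^ (1 : ℝ) := Real.rpow_le_rpow_of_exponent_le hX1' (by
                have : σ' ≤ 1 / 2 := min_le_right _ _
                linarith)
            _ = X := Real.rpow_one _
        have h8 := hX2 X g2
        calc |(h : ℝ)| * |α| * (b : ℝ) ^ j
            ≤ X * |α| * (X : ℝ) ^ (A * Real.log b) := by
              gcongr
              exact hhWR.trans h7
          _ = |α| * (X : ℝ) ^ (A2 - 1) := by
              have : (X : ℝ) ^ (A2 - 1) = X * (X : ℝ) ^ (A * Real.log b) := by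
                rw [hA2]
                nth_rewrite 2 [← Real.rpow_one (X : ℝ)]
                rw [← Real.rpow_add hXpos]
                congr 1; ring
              rw [this]; ring
          _ ≤ (X : ℝ) ^ A2 := h8
          _ ≤ ((P : ℝ) ^ 2) ^ A2 := by
              apply Real.rpow_le_rpow hXpos.le _ hA2pos.le
              exact_mod_cast hXP
          _ = (P : ℝ) ^ (2 * A2) := by
              rw [← Real.rpow_natCast (P : ℝ) 2, ← Real.rpow_mul hPpos.le]
              norm_num
      · apply mul_le_mul_of_nonneg_left _ (by linarith)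
        calc (P : ℝ) ^ (1 - σ) ≤ (P : ℝ) ^ (1 - σ') :=
              Real.rpow_le_rpow_of_exponent_le hP1R (by
                have : σ' ≤ σ := min_le_left _ _
                linarith)
          _ ≤ (X : ℝ) ^ (1 - σ') := by
              apply Real.rpow_le_rpow hPpos.le (by exact_mod_cast hPX)
              have : σ' ≤ 1 / 2 := min_le_right _ _
              linarith
    have hcw := count_words (range M) (fun m => (α * f 0 ((P + 1 + m : ℕ) : ℝ) + β) * (b : ℝ) ^ j)
      W hW4 D hD0 hD Z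
    rw [card_range] at hcw
    have e0 : ((range M).filter (fun m => p (P + 1 + m))).card = ((range M).filter (fun m =>
        ⌊Int.fract ((α * f 0 ((P + 1 + m : ℕ) : ℝ) + β) * (b : ℝ) ^ j) * (W : ℝ)⌋₊ ∈ Z)).card := by
      congr 1
      apply filter_congr
      intro m _
      exact Iff.rfl
    rw [e0]
    exact hcw
  -- dyadic sum
  have hXj : X ≤ 2 ^ (Nat.log 2 X + 1) * (Nat.sqrt X + 1) := by
    have h1 : X < 2 ^ (Nat.log 2 X + 1) := Nat.lt_pow_succ_log_self (by norm_num) X
    calc X ≤ 2 ^ (Nat.log 2 X + 1) * 1 := by omega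
      _ ≤ _ := Nat.mul_le_mul_left _ (by omega)
  have hZ0 : (0 : ℝ) ≤ Z.card := by positivity
  have hfin : (((Icc 1 X).filter p).card : ℝ) ≤ ((Nat.sqrt X + 1 : ℕ) : ℝ) +
      Z.card * (32 * X / W + ((Nat.log 2 X + 1 : ℕ) : ℝ) * (4 * D)) := by
    have key : ∀ j Y : ℕ, Y ≤ X → Y ≤ 2 ^ j * (Nat.sqrt X + 1) →
        (((Icc 1 Y).filter p).card : ℝ) ≤ ((Nat.sqrt X + 1 : ℕ) : ℝ) +
          Z.card * (32 * Y / W + j * (4 * D)) := by
      intro j
      induction j with
      | zero =>
        intro Y _ hY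
        have h1 : ((Icc 1 Y).filter p).card ≤ Nat.sqrt X + 1 := by
          refine (card_filter_le _ _).trans ?_
          rw [Nat.card_Icc]; simp at hY; omega
        have h2 : (((Icc 1 Y).filter p).card : ℝ) ≤ ((Nat.sqrt X + 1 : ℕ) : ℝ) := by
          exact_mod_cast h1
        have h3 : 0 ≤ (Z.card : ℝ) * (32 * Y / W + (0 : ℕ) * (4 * D)) := by positivity
        linarith
      | succ j ih =>
        intro Y hY0 hY
        set Z' := Nat.sqrt X + 1 with hZdef
        rcases le_or_gt Y Z' with hle | hgt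
        · have h1 : ((Icc 1 Y).filter p).card ≤ Z' := by
            refine (card_filter_le _ _).trans ?_
            rw [Nat.card_Icc]; omega
          have h2 : (((Icc 1 Y).filter p).card : ℝ) ≤ Z' := by exact_mod_cast h1
          have : 0 ≤ (Z.card : ℝ) * (32 * Y / W + ((j + 1 : ℕ) : ℝ) * (4 * D)) := by positivity
          linarith
        · set P := max Z' ((Y + 1) / 2) with hP
          have hP1 : Z' ≤ P := le_max_left _ _
          have hP2 : (Y + 1) / 2 ≤ P := le_max_right _ _
          have hPY : P ≤ Y := by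
            rw [hP]; apply max_le hgt.le; omega
          have hP3 : P ≤ 2 ^ j * Z' := by
            rw [hP]
            apply max_le
            · exact Nat.le_mul_of_pos_left _ (by positivity)
            · rw [pow_succ] at hY
              have : 2 ^ j * 2 * Z' = 2 * (2 ^ j * Z') := by ring
              omega
          have e1 : (Icc 1 Y).filter p ⊆ (Icc 1 P).filter p ∪
              ((range (Y - P)).filter (fun m => p (P + 1 + m))).image (fun m => P + 1 + m) := by
            intro n hn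
            rw [mem_filter, mem_Icc] at hn
            rw [mem_union]
            rcases le_or_gt n P with hnP | hnP
            · left; rw [mem_filter, mem_Icc]; exact ⟨⟨hn.1.1, hnP⟩, hn.2⟩
            · right
              rw [mem_image]
              refine ⟨n - P - 1, ?_, by omega⟩
              rw [mem_filter, mem_range]
              refine ⟨by omega, ?_⟩
              have : P + 1 + (n - P - 1) = n := by omega
              rw [this]; exact hn.2
          have h2 := ih P (by omega) hP3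
          have h3 := hblock P (Y - P) (by omega) hP1 (by omega)
          have h4 : (((Icc 1 Y).filter p).card : ℝ) ≤ ((Icc 1 P).filter p).card +
              ((range (Y - P)).filter (fun m => p (P + 1 + m))).card := by
            exact_mod_cast (card_le_card e1).trans ((card_union_le _ _).trans
              (Nat.add_le_add_left card_image_le _))
          have e5 : ((Y - P : ℕ) : ℝ) = (Y : ℝ) - P := by
            rw [Nat.cast_sub hPY]
          rw [e5] at h3
          push_cast at h2 ⊢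
          have e6 : (Z.card : ℝ) * (32 * P / W + j * (4 * D)) + Z.card * (32 * (Y - P) / W + 4 * D)
              = Z.card * (32 * Y / W + (j + 1) * (4 * D)) := by ring
          linarith
    exact key (Nat.log 2 X + 1) X le_rfl hXj
  have hScard : (S.card : ℝ) ≤ ((Icc 1 X).filter p).card := by
    have : S ⊆ (Icc 1 X).filter p := by
      intro n hn
      obtain ⟨h1, h2, h3⟩ := hS n hn
      rw [mem_filter, mem_Icc]
      exact ⟨⟨h1, h2⟩, h3⟩
    exact_mod_cast card_le_card this
  have hsqrt : ((Nat.sqrt X + 1 : ℕ) : ℝ) ≤ 2 * (X : ℝ) ^ (1 / 2 : ℝ) := by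
    push_cast
    have h1 : (Nat.sqrt X : ℝ) ≤ (X : ℝ) ^ (1 / 2 : ℝ) := by
      rw [← Real.sqrt_eq_rpow]; exact Real.nat_sqrt_le_real_sqrt
    have h2 : (1 : ℝ) ≤ (X : ℝ) ^ (1 / 2 : ℝ) := Real.one_le_rpow hX1' (by norm_num)
    linarith
  have hlog2 : ((Nat.log 2 X + 1 : ℕ) : ℝ) ≤ 2 * (Real.log X + 1) := by
    push_cast
    have h1 : (Nat.log 2 X : ℝ) ≤ Real.log X / Real.log 2 := by
      have := Real.natLog_le_logb X 2
      simpa [Real.logb] using this
    have h2 : Real.log X / Real.log 2 ≤ 2 * Real.log X := by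
      rw [div_le_iff₀ (Real.log_pos (by norm_num))]
      have := Real.log_two_gt_d9
      nlinarith
    linarith
  have h7 := hX3 X g3
  -- the error term
  have h8 : ((Nat.log 2 X + 1 : ℕ) : ℝ) * (4 * D) ≤ X / W := by
    rw [le_div_iff₀ hWpos]
    have hL1 : Real.log X + 1 ≤ (Real.log X + 1) ^ 2 := by nlinarith
    have hXe : X ≤ X := le_rfl
    calc ((Nat.log 2 X + 1 : ℕ) : ℝ) * (4 * D) * W
        ≤ 2 * (Real.log X + 1) * (4 * D) * (X : ℝ) ^ (σ' / 2) := by gcongr
      _ = (8 * C * (Real.log X + 1)) * ((X : ℝ) ^ (1 - σ') * (X : ℝ) ^ (σ' / 2)) := by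
          rw [hDdef]; ring
      _ ≤ (8 * C * (Real.log X + 1) ^ 2) * ((X : ℝ) ^ (1 - σ') * (X : ℝ) ^ (σ' / 2)) := by
          apply mul_le_mul_of_nonneg_right _ (by positivity)
          exact mul_le_mul_of_nonneg_left hL1 (by positivity)
      _ ≤ (X : ℝ) ^ (σ' / 2) * ((X : ℝ) ^ (1 - σ') * (X : ℝ) ^ (σ' / 2)) :=
          mul_le_mul_of_nonneg_right h7 (by positivity)
      _ = (X : ℝ) ^ (1 : ℝ) := by
          rw [← Real.rpow_add hXpos, ← Real.rpow_add hXpos]; congr 1; ring
      _ = X := Real.rpow_one _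
  have eW : (b : ℝ) ^ l = W := by rw [hW]; push_cast; rfl
  rw [eW]
  have h9 : (Z.card : ℝ) * (32 * X / W + ((Nat.log 2 X + 1 : ℕ) : ℝ) * (4 * D)) ≤
      33 * X * Z.card / W := by
    calc (Z.card : ℝ) * (32 * X / W + ((Nat.log 2 X + 1 : ℕ) : ℝ) * (4 * D))
        ≤ Z.card * (32 * X / W + X / W) := by
          apply mul_le_mul_of_nonneg_left _ hZ0; linarith
      _ = _ := by ring
  linarith

end Pool.Agent.TH373.DR
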