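import Pool.Agent.TH373.DR2.Puis

set_option autoImplicit false

/-!
A smooth partition of unity for the digits: squares of Fejér kernels at the points `m / R`.
-/

namespace Pool.Agent.TH373.DR

open Finset Pool.Agent.Helper153.Vdc

theorem ee_zero : ee 0 = 1 := by unfold ee; simp

theorem ee_nat_mul (n : ℕ) (x : ℝ) : ee (n * x) = ee x ^ n := by
  unfold ee
  rw [← Complex.exp_nat_mul]
  congr 1
  push_cast
  ring

theorem ee_eq_one {x : ℝ} (h : ee x = 1) : ∃ m : ℤ, x = m := by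
  unfold ee at h
  rw [Complex.exp_eq_one_iff] at h
  obtain ⟨m, hm⟩ := h
  refine ⟨m, ?_⟩
  have hpi : (2 * Real.pi * Complex.I : ℂ) ≠ 0 := Complex.two_pi_I_ne_zero
  have h1 : (2 * Real.pi * Complex.I : ℂ) * (x : ℂ) = (2 * Real.pi * Complex.I : ℂ) * (m : ℂ) := by
    rw [mul_comm _ (m : ℂ), ← hm]; ring
  have h2 := mul_left_cancel₀ hpi h1
  exact_mod_cast h2

/-- orthogonality -/
theorem orth (N : ℕ) (hN : 1 ≤ N) (k : ℤ) (hk : ¬ (N : ℤ) ∣ k) :
    ∑ m ∈ range N, ee (k * ((m : ℝ) / N)) = 0 := by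
  have hN0 : (N : ℝ) ≠ 0 := by exact_mod_cast (by omega : N ≠ 0)
  have e1 : ∀ m : ℕ, ee (k * ((m : ℝ) / N)) = ee ((k : ℝ) / N) ^ m := by
    intro m
    rw [← ee_nat_mul]
    congr 1
    field_simp
  simp only [e1]
  have hne : ee ((k : ℝ) / N) ≠ 1 := by
    intro h
    obtain ⟨m, hm⟩ := ee_eq_one h
    apply hk
    refine ⟨m, ?_⟩
    rw [div_eq_iff hN0] at hm
    have : (k : ℝ) = ((N : ℤ) * m : ℤ) := by push_cast; rw [hm]; ring
    exact_mod_cast this
  rw [geom_sum_eq hne]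
  have : ee ((k : ℝ) / N) ^ N = 1 := by
    rw [← ee_nat_mul]
    have : (N : ℝ) * ((k : ℝ) / N) = k := by field_simp
    rw [this]
    exact ee_int k
  rw [this, sub_self, zero_div]

/-- geometric sums -/
theorem geom_bound (M : ℕ) (x θ : ℝ) (hθ : 0 < θ) (h : ∀ m : ℤ, θ ≤ |x - m|) :
    ‖∑ n ∈ range M, ee (n * x)‖ ≤ 2 / θ := by
  set m := round x with hm
  have h1 := h m
  have h2 : |x - m| ≤ 1 / 2 := abs_sub_round x
  have hθ2 : θ ≤ 1 / 2 := h1.trans h2
  have e1 : ∀ n : ℕ, ee (n * x) = ee (n * (x - m)) := by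
    intro n
    have : (n : ℝ) * x = n * (x - m) + ((n * m : ℤ) : ℝ) := by push_cast; ring
    rw [this, ee_add, ee_int, mul_one]
  simp only [e1]
  rcases le_or_gt 0 (x - m) with hpos | hneg
  · rw [abs_of_nonneg hpos] at h1 h2
    apply kusmin_landau M (fun n : ℕ => (n : ℝ) * (x - m)) θ hθ hθ2
    · intro n _
      push_cast
      constructor <;> linarith
    · intro n _
      push_cast
      linarith
  · rw [abs_of_neg hneg] at h1 h2
    have e2 : ∀ n : ℕ, ee (n * (x - m)) = ee (-(n * (-(x - m)))) := by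
      intro n; congr 1; ring
    simp only [e2]
    rw [norm_sum_neg M (fun n : ℕ => (n : ℝ) * (-(x - m)))]
    apply kusmin_landau M (fun n : ℕ => (n : ℝ) * (-(x - m))) θ hθ hθ2
    · intro n _
      push_cast
      constructor <;> linarith
    · intro n _
      push_cast
      linarith

/-- the square of the kernel at `m / R` -/
noncomputable def psi (R m : ℕ) (t : ℝ) : ℝ :=
  ‖∑ j ∈ range R, ee (j * (t - (m : ℝ) / R))‖ ^ 2 / (R : ℝ) ^ 2

theorem psi_nonneg (R m : ℕ) (t : ℝ) : 0 ≤ psi R m t := by unfold psi; positivity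

theorem psi_expand (R m : ℕ) (t : ℝ) : ((psi R m t : ℝ) : ℂ) =
    (1 / (R : ℂ) ^ 2) * ∑ j ∈ range R, ∑ l ∈ range R,
      ee (-((((j : ℤ) - l : ℤ) : ℝ) * ((m : ℝ) / R))) * ee ((((j : ℤ) - l : ℤ) : ℝ) * t) := by
  unfold psi
  push_cast
  rw [← Complex.mul_conj', map_sum, sum_mul_sum, div_eq_mul_one_div, mul_comm]
  congr 1
  apply sum_congr rfl
  intro j _
  apply sum_congr rfl
  intro l _
  rw [ee_mul_conj, ← ee_add]
  congr 1
  ring

theorem psi_sum (R : ℕ) (hR : 1 ≤ R) (t : ℝ) : ∑ m ∈ range R, psi R m t = 1 := by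
  have hR0 : (R : ℂ) ≠ 0 := by exact_mod_cast (by omega : R ≠ 0)
  have h : ((∑ m ∈ range R, psi R m t : ℝ) : ℂ) = 1 := by
    push_cast
    simp only [psi_expand]
    rw [← mul_sum]
    have e1 : ∑ m ∈ range R, ∑ j ∈ range R, ∑ l ∈ range R,
        ee (-((((j : ℤ) - l : ℤ) : ℝ) * ((m : ℝ) / R))) * ee ((((j : ℤ) - l : ℤ) : ℝ) * t) =
        ∑ j ∈ range R, ∑ l ∈ range R, (if j = l then (R : ℂ) else 0) := by
      rw [sum_comm]
      apply sum_congr rfl
      intro j hj
      rw [sum_comm]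
      apply sum_congr rfl
      intro l hl
      rw [← sum_mul]
      rw [mem_range] at hj hl
      split_ifs with hjl
      · subst hjl
        simp [ee_zero]
      · have e2 : ∀ m : ℕ, ee (-((((j : ℤ) - l : ℤ) : ℝ) * ((m : ℝ) / R))) =
            ee ((((l : ℤ) - j : ℤ) : ℝ) * ((m : ℝ) / R)) := by
          intro m; congr 1; push_cast; ring
        simp only [e2]
        rw [orth R hR ((l : ℤ) - j) (by
          intro hdvd
          have := Int.eq_zero_of_abs_lt_dvd hdvd (by rw [abs_lt]; omega)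
          omega), zero_mul]
    rw [e1]
    have e3 : ∀ j ∈ range R, ∑ l ∈ range R, (if j = l then (R : ℂ) else 0) = R := by
      intro j hj
      rw [sum_ite_eq, if_pos hj]
    rw [sum_congr rfl e3, sum_const, card_range, nsmul_eq_mul]
    field_simp
  exact_mod_cast h

theorem psi_tail (R m : ℕ) (t δ : ℝ) (hδ : 0 < δ)
    (h : ∀ z : ℤ, δ ≤ |t - (m : ℝ) / R - z|) : psi R m t ≤ 4 / (δ ^ 2 * (R : ℝ) ^ 2) := by
  unfold psi
  have h1 := geom_bound R (t - (m : ℝ) / R) δ hδ h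
  have h2 : ‖∑ j ∈ range R, ee (j * (t - (m : ℝ) / R))‖ ^ 2 ≤ (2 / δ) ^ 2 :=
    pow_le_pow_left₀ (norm_nonneg _) h1 2
  calc _ ≤ (2 / δ) ^ 2 / (R : ℝ) ^ 2 := div_le_div_of_nonneg_right h2 (by positivity)
    _ = _ := by
      rw [div_pow, div_div]; norm_num

/-- the first digit of `t` modulo one in base `b` -/
noncomputable def dgt (b : ℕ) (t : ℝ) : ℤ := ⌊t * b⌋ % (b : ℤ)

/-- the nodes `m / (b q)` whose first digit is `a` -/
def nodes (b q a : ℕ) : Finset ℕ := (range (b * q)).filter (fun m => m / q = a)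

theorem nodes_eq (b q a : ℕ) (hq : 1 ≤ q) (ha : a < b) : nodes b q a = Ico (a * q) (a * q + q) := by
  ext m
  unfold nodes
  rw [mem_filter, mem_range, mem_Ico]
  constructor
  · rintro ⟨_, h2⟩
    subst h2
    constructor
    · exact Nat.div_mul_le_self m q
    · have := Nat.lt_div_mul_add (a := m) (show 0 < q by omega)
      exact this
  · rintro ⟨h1, h2⟩
    constructor
    · calc m < a * q + q := h2
        _ = (a + 1) * q := by ring
        _ ≤ b * q := Nat.mul_le_mul_right q ha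
    · apply Nat.div_eq_of_lt_le h1
      calc m < a * q + q := h2
        _ = (a + 1) * q := by ring

/-- the smooth indicator function of the digit `a` -/
noncomputable def phi (b q a : ℕ) (t : ℝ) : ℝ := ∑ m ∈ nodes b q a, psi (b * q) m t

theorem phi_nonneg (b q a : ℕ) (t : ℝ) : 0 ≤ phi b q a t :=
  sum_nonneg fun _ _ => psi_nonneg _ _ _

theorem phi_le_one (b q a : ℕ) (hb : 1 ≤ b) (hq : 1 ≤ q) (t : ℝ) : phi b q a t ≤ 1 := by
  rw [← psi_sum (b * q) (Nat.mul_pos hb hq) t]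
  exact sum_le_sum_of_subset_of_nonneg (filter_subset _ _) fun _ _ _ => psi_nonneg _ _ _

/-- the tail estimate -/
theorem node_far (b q : ℕ) (hb : 1 ≤ b) (hq : 1 ≤ q) (t δ : ℝ)
    (hfar : ∀ z : ℤ, δ * b < |t * b - z|) (m : ℕ) (hm : m < b * q) (hne : ((m / q : ℕ) : ℤ) ≠ dgt b t)
    (z : ℤ) : δ ≤ |t - (m : ℝ) / ((b * q : ℕ) : ℝ) - z| := by
  by_contra hcon
  push Not at hcon
  have hb0 : (0 : ℝ) < b := by exact_mod_cast hb
  have hq0 : (0 : ℝ) < q := by exact_mod_cast hq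
  set s : ℝ := (m : ℝ) / ((b * q : ℕ) : ℝ) + z with hs
  have hsb : s * b = (m : ℝ) / q + ((z * b : ℤ) : ℝ) := by
    rw [hs]; push_cast; field_simp
  have hfs : ⌊s * b⌋ = ((m / q : ℕ) : ℤ) + z * b := by
    rw [hsb, Int.floor_add_intCast]
    congr 1
    have : ((m : ℝ) / q) = ((m : ℤ) : ℝ) / (q : ℝ) := by push_cast; rfl
    rw [← Nat.floor_div_eq_div (K := ℝ) m q, Int.natCast_floor_eq_floor (by positivity)]
  have hclose : |t * b - s * b| < δ * b := by
    rw [← sub_mul, abs_mul, abs_of_pos hb0]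
    apply mul_lt_mul_of_pos_right _ hb0
    rw [hs]
    have : t - ((m : ℝ) / ((b * q : ℕ) : ℝ) + z) = t - (m : ℝ) / ((b * q : ℕ) : ℝ) - z := by ring
    rw [this]
    exact hcon
  have hfl : ⌊t * b⌋ = ⌊s * b⌋ := by
    rcases lt_trichotomy ⌊t * b⌋ ⌊s * b⌋ with hlt | heq | hgt
    · exfalso
      have h1 := hfar ⌊s * b⌋
      have h2 : t * b < ⌊s * b⌋ := Int.floor_lt.1 hlt
      have h3 : (⌊s * b⌋ : ℝ) ≤ s * b := Int.floor_le _
      rw [abs_lt] at hclose
      rw [abs_of_neg (by linarith)] at h1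
      linarith [hclose.1]
    · exact heq
    · exfalso
      have h1 := hfar ⌊t * b⌋
      have h2 : s * b < ⌊t * b⌋ := Int.floor_lt.1 hgt
      have h3 : (⌊t * b⌋ : ℝ) ≤ t * b := Int.floor_le _
      rw [abs_lt] at hclose
      rw [abs_of_nonneg (by linarith)] at h1
      linarith [hclose.2]
  apply hne
  unfold dgt
  rw [hfl, hfs, Int.add_mul_emod_self_right]
  have hlt : m / q < b := Nat.div_lt_of_lt_mul (by rw [mul_comm]; exact hm)
  rw [Int.emod_eq_of_lt (by positivity) (by exact_mod_cast hlt)]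

/-- **Approximation of the digit indicators.** -/
theorem phi_approx (b q a : ℕ) (hb : 1 ≤ b) (hq : 1 ≤ q) (t δ : ℝ) (hδ : 0 < δ)
    (hfar : ∀ z : ℤ, δ * b < |t * b - z|) :
    |phi b q a t - (if dgt b t = (a : ℤ) then 1 else 0)| ≤ 4 / (δ ^ 2 * ((b * q : ℕ) : ℝ)) := by
  have hR : 1 ≤ b * q := Nat.mul_pos hb hq
  have hR0 : (0 : ℝ) < ((b * q : ℕ) : ℝ) := by exact_mod_cast hR
  set R := b * q with hRdef
  have htail : ∀ T : Finset ℕ, T ⊆ range R → (∀ m ∈ T, ((m / q : ℕ) : ℤ) ≠ dgt b t) →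
      ∑ m ∈ T, psi R m t ≤ 4 / (δ ^ 2 * (R : ℝ)) := by
    intro T hT1 hT2
    calc ∑ m ∈ T, psi R m t ≤ ∑ _m ∈ T, 4 / (δ ^ 2 * (R : ℝ) ^ 2) := by
          apply sum_le_sum
          intro m hm
          exact psi_tail R m t δ hδ (fun z => node_far b q hb hq t δ hfar m
            (mem_range.1 (hT1 hm)) (hT2 m hm) z)
      _ = T.card * (4 / (δ ^ 2 * (R : ℝ) ^ 2)) := by rw [sum_const, nsmul_eq_mul]
      _ ≤ R * (4 / (δ ^ 2 * (R : ℝ) ^ 2)) := by
          apply mul_le_mul_of_nonneg_right _ (by positivity)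
          have := card_le_card hT1
          rw [card_range] at this
          exact_mod_cast this
      _ = _ := by field_simp
  have hsub : nodes b q a ⊆ range R := filter_subset _ _
  split_ifs with h
  · -- the digit is `a`
    have h1 : phi b q a t + ∑ m ∈ range R \ nodes b q a, psi R m t = 1 := by
      rw [← psi_sum R hR t]
      unfold phi
      rw [add_comm]
      exact sum_sdiff hsub
    have h2 := htail (range R \ nodes b q a) sdiff_subset (fun m hm => by
      rw [mem_sdiff] at hm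
      intro heq
      apply hm.2
      unfold nodes
      rw [mem_filter]
      refine ⟨hm.1, ?_⟩
      rw [h] at heq
      exact_mod_cast heq)
    have h3 : 0 ≤ ∑ m ∈ range R \ nodes b q a, psi R m t := sum_nonneg fun _ _ => psi_nonneg _ _ _
    rw [abs_le]
    constructor <;> linarith
  · have h2 := htail (nodes b q a) hsub (fun m hm => by
      unfold nodes at hm
      rw [mem_filter] at hm
      rw [hm.2]
      exact fun heq => h heq.symm)
    have h3 := phi_nonneg b q a t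
    rw [sub_zero, abs_of_nonneg h3]
    exact h2

/-- the coefficients -/
noncomputable def cf (b q a : ℕ) (h : ℤ) : ℂ :=
  (1 / ((b * q : ℕ) : ℂ) ^ 2) * ∑ m ∈ nodes b q a, ee (-((h : ℝ) * ((m : ℝ) / ((b * q : ℕ) : ℝ))))

theorem phi_expand (b q a : ℕ) (t : ℝ) : ((phi b q a t : ℝ) : ℂ) =
    ∑ p ∈ range (b * q) ×ˢ range (b * q),
      cf b q a ((p.1 : ℤ) - p.2) * ee ((((p.1 : ℤ) - p.2 : ℤ) : ℝ) * t) := by
  unfold phi
  push_cast
  simp only [psi_expand]
  rw [sum_product, ← mul_sum]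
  rw [sum_comm]
  rw [mul_sum]
  apply sum_congr rfl
  intro j _
  rw [sum_comm, mul_sum]
  apply sum_congr rfl
  intro l _
  unfold cf
  rw [← sum_mul]
  push_cast
  ring

theorem cf_bound (b q a : ℕ) (hb : 1 ≤ b) (hq : 1 ≤ q) (ha : a < b) (h : ℤ) (h0 : h ≠ 0)
    (hR : |h| < ((b * q : ℕ) : ℤ)) :
    ‖cf b q a h‖ ≤ (2 / ((b * q : ℕ) : ℝ)) * (1 / (h.natAbs : ℝ) + 1 / (((b * q : ℕ) : ℝ) - h.natAbs)) := by
  have hR1 : 1 ≤ b * q := Nat.mul_pos hb hq
  set R := b * q with hRdef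
  have hR0 : (0 : ℝ) < (R : ℝ) := by exact_mod_cast hR1
  have hn1 : 1 ≤ h.natAbs := by omega
  have hnR : h.natAbs < R := by
    have : (h.natAbs : ℤ) < R := by rw [Int.natCast_natAbs]; exact hR
    exact_mod_cast this
  set n := h.natAbs with hn
  have hn0 : (0 : ℝ) < n := by exact_mod_cast hn1
  have hnR' : (0 : ℝ) < (R : ℝ) - n := by
    have : (n : ℝ) < R := by exact_mod_cast hnR
    linarith
  -- the distance to the integers
  set θ : ℝ := min (n : ℝ) (R - n) / R with hθ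
  have hθ0 : 0 < θ := div_pos (lt_min hn0 hnR') hR0
  have hdist : ∀ z : ℤ, θ ≤ |-((h : ℝ) / R) - z| := by
    intro z
    have e1 : -((h : ℝ) / R) - z = -(((h + z * R : ℤ) : ℝ) / R) := by
      push_cast; field_simp; ring
    rw [e1, abs_neg, abs_div, abs_of_pos hR0, hθ]
    apply div_le_div_of_nonneg_right _ hR0.le
    have e2 : |((h + z * R : ℤ) : ℝ)| = ((|h + z * R| : ℤ) : ℝ) := by push_cast; rfl
    rw [e2]
    rcases eq_or_ne z 0 with rfl | hz
    · refine (min_le_left _ _).trans ?_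
      have : (n : ℤ) = |h + 0 * R| := by rw [zero_mul, add_zero, hn, Int.natCast_natAbs]
      have h3 : ((n : ℤ) : ℝ) = ((|h + 0 * R| : ℤ) : ℝ) := by rw [this]
      rw [← h3]; push_cast; rfl
    · refine (min_le_right _ _).trans ?_
      have h3 : (R : ℤ) - n ≤ |h + z * R| := by
        have h4 : (n : ℤ) = |h| := by rw [hn, Int.natCast_natAbs]
        rw [h4]
        have h5 : (R : ℤ) ≤ |z * R| := by
          rw [abs_mul]
          have h6 : (1 : ℤ) ≤ |z| := Int.one_le_abs hz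
          have h7 : |(R : ℤ)| = R := abs_of_nonneg (by positivity)
          rw [h7]
          have : (0 : ℤ) ≤ R := by positivity
          nlinarith
        have h6 : |z * R| ≤ |h + z * R| + |h| := by
          have := abs_sub (h + z * R) h
          simpa using this
        linarith
      have h4 : (((R : ℤ) - n : ℤ) : ℝ) ≤ ((|h + z * R| : ℤ) : ℝ) := by exact_mod_cast h3
      push_cast at h4 ⊢
      exact h4
  -- the sum over the nodes
  have hsum : ‖∑ m ∈ nodes b q a, ee (-((h : ℝ) * ((m : ℝ) / (R : ℝ))))‖ ≤ 2 / θ := by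
    rw [nodes_eq b q a hq ha, sum_Ico_eq_sum_range]
    have e1 : a * q + q - a * q = q := by omega
    rw [e1]
    have e2 : ∀ u : ℕ, ee (-((h : ℝ) * (((a * q + u : ℕ) : ℝ) / (R : ℝ)))) =
        ee (-((h : ℝ) * (((a * q : ℕ) : ℝ) / (R : ℝ)))) * ee (u * (-((h : ℝ) / R))) := by
      intro u
      rw [← ee_add]
      congr 1
      push_cast
      ring
    simp only [e2]
    rw [← mul_sum, norm_mul, ee_norm, one_mul]
    exact geom_bound q (-((h : ℝ) / R)) θ hθ0 hdist
  unfold cf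
  rw [norm_mul]
  have e3 : ‖(1 / (R : ℂ) ^ 2)‖ = 1 / (R : ℝ) ^ 2 := by
    rw [norm_div, norm_one, norm_pow, Complex.norm_natCast]
  rw [← hRdef, e3]
  calc 1 / (R : ℝ) ^ 2 * ‖∑ m ∈ nodes b q a, ee (-((h : ℝ) * ((m : ℝ) / (R : ℝ))))‖
      ≤ 1 / (R : ℝ) ^ 2 * (2 / θ) := mul_le_mul_of_nonneg_left hsum (by positivity)
    _ = 2 / R * (1 / min (n : ℝ) (R - n)) := by
        rw [hθ]
        have : min (n : ℝ) (R - n) ≠ 0 := (lt_min hn0 hnR').ne'
        field_simp
    _ ≤ _ := by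
        apply mul_le_mul_of_nonneg_left _ (by positivity)
        rcases min_cases (n : ℝ) (R - n) with ⟨h1, _⟩ | ⟨h1, _⟩ <;> rw [h1]
        · have : 0 ≤ 1 / ((R : ℝ) - n) := by positivity
          linarith
        · have : 0 ≤ 1 / (n : ℝ) := by positivity
          linarith

theorem cf_zero_bound (b q a : ℕ) (hb : 1 ≤ b) (hq : 1 ≤ q) (ha : a < b) :
    ‖cf b q a 0‖ ≤ 1 / ((b * q : ℕ) : ℝ) := by
  have hR1 : 1 ≤ b * q := Nat.mul_pos hb hq
  have hR0 : (0 : ℝ) < ((b * q : ℕ) : ℝ) := by exact_mod_cast hR1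
  unfold cf
  rw [norm_mul, norm_div, norm_one, norm_pow, Complex.norm_natCast]
  have h1 : ‖∑ m ∈ nodes b q a, ee (-(((0 : ℤ) : ℝ) * ((m : ℝ) / ((b * q : ℕ) : ℝ))))‖ ≤ ((b * q : ℕ) : ℝ) := by
    refine (norm_sum_le _ _).trans ?_
    simp only [ee_norm, sum_const, nsmul_eq_mul, mul_one]
    have : (nodes b q a).card ≤ b * q := by
      unfold nodes
      exact (card_filter_le _ _).trans (by rw [card_range])
    exact_mod_cast this
  calc 1 / ((b * q : ℕ) : ℝ) ^ 2 * ‖∑ m ∈ nodes b q a,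
        ee (-(((0 : ℤ) : ℝ) * ((m : ℝ) / ((b * q : ℕ) : ℝ))))‖
      ≤ 1 / ((b * q : ℕ) : ℝ) ^ 2 * ((b * q : ℕ) : ℝ) := mul_le_mul_of_nonneg_left h1 (by positivity)
    _ = _ := by field_simp

/-- **The sum of the absolute values of the coefficients.** -/
theorem cf_l1 (b q a : ℕ) (hb : 1 ≤ b) (hq : 1 ≤ q) (ha : a < b) :
    ∑ p ∈ range (b * q) ×ˢ range (b * q), ‖cf b q a ((p.1 : ℤ) - p.2)‖ ≤
      9 + 8 * Real.log ((b * q : ℕ) : ℝ) := by
  have hR1 : 1 ≤ b * q := Nat.mul_pos hb hq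
  set R := b * q with hRdef
  have hR0 : (0 : ℝ) < (R : ℝ) := by exact_mod_cast hR1
  have hRR : (1 : ℝ) ≤ R := by exact_mod_cast hR1
  set g : ℕ → ℝ := fun n => if n = 0 then 1 / (R : ℝ) else
    (2 / (R : ℝ)) * (1 / (n : ℝ) + |1 / ((R : ℝ) - n)|) with hg
  have hg0 : ∀ n, 0 ≤ g n := by
    intro n
    simp only [hg]
    split_ifs <;> positivity
  rw [sum_product]
  have hrow : ∀ j ∈ range R, ∑ l ∈ range R, ‖cf b q a ((j : ℤ) - l)‖ ≤
      9 / R + 8 / R * Real.log R := by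
    intro j hj
    rw [mem_range] at hj
    have h1 : ∑ l ∈ range R, ‖cf b q a ((j : ℤ) - l)‖ ≤ ∑ l ∈ range R, g ((j - l) + (l - j)) := by
      apply sum_le_sum
      intro l hl
      rw [mem_range] at hl
      rcases eq_or_ne j l with rfl | hjl
      · have e : j - j + (j - j) = 0 := by omega
        rw [e]
        simp only [hg, if_true, sub_self]
        exact cf_zero_bound b q a hb hq ha
      · have hne : (j : ℤ) - l ≠ 0 := by omega
        have hlt : |(j : ℤ) - l| < ((b * q : ℕ) : ℤ) := by rw [← hRdef, abs_lt]; omega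
        have h2 := cf_bound b q a hb hq ha ((j : ℤ) - l) hne hlt
        have e : ((j : ℤ) - l).natAbs = (j - l) + (l - j) := by omega
        rw [e, ← hRdef] at h2
        have hn0 : (j - l) + (l - j) ≠ 0 := by omega
        simp only [hg, hn0, if_false]
        refine h2.trans ?_
        apply mul_le_mul_of_nonneg_left _ (by positivity)
        have := le_abs_self (1 / ((R : ℝ) - ((j - l) + (l - j) : ℕ)))
        linarith
    have h2 := row_le g hg0 R j hj
    refine h1.trans (h2.trans ?_)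
    have e0 : g 0 = 1 / R := by simp [hg]
    have h3 : ∑ h ∈ Ico 1 R, g h ≤ (2 / R) * (2 * (1 + Real.log R)) := by
      have e1 : ∀ n ∈ Ico 1 R, g n = (2 / (R : ℝ)) * (1 / (n : ℝ) + 1 / (((R - n : ℕ)) : ℝ)) := by
        intro n hn
        rw [mem_Ico] at hn
        have hn0 : n ≠ 0 := by omega
        simp only [hg, hn0, if_false]
        rw [Nat.cast_sub hn.2.le, abs_of_nonneg]
        have : (n : ℝ) < R := by exact_mod_cast hn.2
        have : 0 < (R : ℝ) - n := by linarith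
        positivity
      rw [sum_congr rfl e1, ← mul_sum, sum_add_distrib]
      apply mul_le_mul_of_nonneg_left _ (by positivity)
      have h4 := sum_inv_le (H := R) (N := R) le_rfl
      have h5 : ∑ n ∈ Ico 1 R, 1 / (((R - n : ℕ)) : ℝ) = ∑ n ∈ Ico 1 R, 1 / (n : ℝ) := by
        have := Finset.sum_Ico_reflect (fun n : ℕ => 1 / (n : ℝ)) 1 (show R ≤ R - 1 + 1 by omega)
        have e6 : R - 1 + 1 - R = 0 := by omega
        have e7 : R - 1 + 1 - 1 = R - 1 := by omega
        rw [e6, e7] at this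
        have e8 : ∑ n ∈ Ico 1 R, 1 / (((R - n : ℕ)) : ℝ) = ∑ n ∈ Ico 1 R, 1 / (((R - n : ℕ)) : ℝ) := rfl
        refine sum_bij (fun n _ => R - n) ?_ ?_ ?_ ?_
        · intro n hn; rw [mem_Ico] at hn ⊢; omega
        · intro n hn n' hn' h; rw [mem_Ico] at hn hn'; omega
        · intro n hn; rw [mem_Ico] at hn; exact ⟨R - n, by rw [mem_Ico]; omega, by omega⟩
        · intro n _; rfl
      rw [h5]
      linarith
    rw [e0]
    have hlog : 0 ≤ Real.log R := Real.log_nonneg hRR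
    calc 1 / (R : ℝ) + 2 * ∑ h ∈ Ico 1 R, g h ≤ 1 / R + 2 * ((2 / R) * (2 * (1 + Real.log R))) := by
          linarith
      _ = 9 / R + 8 / R * Real.log R := by ring
  calc ∑ j ∈ range R, ∑ l ∈ range R, ‖cf b q a ((j : ℤ) - l)‖
      ≤ ∑ _j ∈ range R, (9 / (R : ℝ) + 8 / R * Real.log R) := sum_le_sum hrow
    _ = R * (9 / (R : ℝ) + 8 / R * Real.log R) := by rw [sum_const, card_range, nsmul_eq_mul]
    _ = _ := by field_simp

end Pool.Agent.TH373.DR
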