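import Pool.Agent.TH373.DR2.Prod

set_option autoImplicit false

/-!
The digits at few places are almost independent.
-/

namespace Pool.Agent.TH373.DR

open Finset Pool.Agent.Helper153.Vdc

/-- dyadic decomposition of a sum -/
theorem dyadic_norm (X : ℕ) (z : ℕ → ℂ) (hz : ∀ n, ‖z n‖ ≤ 1) (B : ℝ) (hB : 0 ≤ B)
    (hblock : ∀ P M : ℕ, P + M ≤ X → Nat.sqrt X + 1 ≤ P → M ≤ P →
      ‖∑ m ∈ range M, z (P + 1 + m)‖ ≤ B) :
    ‖∑ n ∈ Icc 1 X, z n‖ ≤ ((Nat.sqrt X + 1 : ℕ) : ℝ) + ((Nat.log 2 X + 1 : ℕ) : ℝ) * B := by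
  have hXj : X ≤ 2 ^ (Nat.log 2 X + 1) * (Nat.sqrt X + 1) := by
    have h1 : X < 2 ^ (Nat.log 2 X + 1) := Nat.lt_pow_succ_log_self (by norm_num) X
    calc X ≤ 2 ^ (Nat.log 2 X + 1) * 1 := by omega
      _ ≤ _ := Nat.mul_le_mul_left _ (by omega)
  have htriv : ∀ Y : ℕ, ‖∑ n ∈ Icc 1 Y, z n‖ ≤ Y := by
    intro Y
    refine (norm_sum_le _ _).trans ((sum_le_sum fun n _ => hz n).trans ?_)
    rw [sum_const, Nat.card_Icc, nsmul_eq_mul, mul_one]
    simp
  have key : ∀ j Y : ℕ, Y ≤ X → Y ≤ 2 ^ j * (Nat.sqrt X + 1) →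
      ‖∑ n ∈ Icc 1 Y, z n‖ ≤ ((Nat.sqrt X + 1 : ℕ) : ℝ) + j * B := by
    intro j
    induction j with
    | zero =>
      intro Y _ hY
      have h2 : (Y : ℝ) ≤ ((Nat.sqrt X + 1 : ℕ) : ℝ) := by
        exact_mod_cast (by simpa using hY)
      have := htriv Y
      simpa using this.trans h2
    | succ j ih =>
      intro Y hY0 hY
      set Z := Nat.sqrt X + 1 with hZdef
      rcases le_or_gt Y Z with hle | hgt
      · have h2 : (Y : ℝ) ≤ Z := by exact_mod_cast hle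
        have : (0 : ℝ) ≤ ((j + 1 : ℕ) : ℝ) * B := by positivity
        have := htriv Y
        linarith
      · set P := max Z ((Y + 1) / 2) with hP
        have hP1 : Z ≤ P := le_max_left _ _
        have hP2 : (Y + 1) / 2 ≤ P := le_max_right _ _
        have hPY : P ≤ Y := by
          rw [hP]; apply max_le hgt.le; omega
        have hP3 : P ≤ 2 ^ j * Z := by
          rw [hP]
          apply max_le
          · exact Nat.le_mul_of_pos_left _ (by positivity)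
          · rw [pow_succ] at hY
            have : 2 ^ j * 2 * Z = 2 * (2 ^ j * Z) := by ring
            omega
        have e1 : ∑ n ∈ Icc 1 Y, z n = ∑ n ∈ Icc 1 P, z n + ∑ m ∈ range (Y - P), z (P + 1 + m) := by
          have h1 : Icc 1 Y = Icc 1 P ∪ Ico (P + 1) (Y + 1) := by
            ext n; simp only [mem_Icc, mem_union, mem_Ico]; omega
          rw [h1, sum_union (by
            rw [disjoint_left]; intro n hn hn'; rw [mem_Icc] at hn; rw [mem_Ico] at hn'; omega)]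
          congr 1
          rw [sum_Ico_eq_sum_range]
          have : Y + 1 - (P + 1) = Y - P := by omega
          rw [this]
        have h2 := ih P (by omega) hP3
        have h3 := hblock P (Y - P) (by omega) hP1 (by omega)
        rw [e1]
        have h4 := norm_add_le (∑ n ∈ Icc 1 P, z n) (∑ m ∈ range (Y - P), z (P + 1 + m))
        push_cast at h2 ⊢
        linarith
  exact key (Nat.log 2 X + 1) X le_rfl hXj

/-- **Exponential sums over `n ≤ X`.** -/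
theorem expsum_all {θ : ℝ} {k0 : ℕ} {s : ℝ} {f : ℕ → ℝ → ℝ} (hf : Reg θ k0 s f)
    (α β : ℝ) (hα : α ≠ 0) (γ1 A : ℝ) (hγ0 : 0 ≤ γ1) (hA : 0 < A)
    (hE : ((max 2 k0 : ℕ) : ℝ) - 2 - θ < γ1) :
    ∃ σ : ℝ, 0 < σ ∧ ∃ X0 : ℕ, ∀ X : ℕ, X0 ≤ X → ∀ F : ℝ, (X : ℝ) ^ γ1 ≤ |F| → |F| ≤ (X : ℝ) ^ A →
      ‖∑ n ∈ Icc 1 X, ee (F * (α * f 0 n + β))‖ ≤ (X : ℝ) ^ (1 - σ) := by
  classical
  set E : ℝ := ((max 2 k0 : ℕ) : ℝ) - 2 - θ with hEdef
  have hα0 : 0 < |α| := abs_pos.2 hα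
  -- the exponent `η`
  obtain ⟨η, hη, hη1, γ, hγ, hPγ⟩ : ∃ η : ℝ, 0 < η ∧ η ≤ 1 / 2 ∧ ∃ γ : ℝ, γ < γ1 ∧
      ∀ P X : ℕ, 1 ≤ P → P ≤ X → X ≤ P ^ 2 → (P : ℝ) ^ (E + η) ≤ (X : ℝ) ^ γ := by
    rcases lt_or_ge E 0 with hneg | hpos
    · refine ⟨min (1 / 2) (-E / 2), lt_min (by norm_num) (by linarith), min_le_left _ _,
        (E + min (1 / 2) (-E / 2)) / 2, ?_, ?_⟩
      · have : min (1 / 2) (-E / 2) ≤ -E / 2 := min_le_right _ _
        linarith
      · intro P X hP hPX hX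
        have hle : E + min (1 / 2) (-E / 2) ≤ 0 := by
          have : min (1 / 2) (-E / 2) ≤ -E / 2 := min_le_right _ _
          linarith
        have hP0 : (0 : ℝ) < P := by exact_mod_cast hP
        have hX0 : (0 : ℝ) < X := by exact_mod_cast (by omega : 0 < X)
        have h1 : (P : ℝ) ^ (E + min (1 / 2) (-E / 2)) =
            ((P : ℝ) ^ 2) ^ ((E + min (1 / 2) (-E / 2)) / 2) := by
          rw [← Real.rpow_natCast (P : ℝ) 2, ← Real.rpow_mul hP0.le]
          congr 1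
          push_cast; ring
        rw [h1]
        exact Real.rpow_le_rpow_of_nonpos hX0 (by exact_mod_cast hX) (by linarith)
    · refine ⟨min (1 / 2) ((γ1 - E) / 2), lt_min (by norm_num) (by linarith),
        min_le_left _ _, E + min (1 / 2) ((γ1 - E) / 2), ?_, ?_⟩
      · have : min (1 / 2) ((γ1 - E) / 2) ≤ (γ1 - E) / 2 := min_le_right _ _
        linarith
      · intro P X hP hPX _
        apply Real.rpow_le_rpow (by positivity) (by exact_mod_cast hPX)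
        have : 0 < min (1 / 2) ((γ1 - E) / 2) := lt_min (by norm_num) (by linarith)
        linarith
  obtain ⟨σ, hσ, C, hC, hsum⟩ := hf.expsum η (2 * (A + 1)) hη hη1
  set σ' := min σ (1 / 2) with hσ'
  have hσ'0 : 0 < σ' := lt_min hσ (by norm_num)
  have hσ'1 : σ' ≤ 1 / 2 := min_le_right _ _
  refine ⟨σ' / 2, by positivity, ?_⟩
  obtain ⟨X1, hX1⟩ := large γ γ1 hγ |α|⁻¹
  obtain ⟨X2, hX2⟩ := large A (A + 1) (by linarith) |α|
  obtain ⟨X3, hX3⟩ := log_sq_le (4 * C) (σ' / 2) (by positivity)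
  obtain ⟨X4, hX4⟩ := large (1 / 2) (1 - σ' / 2) (by linarith) 4
  refine ⟨max (max X1 X2) (max (max X3 X4) 3), fun X hX F hF1 hF2 => ?_⟩
  simp only [max_le_iff] at hX
  obtain ⟨⟨g1, g2⟩, ⟨g3, g4⟩, g6⟩ := hX
  have hX1' : (1 : ℝ) ≤ X := by exact_mod_cast (by omega : 1 ≤ X)
  have hXpos : (0 : ℝ) < X := by linarith
  have hlog : 1 ≤ Real.log X := by
    rw [Real.le_log_iff_exp_le hXpos]
    have : Real.exp 1 < 2.7182818286 := Real.exp_one_lt_d9
    have : (3 : ℝ) ≤ X := by exact_mod_cast g6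
    linarith
  set B : ℝ := C * (X : ℝ) ^ (1 - σ') with hB
  have hB0 : 0 ≤ B := by positivity
  have hmain := dyadic_norm X (fun n => ee (F * (α * f 0 n + β))) (fun n => (ee_norm _).le) B hB0
    (fun P M hPM hsq hMP => by
      have hP1 : 1 ≤ P := by omega
      have hPX : P ≤ X := by omega
      have hXP : X ≤ P ^ 2 := by
        have := Nat.lt_succ_sqrt' X
        calc X ≤ (Nat.sqrt X + 1) ^ 2 := this.le
          _ ≤ P ^ 2 := Nat.pow_le_pow_left hsq 2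
      have hP1R : (1 : ℝ) ≤ P := by exact_mod_cast hP1
      have hPpos : (0 : ℝ) < P := by linarith
      have e1 : ∀ m : ℕ, F * (α * f 0 ((P + 1 + m : ℕ) : ℝ) + β) =
          (F * α) * f 0 ((P : ℝ) + 1 + m) + F * β := by
        intro m; push_cast; ring
      simp only [e1]
      rw [ee_norm_const (range M) (fun m : ℕ => (F * α) * f 0 ((P : ℝ) + 1 + m))]
      refine (hsum P M _ hP1 hMP ?_ ?_).trans ?_
      · refine (hPγ P X hP1 hPX hXP).trans ?_
        have h3 := hX1 X g1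
        rw [inv_mul_le_iff₀ hα0] at h3
        refine h3.trans ?_
        rw [abs_mul, mul_comm]
        exact mul_le_mul_of_nonneg_right hF1 hα0.le
      · rw [abs_mul]
        have h8 := hX2 X g2
        calc |F| * |α| ≤ (X : ℝ) ^ A * |α| := mul_le_mul_of_nonneg_right hF2 hα0.le
          _ = |α| * (X : ℝ) ^ A := mul_comm _ _
          _ ≤ (X : ℝ) ^ (A + 1) := h8
          _ ≤ ((P : ℝ) ^ 2) ^ (A + 1) := by
              apply Real.rpow_le_rpow hXpos.le _ (by linarith)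
              exact_mod_cast hXP
          _ = (P : ℝ) ^ (2 * (A + 1)) := by
              rw [← Real.rpow_natCast (P : ℝ) 2, ← Real.rpow_mul hPpos.le]
              norm_num
      · apply mul_le_mul_of_nonneg_left _ (by linarith)
        calc (P : ℝ) ^ (1 - σ) ≤ (P : ℝ) ^ (1 - σ') :=
              Real.rpow_le_rpow_of_exponent_le hP1R (by
                have : σ' ≤ σ := min_le_left _ _
                linarith)
          _ ≤ (X : ℝ) ^ (1 - σ') := by
              apply Real.rpow_le_rpow hPpos.le (by exact_mod_cast hPX)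
              linarith)
  refine hmain.trans ?_
  have hsqrt : ((Nat.sqrt X + 1 : ℕ) : ℝ) ≤ 2 * (X : ℝ) ^ (1 / 2 : ℝ) := by
    push_cast
    have h1 : (Nat.sqrt X : ℝ) ≤ (X : ℝ) ^ (1 / 2 : ℝ) := by
      rw [← Real.sqrt_eq_rpow]; exact Real.nat_sqrt_le_real_sqrt
    have h2 : (1 : ℝ) ≤ (X : ℝ) ^ (1 / 2 : ℝ) := Real.one_le_rpow hX1' (by norm_num)
    linarith
  have hlog2 : ((Nat.log 2 X + 1 : ℕ) : ℝ) ≤ 2 * (Real.log X + 1) := by
    push_cast
    have h1 : (Nat.log 2 X : ℝ) ≤ Real.log X / Real.log 2 := by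
      have := Real.natLog_le_logb X 2
      simpa [Real.logb] using this
    have h2 : Real.log X / Real.log 2 ≤ 2 * Real.log X := by
      rw [div_le_iff₀ (Real.log_pos (by norm_num))]
      have := Real.log_two_gt_d9
      nlinarith
    linarith
  have h7 := hX3 X g3
  have h8 := hX4 X g4
  have h9 : ((Nat.log 2 X + 1 : ℕ) : ℝ) * B ≤ (X : ℝ) ^ (1 - σ' / 2) / 2 := by
    have hL1 : Real.log X + 1 ≤ (Real.log X + 1) ^ 2 := by nlinarith
    calc ((Nat.log 2 X + 1 : ℕ) : ℝ) * B ≤ 2 * (Real.log X + 1) * B :=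
          mul_le_mul_of_nonneg_right hlog2 hB0
      _ ≤ 2 * (Real.log X + 1) ^ 2 * B := by gcongr
      _ = (4 * C * (Real.log X + 1) ^ 2) * (X : ℝ) ^ (1 - σ') / 2 := by rw [hB]; ring
      _ ≤ (X : ℝ) ^ (σ' / 2) * (X : ℝ) ^ (1 - σ') / 2 := by gcongr
      _ = (X : ℝ) ^ (1 - σ' / 2) / 2 := by
          rw [← Real.rpow_add hXpos]; congr 2; ring
  linarith

/-- **Almost independence.** -/
theorem indep {θ : ℝ} {k0 : ℕ} {s : ℝ} {f : ℕ → ℝ → ℝ} (hf : Reg θ k0 s f)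
    (b : ℕ) (hb : 2 ≤ b) (α β : ℝ) (hα : α ≠ 0) (g0 A : ℝ) (hg0 : 0 ≤ g0) (hA : 0 < A)
    (hE : ((max 2 k0 : ℕ) : ℝ) - 2 - θ < g0 * Real.log b) :
    ∃ c : ℝ, 0 < c ∧ ∃ X0 : ℕ, ∀ X : ℕ, X0 ≤ X → ∀ r : ℕ,
      (r : ℝ) * Real.log (Real.log X) ≤ c * Real.log X → ∀ pl a : Fin r → ℕ, Function.Injective pl →
      (∀ k, g0 * Real.log X ≤ pl k ∧ (pl k : ℝ) ≤ A * Real.log X) → (∀ k, a k < b) →
      ∀ _ : DecidablePred fun n : ℕ => HasDigits b pl a (α * f 0 n + β),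
      |(((Icc 1 X).filter (fun n : ℕ => HasDigits b pl a (α * f 0 n + β))).card : ℝ) -
        X / (b : ℝ) ^ r| ≤ (X : ℝ) ^ (1 - c) := by
  classical
  have hbR : (2 : ℝ) ≤ b := by exact_mod_cast hb
  have hlb : 0 < Real.log b := Real.log_pos (by linarith)
  set A' : ℝ := A * Real.log b + 2 with hA'
  have hA'0 : 0 < A' := by positivity
  obtain ⟨σ, hσ, X0, hsum⟩ := expsum_all hf α β hα (g0 * Real.log b) A' (by positivity) hA'0 hE
  set σ' := min σ (1 / 8) with hσ'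
  have hσ'0 : 0 < σ' := lt_min hσ (by norm_num)
  have hσ'1 : σ' ≤ 1 / 8 := min_le_right _ _
  set c : ℝ := σ' / 4 with hc
  have hc0 : 0 < c := by positivity
  have t : Filter.Tendsto (fun X : ℕ => Real.log X) Filter.atTop Filter.atTop :=
    Real.tendsto_log_atTop.comp tendsto_natCast_atTop_atTop
  obtain ⟨X1, hX1⟩ := Filter.eventually_atTop.1
    (t.eventually_ge_atTop (max 10 (9 + 8 * Real.log b)))
  obtain ⟨X2, hX2⟩ := log_sq_le (8 * (512 * b + 8)) (1 / 8) (by norm_num)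
  obtain ⟨X3, hX3⟩ := log_sq_le (4 * 4) (σ' / 2) (by positivity)
  obtain ⟨X4, hX4⟩ := large (1 - 1 / 8) (1 - c) (by rw [hc]; linarith) 4
  obtain ⟨X5, hX5⟩ := large (1 - σ' / 2) (1 - c) (by rw [hc]; linarith) 4
  obtain ⟨X6, hX6⟩ := log_sq_le (2 * b) (1 / 8) (by norm_num)
  refine ⟨c, hc0, max (max X0 X1) (max (max X2 X3) (max (max X4 X5) (max X6 16))),
    fun X hX r hr pl a hinj hpl ha _ => ?_⟩
  simp only [max_le_iff] at hX
  obtain ⟨⟨g0X, g1⟩, ⟨g2, g3⟩, ⟨g4, g5⟩, g6, g7⟩ := hX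
  have hXpos : (0 : ℝ) < X := by exact_mod_cast (by omega : 0 < X)
  have hX1' : (1 : ℝ) ≤ X := by exact_mod_cast (by omega : 1 ≤ X)
  have hlog' := hX1 X g1
  rw [max_le_iff] at hlog'
  obtain ⟨hlog10, hlogb⟩ := hlog'
  have hloglog : 1 ≤ Real.log (Real.log X) := by
    rw [Real.le_log_iff_exp_le (by linarith)]
    have : Real.exp 1 < 2.7182818286 := Real.exp_one_lt_d9
    linarith
  have hrlog : (r : ℝ) ≤ Real.log X := by
    have h1 : (r : ℝ) ≤ r * Real.log (Real.log X) := le_mul_of_one_le_right (by positivity) hloglog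
    have h2 : c * Real.log X ≤ Real.log X := by
      have : c ≤ 1 := by rw [hc]; linarith
      nlinarith
    linarith
  have hr0 : (0 : ℝ) ≤ r := by positivity
  -- the parameters
  set Q : ℕ := ⌊(X : ℝ) ^ (1 / 4 : ℝ)⌋₊ with hQ
  have hX14 : 2 ≤ (X : ℝ) ^ (1 / 4 : ℝ) := by
    have h16 : (16 : ℝ) ≤ X := by exact_mod_cast g7
    calc (2 : ℝ) = (16 : ℝ) ^ (1 / 4 : ℝ) := by
          rw [show (16 : ℝ) = 2 ^ (4 : ℝ) by norm_num, ← Real.rpow_mul (by norm_num)]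
          norm_num
      _ ≤ (X : ℝ) ^ (1 / 4 : ℝ) := Real.rpow_le_rpow (by norm_num) h16 (by norm_num)
  have hQle : (Q : ℝ) ≤ (X : ℝ) ^ (1 / 4 : ℝ) := Nat.floor_le (by positivity)
  have hQge : (X : ℝ) ^ (1 / 4 : ℝ) / 2 ≤ Q := by
    have := Nat.lt_floor_add_one ((X : ℝ) ^ (1 / 4 : ℝ))
    rw [← hQ] at this
    linarith
  have hQ1 : 1 ≤ Q := by
    rw [hQ]; exact Nat.le_floor (by push_cast; linarith)
  have hQ0 : (0 : ℝ) < Q := by exact_mod_cast hQ1
  set q : ℕ := Q ^ 3 with hq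
  have hq1 : 1 ≤ q := Nat.one_le_pow _ _ hQ1
  have hqle : (q : ℝ) ≤ (X : ℝ) ^ (3 / 4 : ℝ) := by
    rw [hq]; push_cast
    calc (Q : ℝ) ^ 3 ≤ ((X : ℝ) ^ (1 / 4 : ℝ)) ^ 3 := pow_le_pow_left₀ hQ0.le hQle 3
      _ = _ := by rw [← Real.rpow_natCast, ← Real.rpow_mul hXpos.le]; norm_num
  set G : ℕ := ⌊A * Real.log X⌋₊ with hG
  set g : ℕ := ⌈g0 * Real.log X⌉₊ with hg
  have hlogpos : 0 < Real.log X := by linarith
  have hGle : (G : ℝ) ≤ A * Real.log X := Nat.floor_le (by positivity)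
  set D : ℝ := (X : ℝ) ^ (1 - σ) with hD
  have hbpow : ∀ x : ℕ, (b : ℝ) ^ x = Real.exp (x * Real.log b) := by
    intro x
    rw [← Real.exp_log (show (0 : ℝ) < b by linarith), ← Real.exp_nat_mul,
      Real.exp_log (show (0 : ℝ) < b by linarith)]
  have hcmp := compare (Icc 1 X) (fun n : ℕ => α * f 0 n + β) b q Q pl a hinj hb hq1 hQ1 ha g G
    (fun k => Nat.ceil_le.2 (hpl k).1) (fun k => Nat.le_floor (hpl k).2) D (by positivity)
    (fun F hF0 hdvd hFle => by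
      refine hsum X g0X (F : ℝ) ?_ ?_
      · -- lower bound
        have h1 : (b : ℤ) ^ g ≤ |F| := Int.le_of_dvd (abs_pos.2 hF0) ((dvd_abs _ _).2 hdvd)
        have h2 : (b : ℝ) ^ g ≤ |(F : ℝ)| := by exact_mod_cast h1
        refine le_trans ?_ h2
        rw [hbpow, Real.rpow_def_of_pos hXpos]
        apply Real.exp_le_exp.2
        calc Real.log X * (g0 * Real.log b) = (g0 * Real.log X) * Real.log b := by ring
          _ ≤ g * Real.log b := mul_le_mul_of_nonneg_right (Nat.le_ceil _) hlb.le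
      · -- upper bound
        have h1 : |(F : ℝ)| ≤ (r * (b * q) + b * Q) * (b : ℝ) ^ G := by exact_mod_cast hFle
        refine h1.trans ?_
        have h2 : (b : ℝ) ^ G ≤ (X : ℝ) ^ (A * Real.log b) := by
          rw [hbpow, Real.rpow_def_of_pos hXpos]
          apply Real.exp_le_exp.2
          calc (G : ℝ) * Real.log b ≤ (A * Real.log X) * Real.log b :=
                mul_le_mul_of_nonneg_right hGle hlb.le
            _ = _ := by ring
        have h3 : (r : ℝ) * (b * q) + b * Q ≤ (X : ℝ) ^ (2 : ℝ) := by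
          have h4 : (Q : ℝ) ≤ (X : ℝ) ^ (3 / 4 : ℝ) :=
            hQle.trans (Real.rpow_le_rpow_of_exponent_le hX1' (by norm_num))
          have h5 := hX6 X g6
          have h6 : 2 * (b : ℝ) * (Real.log X) ≤ (X : ℝ) ^ (1 / 8 : ℝ) := by
            refine le_trans ?_ h5
            apply mul_le_mul_of_nonneg_left _ (by positivity)
            nlinarith
          calc (r : ℝ) * (b * q) + b * Q ≤ Real.log X * (b * (X : ℝ) ^ (3 / 4 : ℝ)) +
                b * (X : ℝ) ^ (3 / 4 : ℝ) := by gcongr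
            _ ≤ Real.log X * (b * (X : ℝ) ^ (3 / 4 : ℝ)) + Real.log X * (b * (X : ℝ) ^ (3 / 4 : ℝ)) := by
                have : 0 ≤ b * (X : ℝ) ^ (3 / 4 : ℝ) := by positivity
                nlinarith
            _ = (2 * b * Real.log X) * (X : ℝ) ^ (3 / 4 : ℝ) := by ring
            _ ≤ (X : ℝ) ^ (1 / 8 : ℝ) * (X : ℝ) ^ (3 / 4 : ℝ) :=
                mul_le_mul_of_nonneg_right h6 (by positivity)
            _ = (X : ℝ) ^ (1 / 8 + 3 / 4 : ℝ) := by rw [← Real.rpow_add hXpos]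
            _ ≤ _ := Real.rpow_le_rpow_of_exponent_le hX1' (by norm_num)
        calc ((r : ℝ) * (b * q) + b * Q) * (b : ℝ) ^ G ≤
              (X : ℝ) ^ (2 : ℝ) * (X : ℝ) ^ (A * Real.log b) :=
              mul_le_mul h3 h2 (by positivity) (by positivity)
          _ = (X : ℝ) ^ A' := by rw [← Real.rpow_add hXpos, hA']; congr 1; ring)
  rw [Nat.card_Icc, Nat.add_sub_cancel] at hcmp
  refine hcmp.trans ?_
  have hDle : D ≤ (X : ℝ) ^ (1 - σ') := by
    rw [hD]; exact Real.rpow_le_rpow_of_exponent_le hX1' (by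
      have : σ' ≤ σ := min_le_left _ _
      linarith)
  have hD0 : 0 ≤ D := by positivity
  -- first term
  have hT1 : 2 * (r : ℝ) * X * (256 * b * (Q : ℝ) ^ 2 / q + 4 / Q) ≤ (X : ℝ) ^ (1 - c) / 4 := by
    have e1 : 256 * (b : ℝ) * (Q : ℝ) ^ 2 / q + 4 / Q = (256 * b + 4) / Q := by
      rw [hq]; push_cast; field_simp
    rw [e1]
    have h1 : (256 * (b : ℝ) + 4) / Q ≤ (512 * b + 8) * (X : ℝ) ^ (-(1 / 4) : ℝ) := by
      have e2 : (X : ℝ) ^ (-(1 / 4) : ℝ) = 1 / (X : ℝ) ^ (1 / 4 : ℝ) := by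
        rw [Real.rpow_neg hXpos.le]
        exact (one_div _).symm
      rw [e2, mul_one_div, div_le_div_iff₀ hQ0 (by positivity)]
      nlinarith
    have h2 := hX2 X g2
    have h3 : 2 * (r : ℝ) * (512 * b + 8) * 4 ≤ (X : ℝ) ^ (1 / 8 : ℝ) := by
      refine le_trans ?_ h2
      have h4 : (r : ℝ) ≤ (Real.log X + 1) ^ 2 := by nlinarith
      have h5 : (0 : ℝ) ≤ 512 * b + 8 := by positivity
      nlinarith
    have h4 := hX4 X g4
    calc 2 * (r : ℝ) * X * ((256 * b + 4) / Q)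
        ≤ 2 * r * X * ((512 * b + 8) * (X : ℝ) ^ (-(1 / 4) : ℝ)) := by gcongr
      _ = (2 * r * (512 * b + 8) * 4) * ((X : ℝ) ^ (1 : ℝ) * (X : ℝ) ^ (-(1 / 4) : ℝ)) / 4 := by
          rw [Real.rpow_one]; ring
      _ ≤ (X : ℝ) ^ (1 / 8 : ℝ) * ((X : ℝ) ^ (1 : ℝ) * (X : ℝ) ^ (-(1 / 4) : ℝ)) / 4 := by gcongr
      _ = (X : ℝ) ^ (1 - 1 / 8 : ℝ) / 4 := by
          rw [← Real.rpow_add hXpos, ← Real.rpow_add hXpos]; norm_num
      _ ≤ (X : ℝ) ^ (1 - c) / 4 := by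
          have : 0 ≤ (X : ℝ) ^ (1 - 1 / 8 : ℝ) := by positivity
          linarith
  -- second term
  have hT2 : 4 * (r : ℝ) * D ≤ (X : ℝ) ^ (1 - c) / 4 := by
    have h3 := hX3 X g3
    have h5 := hX5 X g5
    have h4 : (r : ℝ) ≤ (Real.log X + 1) ^ 2 := by nlinarith
    calc 4 * (r : ℝ) * D ≤ 4 * (Real.log X + 1) ^ 2 * (X : ℝ) ^ (1 - σ') := by gcongr
      _ = (4 * 4 * (Real.log X + 1) ^ 2) * (X : ℝ) ^ (1 - σ') / 4 := by ring
      _ ≤ (X : ℝ) ^ (σ' / 2) * (X : ℝ) ^ (1 - σ') / 4 := by gcongr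
      _ = (X : ℝ) ^ (1 - σ' / 2) / 4 := by
          rw [← Real.rpow_add hXpos]; congr 2; ring
      _ ≤ (X : ℝ) ^ (1 - c) / 4 := by
          have : 0 ≤ (X : ℝ) ^ (1 - σ' / 2) := by positivity
          linarith
  -- third term
  have hT3 : D * (9 + 8 * Real.log ((b * q : ℕ) : ℝ)) ^ r ≤ (X : ℝ) ^ (1 - c) / 4 := by
    have h5 := hX5 X g5
    have hbq1 : (1 : ℝ) ≤ ((b * q : ℕ) : ℝ) := by
      exact_mod_cast Nat.mul_pos (by omega : 0 < b) hq1
    have h1 : Real.log ((b * q : ℕ) : ℝ) ≤ Real.log b + Real.log X := by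
      push_cast
      have hq0 : (0 : ℝ) < q := by exact_mod_cast hq1
      rw [Real.log_mul (by linarith) hq0.ne']
      have : Real.log q ≤ Real.log X := by
        apply Real.log_le_log hq0
        refine hqle.trans ?_
        calc (X : ℝ) ^ (3 / 4 : ℝ) ≤ (X : ℝ) ^ (1 : ℝ) :=
              Real.rpow_le_rpow_of_exponent_le hX1' (by norm_num)
          _ = X := Real.rpow_one _
      linarith
    have h2 : 9 + 8 * Real.log ((b * q : ℕ) : ℝ) ≤ Real.log X ^ 2 := by nlinarith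
    have h0 : 0 ≤ 9 + 8 * Real.log ((b * q : ℕ) : ℝ) := by
      have := Real.log_nonneg hbq1
      linarith
    have h3 : (9 + 8 * Real.log ((b * q : ℕ) : ℝ)) ^ r ≤ (X : ℝ) ^ (σ' / 2) := by
      calc (9 + 8 * Real.log ((b * q : ℕ) : ℝ)) ^ r ≤ (Real.log X ^ 2) ^ r := pow_le_pow_left₀ h0 h2 r
        _ = Real.exp (2 * (r * Real.log (Real.log X))) := by
            rw [← pow_mul]
            nth_rewrite 1 [← Real.exp_log hlogpos]
            rw [← Real.exp_nat_mul]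
            congr 1
            push_cast; ring
        _ ≤ Real.exp (2 * (c * Real.log X)) := Real.exp_le_exp.2 (by linarith)
        _ = (X : ℝ) ^ (σ' / 2) := by
            rw [Real.rpow_def_of_pos hXpos, hc]; congr 1; ring
    calc D * (9 + 8 * Real.log ((b * q : ℕ) : ℝ)) ^ r ≤ (X : ℝ) ^ (1 - σ') * (X : ℝ) ^ (σ' / 2) :=
          mul_le_mul hDle h3 (by positivity) (by positivity)
      _ = (X : ℝ) ^ (1 - σ' / 2) := by rw [← Real.rpow_add hXpos]; congr 1; ring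
      _ ≤ (X : ℝ) ^ (1 - c) / 4 := by linarith
  have hpos : 0 ≤ (X : ℝ) ^ (1 - c) := by positivity
  linarith

end Pool.Agent.TH373.DR
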