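import Pool.Agent.TH373.DR2.Chern

set_option autoImplicit false

/-!
Low frequencies: the number of `n` in a block with `F f(n)` in a given cell modulo one, when `f`
is monotone with `|f'| ≍ x^(θ-1)`; density of words for exponents `θ ≤ 0` from the first
significant place on.
-/

namespace Pool.Agent.TH373.DR

open Finset Pool.Agent.Helper153.Vdc Pool.Agent.W226.MP

/-- counting the members of a strictly monotone sequence in a cell modulo one -/
theorem cell_count (M W z : ℕ) (hW : 1 ≤ W) (g : ℕ → ℝ) (δ V : ℝ) (hδ : 0 < δ)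
    (h1 : ∀ m1 m2 : ℕ, m1 < m2 → m2 < M → δ * ((m2 : ℝ) - m1) ≤ |g m2 - g m1|)
    (h2 : ∀ m < M, |g m - g 0| ≤ V) (hV : 0 ≤ V) :
    (((range M).filter (fun m => ⌊Int.fract (g m) * (W : ℝ)⌋₊ = z)).card : ℝ) ≤
      (2 * V + 2) * (1 / (W * δ) + 1) := by
  classical
  have hW0 : (0 : ℝ) < W := by exact_mod_cast hW
  set T := (range M).filter (fun m => ⌊Int.fract (g m) * (W : ℝ)⌋₊ = z) with hT
  set I : Finset ℤ := Icc ⌊g 0 - V⌋ ⌊g 0 + V⌋ with hI
  have hmaps : ∀ m ∈ T, ⌊g m⌋ ∈ I := by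
    intro m hm
    rw [hT, mem_filter, mem_range] at hm
    have := h2 m hm.1
    rw [abs_le] at this
    rw [hI, mem_Icc]
    exact ⟨Int.floor_mono (by linarith), Int.floor_mono (by linarith)⟩
  have hfib : ∀ q ∈ I, ((T.filter (fun m => ⌊g m⌋ = q)).card : ℝ) ≤ 1 / (W * δ) + 1 := by
    intro q _
    set U := T.filter (fun m => ⌊g m⌋ = q) with hU
    rcases U.eq_empty_or_nonempty with he | hne
    · rw [he]; simp only [card_empty, Nat.cast_zero]; positivity
    · set a := U.min' hne with ha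
      have haU : a ∈ U := U.min'_mem hne
      have hcell : ∀ m ∈ U, m < M ∧ (q : ℝ) + z / W ≤ g m ∧ g m < q + (z + 1) / W := by
        intro m hm
        rw [hU, mem_filter, hT, mem_filter, mem_range] at hm
        obtain ⟨⟨hm1, hm2⟩, hm3⟩ := hm
        have h3 : 0 ≤ Int.fract (g m) * (W : ℝ) := mul_nonneg (Int.fract_nonneg _) hW0.le
        obtain ⟨h4, h5⟩ := (Nat.floor_eq_iff h3).1 hm2
        have h6 : Int.fract (g m) = g m - q := by rw [← hm3]; rfl
        rw [h6] at h4 h5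
        refine ⟨hm1, ?_, ?_⟩
        · have : (z : ℝ) / W ≤ g m - q := by rw [div_le_iff₀ hW0]; exact h4
          linarith
        · have : g m - q < (z + 1) / W := by rw [lt_div_iff₀ hW0]; exact h5
          linarith
      have hsub : U ⊆ (range (⌊1 / (W * δ)⌋₊ + 1)).image (fun j => a + j) := by
        intro m hm
        have hle : a ≤ m := U.min'_le m hm
        rw [mem_image]
        refine ⟨m - a, ?_, by omega⟩
        rw [mem_range, Nat.lt_succ_iff]
        apply Nat.le_floor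
        rcases Nat.eq_or_lt_of_le hle with heq | hlt
        · rw [heq, Nat.sub_self]; push_cast; positivity
        · have h3 := h1 a m hlt (hcell m hm).1
          obtain ⟨_, a1, a2⟩ := hcell a haU
          obtain ⟨_, b1, b2⟩ := hcell m hm
          have e1 : ((z : ℝ) + 1) / W = z / W + 1 / W := by ring
          rw [e1] at a2 b2
          have h4 : |g m - g a| ≤ 1 / W := by
            rw [abs_le]
            constructor <;> linarith
          rw [Nat.cast_sub hle]
          rw [le_div_iff₀ (by positivity)]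
          have h5 := h3.trans h4
          rw [le_div_iff₀ hW0] at h5
          calc ((m : ℝ) - a) * (W * δ) = δ * ((m : ℝ) - a) * W := by ring
            _ ≤ 1 := h5
      have h3 := card_le_card hsub
      have h4 : U.card ≤ ⌊1 / (W * δ)⌋₊ + 1 := h3.trans (card_image_le.trans (by rw [card_range]))
      have h5 : (U.card : ℝ) ≤ ⌊1 / (W * δ)⌋₊ + 1 := by exact_mod_cast h4
      have h6 : (⌊1 / (W * δ)⌋₊ : ℝ) ≤ 1 / (W * δ) := Nat.floor_le (by positivity)
      linarith
  have hIc : (I.card : ℝ) ≤ 2 * V + 2 := by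
    rw [hI, Int.card_Icc]
    have h3 : ⌊g 0 - V⌋ ≤ ⌊g 0 + V⌋ := Int.floor_mono (by linarith)
    have h4 : (((⌊g 0 + V⌋ + 1 - ⌊g 0 - V⌋).toNat : ℕ) : ℝ) =
        ((⌊g 0 + V⌋ + 1 - ⌊g 0 - V⌋ : ℤ) : ℝ) := by
      have : (((⌊g 0 + V⌋ + 1 - ⌊g 0 - V⌋).toNat : ℕ) : ℤ) = ⌊g 0 + V⌋ + 1 - ⌊g 0 - V⌋ :=
        Int.toNat_of_nonneg (by omega)
      exact_mod_cast this
    rw [h4]
    push_cast
    have h5 := Int.floor_le (g 0 + V)
    have h6 := Int.lt_floor_add_one (g 0 - V)
    linarith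
  have hsum : T.card = ∑ q ∈ I, (T.filter (fun m => ⌊g m⌋ = q)).card :=
    card_eq_sum_card_fiberwise hmaps
  rw [hsum]
  push_cast
  calc ∑ q ∈ I, ((T.filter (fun m => ⌊g m⌋ = q)).card : ℝ) ≤ ∑ _q ∈ I, (1 / (W * δ) + 1) :=
        sum_le_sum hfib
    _ = I.card * (1 / (W * δ) + 1) := by rw [sum_const, nsmul_eq_mul]
    _ ≤ _ := mul_le_mul_of_nonneg_right hIc (by positivity)

/-- low frequencies -/
theorem Reg.low {θ : ℝ} {k0 : ℕ} {s : ℝ} {f : ℕ → ℝ → ℝ} (hf : Reg θ k0 s f) (hk0 : k0 ≤ 1) :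
    ∃ C : ℝ, 0 < C ∧ ∃ Q : ℕ, ∀ P M W z : ℕ, Q ≤ P → 1 ≤ P → M ≤ P → 1 ≤ W → ∀ F φ : ℝ, F ≠ 0 →
      (((range M).filter (fun m : ℕ => ⌊Int.fract (F * f 0 ((P + 1 + m : ℕ) : ℝ) + φ) *
        (W : ℝ)⌋₊ = z)).card : ℝ) ≤
      C * (P / W + |F| * (P : ℝ) ^ θ + P / (W * (|F| * (P : ℝ) ^ θ)) + 1) := by
  classical
  obtain ⟨x0, hx0, hder⟩ := hf.der
  obtain ⟨c1, hc1, C1, hC1, x1, h1⟩ := hf.val 1 hk0
  have hC1pos : 0 < C1 := by linarith
  have hθ1 : θ - 1 ≤ 0 := by
    have : (k0 : ℝ) ≤ 1 := by exact_mod_cast hk0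
    linarith [hf.hθ]
  set c2 : ℝ := c1 * (2 : ℝ) ^ (θ - 1) with hc2
  have hc2pos : 0 < c2 := by positivity
  refine ⟨2 * C1 / c2 + 2 * C1 + 2 / c2 + 2, by positivity, ⌈max x0 x1⌉₊, ?_⟩
  intro P M W z hQ hP hM hW F φ hF
  have hP0 : (0 : ℝ) < P := by exact_mod_cast hP
  have hW0 : (0 : ℝ) < W := by exact_mod_cast hW
  have hMP : (M : ℝ) ≤ P := by exact_mod_cast hM
  have hPx : max x0 x1 ≤ P := (Nat.le_ceil _).trans (by exact_mod_cast hQ)
  rw [max_le_iff] at hPx
  obtain ⟨g0, g1⟩ := hPx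
  have hFpos : 0 < |F| := abs_pos.2 hF
  -- mean value theorem
  have hmvt : ∀ x y : ℝ, (P : ℝ) ≤ x → x < y → y ≤ 2 * P →
      |F| * c2 * (P : ℝ) ^ (θ - 1) * (y - x) ≤ |(F * f 0 y + φ) - (F * f 0 x + φ)| ∧
      |(F * f 0 y + φ) - (F * f 0 x + φ)| ≤ |F| * C1 * (P : ℝ) ^ (θ - 1) * (y - x) := by
    intro x y hx hxy hy
    obtain ⟨ξ, hξ, hξ2⟩ := exists_hasDerivAt_eq_slope (f 0) (f 1) hxy
      (fun u hu => (hder 0 u (by linarith [hu.1])).continuousAt.continuousWithinAt)
      (fun u hu => hder 0 u (by linarith [hu.1]))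
    have hyx : 0 < y - x := by linarith
    have e1 : (F * f 0 y + φ) - (F * f 0 x + φ) = F * f 1 ξ * (y - x) := by
      rw [hξ2]
      field_simp
      ring
    have hξP : (P : ℝ) ≤ ξ := by linarith [hξ.1]
    have hξ2P : ξ ≤ 2 * P := by linarith [hξ.2]
    have hξ0 : 0 < ξ := by linarith
    obtain ⟨b1, b2⟩ := h1 ξ (by linarith)
    have e2 : |f 1 ξ| = s * (-1) ^ 1 * f 1 ξ := by
      have hpos : 0 < s * (-1) ^ 1 * f 1 ξ := lt_of_lt_of_le (by positivity) b1
      rw [← abs_of_pos hpos, abs_mul]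
      have : |s * (-1) ^ 1| = 1 := by
        rcases hf.hs with h | h <;> rw [h] <;> norm_num
      rw [this, one_mul]
    rw [e1, abs_mul, abs_mul, abs_of_pos hyx, e2]
    have b1' : c1 * ξ ^ (θ - 1) ≤ s * (-1) ^ 1 * f 1 ξ := by
      have := b1; simpa using this
    have b2' : s * (-1) ^ 1 * f 1 ξ ≤ C1 * ξ ^ (θ - 1) := by
      have := b2; simpa using this
    constructor
    · apply mul_le_mul_of_nonneg_right _ hyx.le
      rw [mul_assoc]
      apply mul_le_mul_of_nonneg_left _ hFpos.le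
      refine le_trans ?_ b1'
      have : c2 * (P : ℝ) ^ (θ - 1) = c1 * (2 * P : ℝ) ^ (θ - 1) := by
        rw [hc2, Real.mul_rpow (by norm_num) hP0.le]; ring
      rw [this]
      exact mul_le_mul_of_nonneg_left (Real.rpow_le_rpow_of_nonpos hξ0 hξ2P hθ1) hc1.le
    · apply mul_le_mul_of_nonneg_right _ hyx.le
      rw [mul_assoc |F| C1]
      apply mul_le_mul_of_nonneg_left _ hFpos.le
      refine b2'.trans ?_
      exact mul_le_mul_of_nonneg_left (Real.rpow_le_rpow_of_nonpos hP0 hξP hθ1) hC1pos.le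
  set G : ℝ := |F| * (P : ℝ) ^ θ with hG
  have hGpos : 0 < G := by positivity
  have hPθ : (P : ℝ) ^ θ = (P : ℝ) ^ (θ - 1) * P := by
    nth_rewrite 3 [← Real.rpow_one (P : ℝ)]
    rw [← Real.rpow_add hP0]; congr 1; ring
  have hPG : |F| * (P : ℝ) ^ (θ - 1) = G / P := by
    rw [hG, hPθ]; field_simp
  have hcc := cell_count M W z hW (fun m : ℕ => F * f 0 ((P + 1 + m : ℕ) : ℝ) + φ)
    (c2 * (G / P)) (C1 * G) (by positivity) (fun m1 m2 h12 h2M => by
      have h2M' : (m2 : ℝ) + 1 ≤ M := by exact_mod_cast h2M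
      have h12' : (m1 : ℝ) < m2 := by exact_mod_cast h12
      have hm10 : (0 : ℝ) ≤ m1 := by positivity
      have h3 := (hmvt ((P + 1 + m1 : ℕ) : ℝ) ((P + 1 + m2 : ℕ) : ℝ) (by push_cast; linarith)
        (by push_cast; linarith) (by push_cast; linarith)).1
      have e3 : |F| * c2 * (P : ℝ) ^ (θ - 1) * (((P + 1 + m2 : ℕ) : ℝ) - ((P + 1 + m1 : ℕ) : ℝ)) =
          c2 * (G / P) * ((m2 : ℝ) - m1) := by
        rw [← hPG]; push_cast; ring
      rw [e3] at h3
      exact h3) (fun m hm => by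
      rcases Nat.eq_zero_or_pos m with rfl | hm0
      · simp only [sub_self, abs_zero]; positivity
      · have h2M' : (m : ℝ) + 1 ≤ M := by exact_mod_cast hm
        have hm0' : (0 : ℝ) < m := by exact_mod_cast hm0
        have h3 := (hmvt ((P + 1 + 0 : ℕ) : ℝ) ((P + 1 + m : ℕ) : ℝ) (by push_cast; linarith)
          (by push_cast; linarith) (by push_cast; linarith)).2
        refine h3.trans ?_
        have e3 : |F| * C1 * (P : ℝ) ^ (θ - 1) * (((P + 1 + m : ℕ) : ℝ) - ((P + 1 + 0 : ℕ) : ℝ)) =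
            C1 * (G / P) * m := by
          rw [← hPG]; push_cast; ring
        rw [e3]
        calc C1 * (G / P) * m ≤ C1 * (G / P) * P :=
              mul_le_mul_of_nonneg_left (by linarith) (by positivity)
          _ = C1 * G := by field_simp) (by positivity)
  refine hcc.trans ?_
  have e5 : (2 * (C1 * G) + 2) * (1 / (W * (c2 * (G / P))) + 1) =
      2 * C1 / c2 * (P / W) + 2 * C1 * G + 2 / c2 * (P / (W * G)) + 2 := by
    field_simp
    ring
  rw [e5]
  have hp1 : 0 ≤ (P : ℝ) / W := by positivity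
  have hp3 : 0 ≤ (P : ℝ) / (W * G) := by positivity
  have k1 : 0 ≤ 2 * C1 / c2 := by positivity
  have k2 : 0 ≤ 2 * C1 := by positivity
  have k3 : 0 ≤ 2 / c2 := by positivity
  have e6 : (2 * C1 / c2 + 2 * C1 + 2 / c2 + 2) * ((P : ℝ) / W + G + P / (W * G) + 1) -
      (2 * C1 / c2 * (P / W) + 2 * C1 * G + 2 / c2 * (P / (W * G)) + 2) =
      2 * C1 / c2 * (G + P / (W * G) + 1) + 2 * C1 * (P / W + P / (W * G) + 1) +
      2 / c2 * (P / W + G + 1) + 2 * (P / W + G + P / (W * G)) := by ring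
  have e7 : 0 ≤ 2 * C1 / c2 * (G + P / (W * G) + 1) + 2 * C1 * (P / W + P / (W * G) + 1) +
      2 / c2 * (P / W + G + 1) + 2 * (P / W + G + P / (W * G)) := by positivity
  linarith

/-- dyadic sum -/
theorem dyadic_sum (X : ℕ) (p : ℕ → Prop) [DecidablePred p] (B : ℝ) (hB : 0 ≤ B)
    (hblock : ∀ P M : ℕ, P + M ≤ X → Nat.sqrt X + 1 ≤ P → M ≤ P →
      (((range M).filter (fun m => p (P + 1 + m))).card : ℝ) ≤ B) :
    (((Icc 1 X).filter p).card : ℝ) ≤ ((Nat.sqrt X + 1 : ℕ) : ℝ) +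
      ((Nat.log 2 X + 1 : ℕ) : ℝ) * B := by
  have hXj : X ≤ 2 ^ (Nat.log 2 X + 1) * (Nat.sqrt X + 1) := by
    have h1 : X < 2 ^ (Nat.log 2 X + 1) := Nat.lt_pow_succ_log_self (by norm_num) X
    calc X ≤ 2 ^ (Nat.log 2 X + 1) * 1 := by omega
      _ ≤ _ := Nat.mul_le_mul_left _ (by omega)
  have key : ∀ j Y : ℕ, Y ≤ X → Y ≤ 2 ^ j * (Nat.sqrt X + 1) →
      (((Icc 1 Y).filter p).card : ℝ) ≤ ((Nat.sqrt X + 1 : ℕ) : ℝ) + j * B := by
    intro j
    induction j with
    | zero =>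
      intro Y _ hY
      have h1 : ((Icc 1 Y).filter p).card ≤ Nat.sqrt X + 1 := by
        refine (card_filter_le _ _).trans ?_
        rw [Nat.card_Icc]; simp at hY; omega
      have h2 : (((Icc 1 Y).filter p).card : ℝ) ≤ ((Nat.sqrt X + 1 : ℕ) : ℝ) := by
        exact_mod_cast h1
      simpa using h2
    | succ j ih =>
      intro Y hY0 hY
      set Z := Nat.sqrt X + 1 with hZdef
      rcases le_or_gt Y Z with hle | hgt
      · have h1 : ((Icc 1 Y).filter p).card ≤ Z := by
          refine (card_filter_le _ _).trans ?_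
          rw [Nat.card_Icc]; omega
        have h2 : (((Icc 1 Y).filter p).card : ℝ) ≤ Z := by exact_mod_cast h1
        have : (0 : ℝ) ≤ ((j + 1 : ℕ) : ℝ) * B := by positivity
        linarith
      · set P := max Z ((Y + 1) / 2) with hP
        have hP1 : Z ≤ P := le_max_left _ _
        have hP2 : (Y + 1) / 2 ≤ P := le_max_right _ _
        have hPY : P ≤ Y := by
          rw [hP]; apply max_le hgt.le; omega
        have hP3 : P ≤ 2 ^ j * Z := by
          rw [hP]
          apply max_le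
          · exact Nat.le_mul_of_pos_left _ (by positivity)
          · rw [pow_succ] at hY
            have : 2 ^ j * 2 * Z = 2 * (2 ^ j * Z) := by ring
            omega
        have e1 : (Icc 1 Y).filter p ⊆ (Icc 1 P).filter p ∪
            ((range (Y - P)).filter (fun m => p (P + 1 + m))).image (fun m => P + 1 + m) := by
          intro n hn
          rw [mem_filter, mem_Icc] at hn
          rw [mem_union]
          rcases le_or_gt n P with hnP | hnP
          · left; rw [mem_filter, mem_Icc]; exact ⟨⟨hn.1.1, hnP⟩, hn.2⟩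
          · right
            rw [mem_image]
            refine ⟨n - P - 1, ?_, by omega⟩
            rw [mem_filter, mem_range]
            refine ⟨by omega, ?_⟩
            have : P + 1 + (n - P - 1) = n := by omega
            rw [this]; exact hn.2
        have h2 := ih P (by omega) hP3
        have h3 := hblock P (Y - P) (by omega) hP1 (by omega)
        have h4 : (((Icc 1 Y).filter p).card : ℝ) ≤ ((Icc 1 P).filter p).card +
            ((range (Y - P)).filter (fun m => p (P + 1 + m))).card := by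
          exact_mod_cast (card_le_card e1).trans ((card_union_le _ _).trans
            (Nat.add_le_add_left card_image_le _))
        push_cast at h2 ⊢
        linarith
  exact key (Nat.log 2 X + 1) X le_rfl hXj

end Pool.Agent.TH373.DR
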