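import Pool.Agent.TH373.DR2.Fej

set_option autoImplicit false

/-!
Joint distribution of the digits at several places, by comparison with the points `m / b^T`.
-/

namespace Pool.Agent.TH373.DR

open Finset Pool.Agent.Helper153.Vdc

theorem ee_sum {ι : Type*} (s : Finset ι) (x : ι → ℝ) : ∏ i ∈ s, ee (x i) = ee (∑ i ∈ s, x i) := by
  classical
  induction s using Finset.induction_on with
  | empty => simp [ee_zero]
  | insert a s ha ih => rw [prod_insert ha, sum_insert ha, ih, ee_add]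

/-- the smooth indicator of the digits `a k` at the places `pl k + 1` -/
noncomputable def Ph (b q : ℕ) {r : ℕ} (pl a : Fin r → ℕ) (y : ℝ) : ℝ :=
  ∏ k, phi b q (a k) (y * (b : ℝ) ^ (pl k))

/-- the frequency -/
def Fr (b : ℕ) {r : ℕ} (pl : Fin r → ℕ) (c : Fin r → ℕ × ℕ) : ℤ :=
  ∑ k, (((c k).1 : ℤ) - (c k).2) * (b : ℤ) ^ (pl k)

/-- the product of the coefficients -/
noncomputable def Cf (b q : ℕ) {r : ℕ} (a : Fin r → ℕ) (c : Fin r → ℕ × ℕ) : ℂ :=
  ∏ k, cf b q (a k) (((c k).1 : ℤ) - (c k).2)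

/-- the indices -/
def Idx (b q r : ℕ) : Finset (Fin r → ℕ × ℕ) :=
  Fintype.piFinset (fun _ : Fin r => range (b * q) ×ˢ range (b * q))

/-- the constant term -/
noncomputable def Mc (b q : ℕ) {r : ℕ} (pl a : Fin r → ℕ) : ℂ :=
  ∑ c ∈ Idx b q r, if Fr b pl c = 0 then Cf b q a c else 0

theorem Ph_expand (b q : ℕ) {r : ℕ} (pl a : Fin r → ℕ) (y : ℝ) :
    ((Ph b q pl a y : ℝ) : ℂ) = ∑ c ∈ Idx b q r, Cf b q a c * ee ((Fr b pl c : ℝ) * y) := by
  unfold Ph
  push_cast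
  simp only [phi_expand]
  rw [prod_univ_sum]
  apply sum_congr rfl
  intro c _
  rw [prod_mul_distrib, ee_sum]
  unfold Cf Fr
  congr 2
  push_cast
  rw [sum_mul]
  apply sum_congr rfl
  intro k _
  ring

theorem Cf_l1 (b q : ℕ) {r : ℕ} (a : Fin r → ℕ) (hb : 1 ≤ b) (hq : 1 ≤ q) (ha : ∀ k, a k < b) :
    ∑ c ∈ Idx b q r, ‖Cf b q a c‖ ≤ (9 + 8 * Real.log ((b * q : ℕ) : ℝ)) ^ r := by
  unfold Cf Idx
  simp only [norm_prod]
  rw [← prod_univ_sum (fun _ : Fin r => range (b * q) ×ˢ range (b * q))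
    (fun k p => ‖cf b q (a k) ((p.1 : ℤ) - p.2)‖)]
  calc _ ≤ ∏ _k : Fin r, (9 + 8 * Real.log ((b * q : ℕ) : ℝ)) := by
        apply prod_le_prod
        · intro k _; exact sum_nonneg fun _ _ => norm_nonneg _
        · intro k _; exact cf_l1 b q (a k) hb hq (ha k)
    _ = _ := by rw [prod_const, card_univ, Fintype.card_fin]

theorem Fr_dvd (b : ℕ) {r : ℕ} (pl : Fin r → ℕ) (c : Fin r → ℕ × ℕ) (g : ℕ) (hg : ∀ k, g ≤ pl k) :
    (b : ℤ) ^ g ∣ Fr b pl c := by
  unfold Fr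
  apply dvd_sum
  intro k _
  exact Dvd.dvd.mul_left (pow_dvd_pow _ (hg k)) _

theorem Fr_le (b q : ℕ) (hb : 1 ≤ b) {r : ℕ} (pl : Fin r → ℕ) (c : Fin r → ℕ × ℕ)
    (hc : c ∈ Idx b q r) (G : ℕ) (hG : ∀ k, pl k ≤ G) :
    |Fr b pl c| ≤ r * ((b * q : ℕ) : ℤ) * (b : ℤ) ^ G := by
  unfold Fr
  refine (abs_sum_le_sum_abs _ _).trans ?_
  calc ∑ k, |(((c k).1 : ℤ) - (c k).2) * (b : ℤ) ^ (pl k)|
      ≤ ∑ _k : Fin r, ((b * q : ℕ) : ℤ) * (b : ℤ) ^ G := by
        apply sum_le_sum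
        intro k _
        have hck := (Fintype.mem_piFinset.1 hc) k
        rw [mem_product, mem_range, mem_range] at hck
        rw [abs_mul, abs_of_nonneg (show (0 : ℤ) ≤ (b : ℤ) ^ (pl k) by positivity)]
        apply mul_le_mul _ _ (by positivity) (by positivity)
        · rw [abs_le]; omega
        · exact pow_le_pow_right₀ (by exact_mod_cast hb) (hG k)
    _ = _ := by rw [sum_const, card_univ, Fintype.card_fin, nsmul_eq_mul]; ring

theorem Ph_sum {ι : Type*} (S : Finset ι) (y : ι → ℝ) (b q : ℕ) {r : ℕ} (pl a : Fin r → ℕ)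
    (hb : 1 ≤ b) (hq : 1 ≤ q) (ha : ∀ k, a k < b) (g G : ℕ) (hg : ∀ k, g ≤ pl k)
    (hG : ∀ k, pl k ≤ G) (D : ℝ) (hD0 : 0 ≤ D)
    (hD : ∀ F : ℤ, F ≠ 0 → (b : ℤ) ^ g ∣ F → |F| ≤ r * ((b * q : ℕ) : ℤ) * (b : ℤ) ^ G →
      ‖∑ i ∈ S, ee (F * y i)‖ ≤ D) :
    ‖((∑ i ∈ S, Ph b q pl a (y i) : ℝ) : ℂ) - S.card * Mc b q pl a‖ ≤
      D * (9 + 8 * Real.log ((b * q : ℕ) : ℝ)) ^ r := by
  have e1 : ((∑ i ∈ S, Ph b q pl a (y i) : ℝ) : ℂ) - S.card * Mc b q pl a =
      ∑ c ∈ Idx b q r, (Cf b q a c * ∑ i ∈ S, ee ((Fr b pl c : ℝ) * y i) -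
        S.card * (if Fr b pl c = 0 then Cf b q a c else 0)) := by
    push_cast
    simp only [Ph_expand]
    rw [sum_comm, sum_sub_distrib, Mc, mul_sum]
    congr 1
    apply sum_congr rfl
    intro c _
    rw [mul_sum]
  rw [e1]
  refine (norm_sum_le _ _).trans ?_
  calc _ ≤ ∑ c ∈ Idx b q r, D * ‖Cf b q a c‖ := by
        apply sum_le_sum
        intro c hc
        by_cases h : Fr b pl c = 0
        · rw [if_pos h, h]
          have : Cf b q a c * ∑ i ∈ S, ee (((0 : ℤ) : ℝ) * y i) - S.card * Cf b q a c = 0 := by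
            simp [ee_zero, mul_comm]
          rw [this, norm_zero]
          positivity
        · rw [if_neg h, mul_zero, sub_zero, norm_mul, mul_comm]
          apply mul_le_mul_of_nonneg_right _ (norm_nonneg _)
          exact hD _ h (Fr_dvd b pl c g hg) (Fr_le b q hb pl c hc G hG)
    _ = D * ∑ c ∈ Idx b q r, ‖Cf b q a c‖ := by rw [mul_sum]
    _ ≤ _ := mul_le_mul_of_nonneg_left (Cf_l1 b q a hb hq ha) hD0

theorem prod_close {ι : Type*} (s : Finset ι) (x z : ι → ℝ) (hx : ∀ i ∈ s, 0 ≤ x i ∧ x i ≤ 1)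
    (hz : ∀ i ∈ s, 0 ≤ z i ∧ z i ≤ 1) : |∏ i ∈ s, x i - ∏ i ∈ s, z i| ≤ ∑ i ∈ s, |x i - z i| := by
  classical
  induction s using Finset.induction_on with
  | empty => simp
  | insert a s ha ih =>
    rw [prod_insert ha, prod_insert ha, sum_insert ha]
    have h1 := ih (fun i hi => hx i (mem_insert_of_mem hi)) (fun i hi => hz i (mem_insert_of_mem hi))
    have hxa := hx a (mem_insert_self a s)
    have hP0 : 0 ≤ ∏ i ∈ s, x i := prod_nonneg fun i hi => (hx i (mem_insert_of_mem hi)).1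
    have hP1 : ∏ i ∈ s, x i ≤ 1 := prod_le_one (fun i hi => (hx i (mem_insert_of_mem hi)).1)
      fun i hi => (hx i (mem_insert_of_mem hi)).2
    have hza := hz a (mem_insert_self a s)
    have e : x a * ∏ i ∈ s, x i - z a * ∏ i ∈ s, z i =
        (x a - z a) * ∏ i ∈ s, x i + z a * (∏ i ∈ s, x i - ∏ i ∈ s, z i) := by ring
    rw [e]
    refine (abs_add_le _ _).trans ?_
    rw [abs_mul, abs_mul, abs_of_nonneg hP0, abs_of_nonneg hza.1]
    have h2 : |x a - z a| * ∏ i ∈ s, x i ≤ |x a - z a| := mul_le_of_le_one_right (abs_nonneg _) hP1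
    have h3 : z a * |∏ i ∈ s, x i - ∏ i ∈ s, z i| ≤ |∏ i ∈ s, x i - ∏ i ∈ s, z i| :=
      mul_le_of_le_one_left (abs_nonneg _) hza.2
    linarith

/-- the digits at the places `pl k + 1` are `a k` -/
def HasDigits (b : ℕ) {r : ℕ} (pl a : Fin r → ℕ) (y : ℝ) : Prop :=
  ∀ k, dgt b (y * (b : ℝ) ^ (pl k)) = (a k : ℤ)

theorem cnt_Ph {ι : Type*} (S : Finset ι) (y : ι → ℝ) (b q Q : ℕ) {r : ℕ} (pl a : Fin r → ℕ)
    (hb : 1 ≤ b) (hq : 1 ≤ q) (hQ : 1 ≤ Q) (D : ℝ) (hD0 : 0 ≤ D)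
    (hD : ∀ k : Fin r, ∀ h : ℤ, h ≠ 0 → |h| < Q → ‖∑ i ∈ S, ee (h * (y i * (b : ℝ) ^ (pl k + 1)))‖ ≤ D)
    [DecidablePred fun i => HasDigits b pl a (y i)] :
    |((S.filter (fun i => HasDigits b pl a (y i))).card : ℝ) - ∑ i ∈ S, Ph b q pl a (y i)| ≤
      r * (S.card * (256 * b * (Q : ℝ) ^ 2 / q) + (4 * S.card / Q + 4 * D)) := by
  classical
  have hb0 : (0 : ℝ) < b := by exact_mod_cast hb
  have hQ0 : (0 : ℝ) < Q := by exact_mod_cast hQ
  have hq0 : (0 : ℝ) < q := by exact_mod_cast hq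
  set δ : ℝ := 1 / (8 * b * Q) with hδ
  have hδ0 : 0 < δ := by positivity
  have hδb : δ * b = 1 / (8 * Q) := by rw [hδ]; field_simp
  set near : Fin r → ι → Prop := fun k i => ∃ z : ℤ, |y i * (b : ℝ) ^ (pl k + 1) - 0 - z| ≤ 1 / (8 * Q)
    with hnear
  have hε : 4 / (δ ^ 2 * ((b * q : ℕ) : ℝ)) = 256 * b * (Q : ℝ) ^ 2 / q := by
    rw [hδ]; push_cast; field_simp; norm_num
  have hpt : ∀ i ∈ S, |(if HasDigits b pl a (y i) then (1 : ℝ) else 0) - Ph b q pl a (y i)| ≤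
      ∑ k, (256 * b * (Q : ℝ) ^ 2 / q + (if near k i then (1 : ℝ) else 0)) := by
    intro i _
    have e1 : (if HasDigits b pl a (y i) then (1 : ℝ) else 0) =
        ∏ k, (if dgt b (y i * (b : ℝ) ^ (pl k)) = (a k : ℤ) then (1 : ℝ) else 0) := by
      by_cases h : HasDigits b pl a (y i)
      · rw [if_pos h]
        symm
        apply prod_eq_one
        intro k _
        rw [if_pos (h k)]
      · rw [if_neg h]
        symm
        unfold HasDigits at h
        push Not at h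
        obtain ⟨k, hk⟩ := h
        exact prod_eq_zero (mem_univ k) (if_neg hk)
    rw [e1]
    unfold Ph
    refine (prod_close univ _ _ (fun k _ => ?_) (fun k _ => ⟨phi_nonneg _ _ _ _,
      phi_le_one _ _ _ hb hq _⟩)).trans ?_
    · split_ifs <;> norm_num
    · apply sum_le_sum
      intro k _
      by_cases hn : near k i
      · rw [if_pos hn]
        have h1 := phi_nonneg b q (a k) (y i * (b : ℝ) ^ (pl k))
        have h2 := phi_le_one b q (a k) hb hq (y i * (b : ℝ) ^ (pl k))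
        have h3 : 0 ≤ 256 * b * (Q : ℝ) ^ 2 / q := by positivity
        rw [abs_le]
        split_ifs <;> constructor <;> linarith
      · rw [if_neg hn, add_zero, abs_sub_comm, ← hε]
        apply phi_approx b q (a k) hb hq _ δ hδ0
        intro z
        by_contra hcon
        push Not at hcon
        apply hn
        refine ⟨z, ?_⟩
        rw [hδb] at hcon
        have e2 : y i * (b : ℝ) ^ (pl k + 1) - 0 - z = y i * (b : ℝ) ^ pl k * b - z := by
          rw [pow_succ]; ring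
        rw [e2]
        exact hcon
  have e2 : ((S.filter (fun i => HasDigits b pl a (y i))).card : ℝ) =
      ∑ i ∈ S, (if HasDigits b pl a (y i) then (1 : ℝ) else 0) := by
    rw [card_filter]; push_cast; rfl
  rw [e2, ← sum_sub_distrib]
  refine (abs_sum_le_sum_abs _ _).trans ((sum_le_sum hpt).trans ?_)
  rw [sum_comm]
  have h4 : ∀ k : Fin r, ∑ i ∈ S, (256 * b * (Q : ℝ) ^ 2 / q + (if near k i then (1 : ℝ) else 0)) ≤
      S.card * (256 * b * (Q : ℝ) ^ 2 / q) + (4 * S.card / Q + 4 * D) := by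
    intro k
    rw [sum_add_distrib, sum_const, nsmul_eq_mul]
    have h5 : ∑ i ∈ S, (if near k i then (1 : ℝ) else 0) = ((S.filter (near k)).card : ℝ) := by
      rw [card_filter]; push_cast; rfl
    rw [h5]
    have h6 := count_interval S (fun i => y i * (b : ℝ) ^ (pl k + 1)) Q hQ D hD0 (hD k) 0 (near k)
      (fun i hi => hi)
    linarith
  calc _ ≤ ∑ _k : Fin r, (S.card * (256 * b * (Q : ℝ) ^ 2 / q) + (4 * S.card / Q + 4 * D)) :=
        sum_le_sum fun k _ => h4 k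
    _ = _ := by rw [sum_const, card_univ, Fintype.card_fin, nsmul_eq_mul]

/-- the number of `m < b^T` with prescribed digits -/
theorem ref_count (b T r : ℕ) (hb : 2 ≤ b) (pl a : Fin r → ℕ) (hinj : Function.Injective pl)
    (hpl : ∀ k, pl k < T) (ha : ∀ k, a k < b)
    [DecidablePred fun m : ℕ => HasDigits b pl a ((m : ℝ) / ((b ^ T : ℕ) : ℝ))] :
    ((range (b ^ T)).filter (fun m : ℕ => HasDigits b pl a ((m : ℝ) / ((b ^ T : ℕ) : ℝ)))).card =
      b ^ (T - r) := by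
  classical
  have hb0 : 0 < b := by omega
  have hb0R : (0 : ℝ) < b := by exact_mod_cast hb0
  -- the digits of `m / b^T`
  have hdig : ∀ m : ℕ, ∀ p < T, dgt b ((m : ℝ) / ((b ^ T : ℕ) : ℝ) * (b : ℝ) ^ p) =
      ((m / b ^ (T - 1 - p) % b : ℕ) : ℤ) := by
    intro m p hp
    unfold dgt
    have e1 : (m : ℝ) / ((b ^ T : ℕ) : ℝ) * (b : ℝ) ^ p * b = (m : ℝ) / ((b ^ (T - 1 - p) : ℕ) : ℝ) := by
      have : (b : ℝ) ^ T = (b : ℝ) ^ (T - 1 - p) * (b : ℝ) ^ p * b := by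
        rw [← pow_add, ← pow_succ]; congr 1; omega
      push_cast
      rw [this]
      field_simp
    rw [e1, ← Int.natCast_floor_eq_floor (by positivity), Nat.floor_div_eq_div]
    push_cast
    rfl
  set pos : Fin r → Fin T := fun k => ⟨T - 1 - pl k, by have := hpl k; omega⟩ with hpos
  have hposinj : Function.Injective pos := by
    intro k k' h
    simp only [hpos, Fin.mk.injEq] at h
    have h1 := hpl k
    have h2 := hpl k'
    exact hinj (by omega)
  set av : Fin r → Fin b := fun k => ⟨a k, ha k⟩ with hav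
  -- transfer to functions
  have h1 : ((range (b ^ T)).filter (fun m : ℕ => HasDigits b pl a ((m : ℝ) / ((b ^ T : ℕ) : ℝ)))).card =
      (univ.filter (fun f : Fin T → Fin b => ∀ k, f (pos k) = av k)).card := by
    symm
    refine card_bij (fun f _ => (finFunctionFinEquiv f : ℕ)) ?_ ?_ ?_
    · intro f hf
      rw [mem_filter] at hf ⊢
      refine ⟨mem_range.2 (finFunctionFinEquiv f).2, ?_⟩
      intro k
      rw [hdig _ _ (hpl k)]
      have h2 := hf.2 k
      have h3 : (finFunctionFinEquiv.symm (finFunctionFinEquiv f)) (pos k) = av k := by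
        rw [Equiv.symm_apply_apply]; exact h2
      have h4 := congrArg Fin.val h3
      have h5 : ((finFunctionFinEquiv f : ℕ) / b ^ (T - 1 - pl k) % b) = a k := h4
      rw [h5]
    · intro f _ f' _ h
      exact finFunctionFinEquiv.injective (Fin.ext h)
    · intro m hm
      rw [mem_filter, mem_range] at hm
      refine ⟨finFunctionFinEquiv.symm ⟨m, hm.1⟩, ?_, ?_⟩
      · rw [mem_filter]
        refine ⟨mem_univ _, ?_⟩
        intro k
        apply Fin.ext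
        have h2 := hm.2 k
        rw [hdig _ _ (hpl k)] at h2
        have h3 : m / b ^ (T - 1 - pl k) % b = a k := by exact_mod_cast h2
        exact h3
      · rw [Equiv.apply_symm_apply]
  rw [h1]
  have h2 : univ.filter (fun f : Fin T → Fin b => ∀ k, f (pos k) = av k) =
      Fintype.piFinset (fun t : Fin T => if h : ∃ k, pos k = t then {av h.choose} else univ) := by
    ext f
    rw [mem_filter, Fintype.mem_piFinset]
    constructor
    · rintro ⟨_, hf⟩ t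
      split_ifs with h
      · rw [mem_singleton]
        have h3 := h.choose_spec
        rw [← hf h.choose, h3]
      · exact mem_univ _
    · intro hf
      refine ⟨mem_univ _, fun k => ?_⟩
      have h3 := hf (pos k)
      have hex : ∃ k', pos k' = pos k := ⟨k, rfl⟩
      rw [dif_pos hex, mem_singleton] at h3
      have h4 := hposinj hex.choose_spec
      rw [h3, h4]
  rw [h2, Fintype.card_piFinset]
  have h3 : ∀ t : Fin T, (if h : ∃ k, pos k = t then ({av h.choose} : Finset (Fin b)) else univ).card =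
      if t ∈ univ.image pos then 1 else b := by
    intro t
    by_cases h : ∃ k, pos k = t
    · rw [dif_pos h, card_singleton, if_pos]
      obtain ⟨k, hk⟩ := h
      exact mem_image.2 ⟨k, mem_univ _, hk⟩
    · rw [dif_neg h, card_univ, Fintype.card_fin, if_neg]
      intro hmem
      obtain ⟨k, _, hk⟩ := mem_image.1 hmem
      exact h ⟨k, hk⟩
  rw [prod_congr rfl (fun t _ => h3 t), prod_ite, prod_const_one, one_mul, prod_const]
  congr 1
  have h4 : (univ.filter (fun t : Fin T => ¬ t ∈ univ.image pos)).card = T - r := by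
    rw [filter_not, card_sdiff_of_subset (filter_subset _ _)]
    have h5 : univ.filter (fun t : Fin T => t ∈ univ.image pos) = univ.image pos := by
      ext t; simp
    rw [h5, card_image_of_injective _ hposinj, card_univ, card_univ, Fintype.card_fin,
      Fintype.card_fin]
  exact h4

/-- **Comparison.** -/
theorem compare {ι : Type*} (S : Finset ι) (y : ι → ℝ) (b q Q : ℕ) {r : ℕ} (pl a : Fin r → ℕ)
    (hinj : Function.Injective pl)
    (hb : 2 ≤ b) (hq : 1 ≤ q) (hQ : 1 ≤ Q) (ha : ∀ k, a k < b) (g G : ℕ) (hg : ∀ k, g ≤ pl k)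
    (hG : ∀ k, pl k ≤ G) (D : ℝ) (hD0 : 0 ≤ D)
    (hD : ∀ F : ℤ, F ≠ 0 → (b : ℤ) ^ g ∣ F → |F| ≤ ((r * (b * q) + b * Q : ℕ) : ℤ) * (b : ℤ) ^ G →
      ‖∑ i ∈ S, ee (F * y i)‖ ≤ D)
    [DecidablePred fun i => HasDigits b pl a (y i)] :
    |((S.filter (fun i => HasDigits b pl a (y i))).card : ℝ) - S.card / (b : ℝ) ^ r| ≤
      2 * r * S.card * (256 * b * (Q : ℝ) ^ 2 / q + 4 / Q) + 4 * r * D +
        D * (9 + 8 * Real.log ((b * q : ℕ) : ℝ)) ^ r := by
  classical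
  have hb0 : 0 < b := by omega
  have hb1 : 1 ≤ b := by omega
  have hb0R : (0 : ℝ) < b := by exact_mod_cast hb0
  have hbZ : (0 : ℤ) < b := by exact_mod_cast hb0
  -- the frequencies in `cnt_Ph`
  have hfreq : ∀ k : Fin r, ∀ h : ℤ, h ≠ 0 → |h| < Q →
      h * (b : ℤ) ^ (pl k + 1) ≠ 0 ∧ (b : ℤ) ^ g ∣ h * (b : ℤ) ^ (pl k + 1) ∧
      |h * (b : ℤ) ^ (pl k + 1)| ≤ ((r * (b * q) + b * Q : ℕ) : ℤ) * (b : ℤ) ^ G := by
    intro k h h0 hQ'
    refine ⟨mul_ne_zero h0 (by positivity), Dvd.dvd.mul_left (pow_dvd_pow _ (by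
      have := hg k; omega)) _, ?_⟩
    rw [abs_mul, abs_of_pos (show (0 : ℤ) < (b : ℤ) ^ (pl k + 1) by positivity), pow_succ]
    have h1 : (b : ℤ) ^ (pl k) ≤ (b : ℤ) ^ G := pow_le_pow_right₀ (by exact_mod_cast hb1) (hG k)
    have h2 : (0 : ℤ) < (b : ℤ) ^ (pl k) := by positivity
    push_cast
    calc |h| * ((b : ℤ) ^ pl k * b) ≤ Q * ((b : ℤ) ^ G * b) := by gcongr
      _ = (b * Q) * (b : ℤ) ^ G := by ring
      _ ≤ (r * (b * q) + b * Q) * (b : ℤ) ^ G := by
          apply mul_le_mul_of_nonneg_right _ (by positivity)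
          have : (0 : ℤ) ≤ r * (b * q) := by positivity
          linarith
  have hbig : (r : ℤ) * ((b * q : ℕ) : ℤ) * (b : ℤ) ^ G ≤
      ((r * (b * q) + b * Q : ℕ) : ℤ) * (b : ℤ) ^ G := by
    apply mul_le_mul_of_nonneg_right _ (by positivity)
    push_cast
    have : (0 : ℤ) ≤ b * Q := by positivity
    linarith
  -- the set `S`
  have h1 := cnt_Ph S y b q Q pl a hb1 hq hQ D hD0 (fun k h h0 hQ' => by
    obtain ⟨f1, f2, f3⟩ := hfreq k h h0 hQ'
    have := hD _ f1 f2 f3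
    have e : ∀ i, ((h * (b : ℤ) ^ (pl k + 1) : ℤ) : ℝ) * y i = h * (y i * (b : ℝ) ^ (pl k + 1)) := by
      intro i; push_cast; ring
    simp only [e] at this
    exact this)
  have h2 := Ph_sum S y b q pl a hb1 hq ha g G hg hG D hD0 (fun F f1 f2 f3 =>
    hD F f1 f2 (f3.trans hbig))
  -- the reference
  obtain ⟨T, hT⟩ : ∃ T : ℕ, (r * (b * q) + b * Q) * b ^ G < b ^ T :=
    ⟨_, Nat.lt_pow_self (by omega : 1 < b)⟩
  have hGT : G < T := by
    have : b ^ G < b ^ T := by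
      refine lt_of_le_of_lt ?_ hT
      have : 1 ≤ r * (b * q) + b * Q := by
        have : 1 ≤ b * Q := Nat.mul_pos hb0 (by omega)
        omega
      exact Nat.le_mul_of_pos_left _ (by omega)
    exact (Nat.pow_lt_pow_iff_right (by omega)).1 this
  have hrT : r ≤ T := by
    have hle : Fintype.card (Fin r) ≤ Fintype.card (Fin T) := by
      apply Fintype.card_le_of_injective (fun k : Fin r => (⟨pl k, by
        have := hG k; omega⟩ : Fin T))
      intro k k' h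
      simp only [Fin.mk.injEq] at h
      exact hinj h
    simpa using hle
  have hDref : ∀ F : ℤ, F ≠ 0 → |F| ≤ ((r * (b * q) + b * Q : ℕ) : ℤ) * (b : ℤ) ^ G →
      ‖∑ m ∈ range (b ^ T), ee (F * ((m : ℝ) / ((b ^ T : ℕ) : ℝ)))‖ ≤ 0 := by
    intro F h0 hF
    rw [orth (b ^ T) (Nat.one_le_pow _ _ hb0) F, norm_zero]
    intro hdvd
    apply h0
    apply Int.eq_zero_of_abs_lt_dvd hdvd
    refine lt_of_le_of_lt hF ?_
    exact_mod_cast hT
  have h3 := cnt_Ph (range (b ^ T)) (fun m : ℕ => (m : ℝ) / ((b ^ T : ℕ) : ℝ)) b q Q pl a hb1 hq hQ 0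
    le_rfl (fun k h h0 hQ' => by
      obtain ⟨f1, f2, f3⟩ := hfreq k h h0 hQ'
      have := hDref _ f1 f3
      have e : ∀ i : ℕ, ((h * (b : ℤ) ^ (pl k + 1) : ℤ) : ℝ) * ((i : ℝ) / ((b ^ T : ℕ) : ℝ)) =
          h * ((i : ℝ) / ((b ^ T : ℕ) : ℝ) * (b : ℝ) ^ (pl k + 1)) := by
        intro i; push_cast; ring
      simp only [e] at this
      exact this)
  have h4 := Ph_sum (range (b ^ T)) (fun m : ℕ => (m : ℝ) / ((b ^ T : ℕ) : ℝ)) b q pl a hb1 hq ha g G
    hg hG 0 le_rfl (fun F f1 _ f3 => hDref F f1 (f3.trans hbig))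
  rw [ref_count b T r hb pl a hinj (fun k => lt_of_le_of_lt (hG k) hGT) ha] at h3
  rw [card_range] at h3 h4
  rw [zero_mul] at h4
  have h5 := norm_le_zero_iff.1 h4
  rw [sub_eq_zero] at h5
  set U : ℝ := ∑ m ∈ range (b ^ T), Ph b q pl a ((m : ℝ) / ((b ^ T : ℕ) : ℝ)) with hU
  have hBT : (0 : ℝ) < ((b ^ T : ℕ) : ℝ) := by positivity
  have hM : Mc b q pl a = ((U / ((b ^ T : ℕ) : ℝ) : ℝ) : ℂ) := by
    have hbc : (b : ℂ) ^ T ≠ 0 := pow_ne_zero _ (by exact_mod_cast hb0.ne')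
    push_cast at h5 ⊢
    rw [h5]
    field_simp
  set V : ℝ := ∑ i ∈ S, Ph b q pl a (y i) with hV
  have h6 : |V - S.card * (U / ((b ^ T : ℕ) : ℝ))| ≤
      D * (9 + 8 * Real.log ((b * q : ℕ) : ℝ)) ^ r := by
    rw [hM] at h2
    have e : ((V : ℝ) : ℂ) - S.card * ((U / ((b ^ T : ℕ) : ℝ) : ℝ) : ℂ) =
        ((V - S.card * (U / ((b ^ T : ℕ) : ℝ)) : ℝ) : ℂ) := by push_cast; ring
    rw [e, Complex.norm_real, Real.norm_eq_abs] at h2
    exact h2
  set ε0 : ℝ := 256 * b * (Q : ℝ) ^ 2 / q with hε0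
  have hε0' : 0 ≤ ε0 := by positivity
  have h7 : |1 / (b : ℝ) ^ r - U / ((b ^ T : ℕ) : ℝ)| ≤ r * (ε0 + 4 / Q) := by
    have e1 : (((b ^ (T - r) : ℕ)) : ℝ) = ((b ^ T : ℕ) : ℝ) * (1 / (b : ℝ) ^ r) := by
      have : (b : ℝ) ^ T = (b : ℝ) ^ (T - r) * (b : ℝ) ^ r := by
        rw [← pow_add]; congr 1; omega
      push_cast
      rw [this]
      field_simp
    rw [e1] at h3
    have e2 : ((b ^ T : ℕ) : ℝ) * (1 / (b : ℝ) ^ r) - U =
        ((b ^ T : ℕ) : ℝ) * (1 / (b : ℝ) ^ r - U / ((b ^ T : ℕ) : ℝ)) := by field_simp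
    rw [e2, abs_mul, abs_of_pos hBT] at h3
    have e3 : (r : ℝ) * (((b ^ T : ℕ) : ℝ) * ε0 + (4 * ((b ^ T : ℕ) : ℝ) / Q + 4 * 0)) =
        ((b ^ T : ℕ) : ℝ) * (r * (ε0 + 4 / Q)) := by ring
    rw [e3] at h3
    exact le_of_mul_le_mul_left h3 hBT
  have h8 : |S.card * (1 / (b : ℝ) ^ r) - S.card * (U / ((b ^ T : ℕ) : ℝ))| ≤
      S.card * (r * (ε0 + 4 / Q)) := by
    rw [← mul_sub, abs_mul, abs_of_nonneg (by positivity : (0 : ℝ) ≤ S.card)]
    exact mul_le_mul_of_nonneg_left h7 (by positivity)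
  have e9 : (S.card : ℝ) / (b : ℝ) ^ r = S.card * (1 / (b : ℝ) ^ r) := by ring
  rw [e9]
  rw [abs_le] at h1 h6 h8 ⊢
  have e10 : (r : ℝ) * (S.card * ε0 + (4 * S.card / Q + 4 * D)) =
      r * S.card * (ε0 + 4 / Q) + 4 * r * D := by ring
  rw [e10] at h1
  have e11 : (S.card : ℝ) * (r * (ε0 + 4 / Q)) = r * S.card * (ε0 + 4 / Q) := by ring
  rw [e11] at h8
  constructor <;> linarith [h1.1, h1.2, h6.1, h6.2, h8.1, h8.2]

end Pool.Agent.TH373.DR
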