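import Pool.Agent.TH373.DR2.Sig

set_option autoImplicit false

/-!
The functions `x ^ ρ h(x ^ (-τ))` with `h` analytic at `0`, `h 0 ≠ 0`.
-/

namespace Pool.Agent.TH373.DR

open Finset Filter Topology

/-- `x^(ρ-k) G_k(x^(-τ))` is the `k`-th derivative of `x^ρ h(x^(-τ))` -/
noncomputable def GG (ρ τ : ℝ) (h : ℝ → ℝ) : ℕ → ℝ → ℝ
  | 0 => h
  | k + 1 => fun t => (ρ - k) * GG ρ τ h k t - τ * t * deriv (GG ρ τ h k) t

theorem GG_analytic (ρ τ : ℝ) (h : ℝ → ℝ) (t : ℝ) (hh : AnalyticAt ℝ h t) (k : ℕ) :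
    AnalyticAt ℝ (GG ρ τ h k) t := by
  induction k with
  | zero => exact hh
  | succ k ih =>
    show AnalyticAt ℝ (fun t => (ρ - k) * GG ρ τ h k t - τ * t * deriv (GG ρ τ h k) t) t
    exact (analyticAt_const.mul ih).sub ((analyticAt_const.mul analyticAt_id).mul ih.deriv)

theorem GG_zero (ρ τ : ℝ) (h : ℝ → ℝ) (k : ℕ) : GG ρ τ h k 0 = fall ρ k * h 0 := by
  induction k with
  | zero => simp [GG, fall]
  | succ k ih =>
    show (ρ - k) * GG ρ τ h k 0 - τ * 0 * deriv (GG ρ τ h k) 0 = _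
    rw [ih]
    unfold fall
    rw [Finset.prod_range_succ]
    ring

/-- **Puiseux type functions are regular.** -/
theorem reg_puiseux (ρ τ : ℝ) (hρ : ∀ n : ℕ, ρ ≠ n) (hτ : 0 < τ) (h : ℝ → ℝ)
    (hh : AnalyticAt ℝ h 0) (h0 : h 0 ≠ 0) :
    ∃ s : ℝ, Reg ρ ⌈ρ⌉₊ s (fun k x => x ^ (ρ - k) * GG ρ τ h k (x ^ (-τ))) := by
  have hfam := fam_pow ρ hρ
  have ht0 : Tendsto (fun x : ℝ => x ^ (-τ)) atTop (𝓝 0) := tendsto_rpow_neg_atTop hτ
  -- the sign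
  obtain ⟨s1, hs1, hs1'⟩ : ∃ s1 : ℝ, (s1 = 1 ∨ s1 = -1) ∧ s1 * h 0 = |h 0| := by
    rcases lt_or_gt_of_ne h0 with hlt | hgt
    · exact ⟨-1, Or.inr rfl, by rw [abs_of_neg hlt]; ring⟩
    · exact ⟨1, Or.inl rfl, by rw [abs_of_pos hgt]; ring⟩
  refine ⟨(-1) ^ ⌈ρ⌉₊ * s1, ?_, Nat.le_ceil ρ, ?_, ?_⟩
  · rcases neg_one_pow_eq_or ℝ ⌈ρ⌉₊ with h2 | h2 <;> rcases hs1 with h3 | h3 <;> rw [h2, h3] <;>
      norm_num
  · -- derivatives
    have hev : ∀ᶠ x : ℝ in atTop, AnalyticAt ℝ h (x ^ (-τ)) := ht0.eventually hh.eventually_analyticAt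
    obtain ⟨x0, hx0⟩ := eventually_atTop.1 hev
    refine ⟨max x0 1, lt_of_lt_of_le one_pos (le_max_right _ _), fun i x hx => ?_⟩
    have hx1 : 1 ≤ x := (le_max_right _ _).trans hx
    have hxpos : 0 < x := by linarith
    have han := hx0 x ((le_max_left _ _).trans hx)
    have a1 := Real.hasDerivAt_rpow_const (x := x) (p := ρ - i) (Or.inl hxpos.ne')
    have a2 := Real.hasDerivAt_rpow_const (x := x) (p := -τ) (Or.inl hxpos.ne')
    have a3 := (GG_analytic ρ τ h (x ^ (-τ)) han i).differentiableAt.hasDerivAt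
    have a4 := a3.comp x a2
    have a5 := a1.mul a4
    refine a5.congr_deriv ?_
    have e1 : x ^ (ρ - ((i + 1 : ℕ) : ℝ)) = x ^ (ρ - i - 1) := by
      congr 1; push_cast; ring
    have e2 : x ^ (-τ - 1) * x ^ (ρ - i) = x ^ (ρ - i - 1) * x ^ (-τ) := by
      rw [← Real.rpow_add hxpos, ← Real.rpow_add hxpos]; congr 1; ring
    show (ρ - i) * x ^ (ρ - i - 1) * GG ρ τ h i (x ^ (-τ)) +
      x ^ (ρ - i) * (deriv (GG ρ τ h i) (x ^ (-τ)) * (-τ * x ^ (-τ - 1))) =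
      x ^ (ρ - ((i + 1 : ℕ) : ℝ)) * ((ρ - i) * GG ρ τ h i (x ^ (-τ)) -
        τ * x ^ (-τ) * deriv (GG ρ τ h i) (x ^ (-τ)))
    rw [e1]
    calc (ρ - i) * x ^ (ρ - i - 1) * GG ρ τ h i (x ^ (-τ)) +
        x ^ (ρ - i) * (deriv (GG ρ τ h i) (x ^ (-τ)) * (-τ * x ^ (-τ - 1)))
        = (ρ - i) * x ^ (ρ - i - 1) * GG ρ τ h i (x ^ (-τ)) -
          τ * deriv (GG ρ τ h i) (x ^ (-τ)) * (x ^ (-τ - 1) * x ^ (ρ - i)) := by ring
      _ = _ := by rw [e2]; ring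
  · -- sizes
    intro k hk
    set Lk : ℝ := |fall ρ k| * |h 0| with hLk
    have hfpos : 0 < |fall ρ k| := hfam.hc k hk
    have hLpos : 0 < Lk := mul_pos hfpos (abs_pos.2 h0)
    have hsign : (-1 : ℝ) ^ ⌈ρ⌉₊ * (-1) ^ k * fall ρ k = |fall ρ k| := by
      have h1 := hfam.val k hk 1 one_pos
      simp only [Real.one_rpow, mul_one] at h1
      have e2 : ((-1 : ℝ) ^ k) * ((-1) ^ k) = 1 := by
        rw [← mul_pow]; norm_num
      have e3 : ((-1 : ℝ) ^ ⌈ρ⌉₊) * ((-1) ^ ⌈ρ⌉₊) = 1 := by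
        rw [← mul_pow]; norm_num
      calc (-1 : ℝ) ^ ⌈ρ⌉₊ * (-1) ^ k * fall ρ k
          = (-1 : ℝ) ^ ⌈ρ⌉₊ * (-1) ^ k * ((-1) ^ ⌈ρ⌉₊ * (-1) ^ k * |fall ρ k|) := by rw [← h1]
        _ = ((-1 : ℝ) ^ ⌈ρ⌉₊ * (-1) ^ ⌈ρ⌉₊) * ((-1) ^ k * (-1) ^ k) * |fall ρ k| := by ring
        _ = |fall ρ k| := by rw [e2, e3]; ring
    have hval0 : (-1 : ℝ) ^ ⌈ρ⌉₊ * s1 * (-1) ^ k * GG ρ τ h k 0 = Lk := by
      rw [GG_zero, hLk, ← hsign, ← hs1']; ring
    have hcont : ContinuousAt (fun t => (-1 : ℝ) ^ ⌈ρ⌉₊ * s1 * (-1) ^ k * GG ρ τ h k t) 0 :=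
      continuousAt_const.mul (GG_analytic ρ τ h 0 hh k).continuousAt
    have htend : Tendsto (fun x : ℝ => (-1 : ℝ) ^ ⌈ρ⌉₊ * s1 * (-1) ^ k * GG ρ τ h k (x ^ (-τ)))
        atTop (𝓝 Lk) := by
      have := hcont.tendsto.comp ht0
      rw [hval0] at this
      exact this
    have hev := (htend.eventually (le_mem_nhds (show Lk / 2 < Lk by linarith))).and
      (htend.eventually (ge_mem_nhds (show Lk < 2 * Lk by linarith)))
    obtain ⟨x1, hx1⟩ := eventually_atTop.1 hev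
    refine ⟨Lk / 2, by positivity, 2 * Lk, by linarith, max x1 1, fun x hx => ?_⟩
    have hxpos : 0 < x := lt_of_lt_of_le one_pos ((le_max_right _ _).trans hx)
    obtain ⟨b1, b2⟩ := hx1 x ((le_max_left _ _).trans hx)
    have hp : 0 ≤ x ^ (ρ - (k : ℝ)) := by positivity
    have e : (-1 : ℝ) ^ ⌈ρ⌉₊ * s1 * (-1) ^ k * (x ^ (ρ - (k : ℝ)) * GG ρ τ h k (x ^ (-τ))) =
        ((-1 : ℝ) ^ ⌈ρ⌉₊ * s1 * (-1) ^ k * GG ρ τ h k (x ^ (-τ))) * x ^ (ρ - (k : ℝ)) := by ring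
    rw [e]
    exact ⟨mul_le_mul_of_nonneg_right b1 hp, mul_le_mul_of_nonneg_right b2 hp⟩

/-- exponents `θ > 0`: every place is admissible -/
theorem dens_pos {θ : ℝ} {s : ℝ} {f : ℕ → ℝ → ℝ} (hf : Reg θ ⌈θ⌉₊ s f) (hθ : 0 < θ)
    (b : ℕ) (hb : 2 ≤ b) (α β : ℝ) (hα : α ≠ 0) (adm : ℕ → ℕ → Prop) :
    Dens b (fun n => α * f 0 n + β) adm := by
  intro A hA
  have hE : ((max 2 ⌈θ⌉₊ : ℕ) : ℝ) - 2 - θ < 0 * Real.log b := by
    rw [zero_mul]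
    rcases le_total 2 ⌈θ⌉₊ with h | h
    · rw [max_eq_right h]
      have := Nat.ceil_lt_add_one hθ.le
      linarith
    · rw [max_eq_left h]
      push_cast
      linarith
  obtain ⟨κ, hκ, X0, h⟩ := density hf b hb α β hα 0 A le_rfl hA hE
  refine ⟨κ, hκ, 33, by norm_num, max X0 3, fun X hX j l hj hl hlκ Z S hS => ?_⟩
  have g0 := (le_max_left X0 3).trans hX
  have g1 : 3 ≤ X := (le_max_right X0 3).trans hX
  have hXpos : (0 : ℝ) < X := by exact_mod_cast (by omega : 0 < X)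
  have hlog : 1 ≤ Real.log X := by
    rw [Real.le_log_iff_exp_le hXpos]
    have : Real.exp 1 < 2.7182818286 := Real.exp_one_lt_d9
    have : (3 : ℝ) ≤ X := by exact_mod_cast g1
    linarith
  have h1 := h X g0 j l (by rw [zero_mul]; positivity) hj hl hlκ Z S (fun n hn => by
    obtain ⟨a1, a2, _, a4⟩ := hS n hn
    exact ⟨a1, a2, a4⟩)
  have hb0 : (0 : ℝ) < (b : ℝ) ^ l := by
    have : (0 : ℝ) < b := by exact_mod_cast (by omega : 0 < b)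
    positivity
  have h2 : 33 * (X : ℝ) * Z.card / (b : ℝ) ^ l ≤ 33 * Real.log X * X * Z.card / (b : ℝ) ^ l := by
    apply div_le_div_of_nonneg_right _ hb0.le
    have : 33 * (X : ℝ) * Z.card ≤ Real.log X * (33 * X * Z.card) :=
      le_mul_of_one_le_left (by positivity) hlog
    calc 33 * (X : ℝ) * Z.card ≤ Real.log X * (33 * X * Z.card) := this
      _ = _ := by ring
  linarith

/-- digits do not see integers -/
theorem dv_add_int (b k : ℕ) (hb : 2 ≤ b) (w : Fin k → Fin b) (x : ℝ) (m : ℤ) (i L : ℕ) :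
    dv b k w (x + m) i L = dv b k w x i L := by
  classical
  unfold dv oc
  have : (range L).filter (fun j => ∀ s : Fin k,
      ⌊(x + m) * (b : ℝ) ^ (i + j + s + 1)⌋ % (b : ℤ) = ((w s : ℕ) : ℤ)) =
      (range L).filter (fun j => ∀ s : Fin k,
      ⌊x * (b : ℝ) ^ (i + j + s + 1)⌋ % (b : ℤ) = ((w s : ℕ) : ℤ)) := by
    apply filter_congr
    intro j _
    apply forall_congr'
    intro s
    have e1 : (x + m) * (b : ℝ) ^ (i + j + s + 1) = x * (b : ℝ) ^ (i + j + s + 1) +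
        ((m * (b : ℤ) ^ (i + j + s) * b : ℤ) : ℝ) := by
      push_cast; ring
    rw [e1, Int.floor_add_intCast, Int.add_mul_emod_self_right]
  rw [this]

end Pool.Agent.TH373.DR
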