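import Pool.Agent.TH373.DR2.Chern3

set_option autoImplicit false

/-!
Exponents `θ ≤ 0`: density of words from the first significant place on.
-/

namespace Pool.Agent.TH373.DR

open Finset Pool.Agent.Helper153.Vdc Pool.Agent.W226.MP

/-- **Density of words at the significant places.** -/
theorem dens_sig {θ : ℝ} {k0 : ℕ} {s : ℝ} {f : ℕ → ℝ → ℝ} (hf : Reg θ k0 s f)
    (hk0 : k0 ≤ 1) (hθ : θ ≤ 0) (b : ℕ) (hb : 2 ≤ b) (α β : ℝ) (hα : α ≠ 0) :
    Dens b (fun n => α * f 0 n + β) (fun j n => 1 ≤ (b : ℝ) ^ j * (n : ℝ) ^ θ) := by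
  classical
  intro A hA
  have hbR : (2 : ℝ) ≤ b := by exact_mod_cast hb
  have hlb : 0 < Real.log b := Real.log_pos (by linarith)
  have hα0 : 0 < |α| := abs_pos.2 hα
  set A2 : ℝ := A * Real.log b + 2 with hA2
  have hA2pos : 0 < A2 := by positivity
  obtain ⟨σ, hσ, C, hC, hsum⟩ := hf.expsum (1 / 8) (2 * A2) (by norm_num) (by norm_num)
  obtain ⟨C3, hC3, Q, hlow⟩ := hf.low hk0
  set σ' := min σ (1 / 2) with hσ'
  have hσ'0 : 0 < σ' := lt_min hσ (by norm_num)
  have hσ'1 : σ' ≤ 1 / 2 := min_le_right _ _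
  set κ := σ' / (2 * Real.log b) with hκdef
  have hκ : 0 < κ := by positivity
  have hκ2 : κ * Real.log b = σ' / 2 := by
    rw [hκdef]; field_simp
  set C5 : ℝ := C3 * (2 + |α| + 1 / |α|) + (32 + 4 * C) with hC5
  have hC5pos : 0 < C5 := by positivity
  refine ⟨κ, hκ, 4 * C5, by positivity, ?_⟩
  obtain ⟨X1, hX1⟩ := large (1 / 8) (1 / 4) (by norm_num) |α|⁻¹
  obtain ⟨X2, hX2⟩ := large (A2 - 1) A2 (by linarith) |α|
  refine ⟨max (max X1 X2) (max (Q ^ 2) 3), fun X hX j l hj2 hl2 hlκ Z S hS => ?_⟩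
  simp only [max_le_iff] at hX
  obtain ⟨⟨g1, g2⟩, g3, g6⟩ := hX
  have hX1' : (1 : ℝ) ≤ X := by exact_mod_cast (by omega : 1 ≤ X)
  have hXpos : (0 : ℝ) < X := by linarith
  have hlog : 1 ≤ Real.log X := by
    rw [Real.le_log_iff_exp_le hXpos]
    have : Real.exp 1 < 2.7182818286 := Real.exp_one_lt_d9
    have : (3 : ℝ) ≤ X := by exact_mod_cast g6
    linarith
  set W : ℕ := b ^ l with hW
  have hW4 : 4 ≤ W := by
    calc 4 = 2 ^ 2 := by norm_num
      _ ≤ b ^ 2 := Nat.pow_le_pow_left hb 2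
      _ ≤ b ^ l := Nat.pow_le_pow_right (by omega) hl2
  have hWle : (W : ℝ) ≤ (X : ℝ) ^ (σ' / 2) := by
    have e1 : (W : ℝ) = Real.exp (l * Real.log b) := by
      rw [hW]; push_cast
      rw [← Real.exp_log (show (0 : ℝ) < b by linarith), ← Real.exp_nat_mul,
        Real.exp_log (show (0 : ℝ) < b by linarith)]
    rw [e1, Real.rpow_def_of_pos hXpos]
    apply Real.exp_le_exp.2
    calc (l : ℝ) * Real.log b ≤ (κ * Real.log X) * Real.log b :=
          mul_le_mul_of_nonneg_right hlκ hlb.le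
      _ = (κ * Real.log b) * Real.log X := by ring
      _ = _ := by rw [hκ2]; ring
  have hW14 : (W : ℝ) ≤ (X : ℝ) ^ (1 / 4 : ℝ) :=
    hWle.trans (Real.rpow_le_rpow_of_exponent_le hX1' (by linarith))
  have hWpos : (0 : ℝ) < W := by exact_mod_cast (by omega : 0 < W)
  have hW1 : (1 : ℝ) ≤ W := by exact_mod_cast (by omega : 1 ≤ W)
  -- `X^(1/4) W ≤ X`
  have hXW : (X : ℝ) ^ (1 / 4 : ℝ) ≤ X / W := by
    rw [le_div_iff₀ hWpos]
    calc (X : ℝ) ^ (1 / 4 : ℝ) * W ≤ (X : ℝ) ^ (1 / 4 : ℝ) * (X : ℝ) ^ (1 / 4 : ℝ) :=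
          mul_le_mul_of_nonneg_left hW14 (by positivity)
      _ = (X : ℝ) ^ (1 / 2 : ℝ) := by rw [← Real.rpow_add hXpos]; norm_num
      _ ≤ (X : ℝ) ^ (1 : ℝ) := Real.rpow_le_rpow_of_exponent_le hX1' (by norm_num)
      _ = X := Real.rpow_one _
  have hXW1 : 1 ≤ (X : ℝ) / W := by
    refine le_trans ?_ hXW
    exact Real.one_le_rpow hX1' (by norm_num)
  set p : ℕ → Prop := fun n => 1 ≤ (b : ℝ) ^ j * (n : ℝ) ^ θ ∧
    ⌊Int.fract ((α * f 0 n + β) * (b : ℝ) ^ j) * (W : ℝ)⌋₊ ∈ Z with hp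
  set D : ℝ := C * (X : ℝ) ^ (1 - σ') with hDdef
  have hD0 : 0 ≤ D := by positivity
  have hDW : D ≤ C * (X / W) := by
    rw [hDdef]
    apply mul_le_mul_of_nonneg_left _ (by linarith)
    rw [le_div_iff₀ hWpos]
    calc (X : ℝ) ^ (1 - σ') * W ≤ (X : ℝ) ^ (1 - σ') * (X : ℝ) ^ (σ' / 2) :=
          mul_le_mul_of_nonneg_left hWle (by positivity)
      _ = (X : ℝ) ^ (1 - σ' / 2) := by rw [← Real.rpow_add hXpos]; congr 1; ring
      _ ≤ (X : ℝ) ^ (1 : ℝ) := Real.rpow_le_rpow_of_exponent_le hX1' (by linarith)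
      _ = X := Real.rpow_one _
  set B : ℝ := Z.card * (C5 * (X / W)) with hB
  have hB0 : 0 ≤ B := by positivity
  -- one block
  have hblock : ∀ P M : ℕ, P + M ≤ X → Nat.sqrt X + 1 ≤ P → M ≤ P →
      (((range M).filter (fun m => p (P + 1 + m))).card : ℝ) ≤ B := by
    intro P M hPM hsq hMP
    have hP1 : 1 ≤ P := by omega
    have hPX : P ≤ X := by omega
    have hXP : X ≤ P ^ 2 := by
      have := Nat.lt_succ_sqrt' X
      calc X ≤ (Nat.sqrt X + 1) ^ 2 := this.le
        _ ≤ P ^ 2 := Nat.pow_le_pow_left hsq 2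
    have hP1R : (1 : ℝ) ≤ P := by exact_mod_cast hP1
    have hPpos : (0 : ℝ) < P := by linarith
    have hPXR : (P : ℝ) ≤ X := by exact_mod_cast hPX
    have hQP : Q ≤ P := by
      have : Q ≤ Nat.sqrt X := by
        rw [Nat.le_sqrt']
        exact g3
      omega
    -- the cells
    have hcells : (((range M).filter (fun m => p (P + 1 + m))).card : ℝ) ≤
        (((range M).filter (fun m => ⌊Int.fract ((α * f 0 ((P + 1 + m : ℕ) : ℝ) + β) *
          (b : ℝ) ^ j) * (W : ℝ)⌋₊ ∈ Z)).card : ℝ) := by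
      have : (range M).filter (fun m => p (P + 1 + m)) ⊆
          (range M).filter (fun m => ⌊Int.fract ((α * f 0 ((P + 1 + m : ℕ) : ℝ) + β) *
          (b : ℝ) ^ j) * (W : ℝ)⌋₊ ∈ Z) := by
        intro m hm
        rw [mem_filter] at hm ⊢
        exact ⟨hm.1, hm.2.2⟩
      exact_mod_cast card_le_card this
    rcases lt_or_ge ((b : ℝ) ^ j * (P : ℝ) ^ θ) 1 with hns | hsig
    · -- not significant
      have : (range M).filter (fun m => p (P + 1 + m)) = ∅ := by
        rw [eq_empty_iff_forall_notMem]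
        intro m hm
        rw [mem_filter] at hm
        have h1 := hm.2.1
        have h2 : ((P + 1 + m : ℕ) : ℝ) ^ θ ≤ (P : ℝ) ^ θ :=
          Real.rpow_le_rpow_of_nonpos hPpos (by push_cast; linarith [(Nat.cast_nonneg m : (0 : ℝ) ≤ m)]) hθ
        have h3 : (b : ℝ) ^ j * ((P + 1 + m : ℕ) : ℝ) ^ θ ≤ (b : ℝ) ^ j * (P : ℝ) ^ θ :=
          mul_le_mul_of_nonneg_left h2 (by positivity)
        linarith
      rw [this]
      simp only [card_empty, Nat.cast_zero]
      exact hB0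
    rcases le_or_gt ((b : ℝ) ^ j * (P : ℝ) ^ θ) ((X : ℝ) ^ (1 / 4 : ℝ)) with hlo | hhi
    · -- low frequency
      refine hcells.trans ?_
      set F : ℝ := α * (b : ℝ) ^ j with hF
      have hF0 : F ≠ 0 := mul_ne_zero hα (by positivity)
      have hFabs : |F| * (P : ℝ) ^ θ = |α| * ((b : ℝ) ^ j * (P : ℝ) ^ θ) := by
        rw [hF, abs_mul, abs_of_pos (show (0 : ℝ) < (b : ℝ) ^ j by positivity)]; ring
      have h1 : ∀ z ∈ Z, (((range M).filter (fun m => ⌊Int.fract ((α * f 0 ((P + 1 + m : ℕ) : ℝ) + β) *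
          (b : ℝ) ^ j) * (W : ℝ)⌋₊ = z)).card : ℝ) ≤ C3 * (2 + |α| + 1 / |α|) * (X / W) := by
        intro z _
        have h2 := hlow P M W z hQP hP1 hMP (by omega) F (β * (b : ℝ) ^ j) hF0
        have e1 : (range M).filter (fun m => ⌊Int.fract ((α * f 0 ((P + 1 + m : ℕ) : ℝ) + β) *
            (b : ℝ) ^ j) * (W : ℝ)⌋₊ = z) = (range M).filter (fun m : ℕ =>
            ⌊Int.fract (F * f 0 ((P + 1 + m : ℕ) : ℝ) + β * (b : ℝ) ^ j) * (W : ℝ)⌋₊ = z) := by
          apply filter_congr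
          intro m _
          have : (α * f 0 ((P + 1 + m : ℕ) : ℝ) + β) * (b : ℝ) ^ j =
              F * f 0 ((P + 1 + m : ℕ) : ℝ) + β * (b : ℝ) ^ j := by rw [hF]; ring
          rw [this]
        rw [e1]
        refine h2.trans ?_
        rw [hFabs, mul_assoc C3]
        apply mul_le_mul_of_nonneg_left _ hC3.le
        have a1 : (P : ℝ) / W ≤ X / W := by gcongr
        have a2 : |α| * ((b : ℝ) ^ j * (P : ℝ) ^ θ) ≤ |α| * (X / W) :=
          mul_le_mul_of_nonneg_left (hlo.trans hXW) hα0.le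
        have a3 : (P : ℝ) / (W * (|α| * ((b : ℝ) ^ j * (P : ℝ) ^ θ))) ≤ 1 / |α| * (X / W) := by
          have : 1 / |α| * ((X : ℝ) / W) = X / (W * (|α| * 1)) := by field_simp
          rw [this]
          gcongr
        calc (P : ℝ) / W + |α| * ((b : ℝ) ^ j * (P : ℝ) ^ θ) +
              P / (W * (|α| * ((b : ℝ) ^ j * (P : ℝ) ^ θ))) + 1
            ≤ X / W + |α| * (X / W) + 1 / |α| * (X / W) + X / W := by linarith
          _ = _ := by ring
      have h2 : ((range M).filter (fun m => ⌊Int.fract ((α * f 0 ((P + 1 + m : ℕ) : ℝ) + β) *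
          (b : ℝ) ^ j) * (W : ℝ)⌋₊ ∈ Z)).card =
          ∑ z ∈ Z, ((range M).filter (fun m => ⌊Int.fract ((α * f 0 ((P + 1 + m : ℕ) : ℝ) + β) *
          (b : ℝ) ^ j) * (W : ℝ)⌋₊ = z)).card := by
        rw [← card_biUnion]
        · congr 1
          ext i
          simp only [mem_filter, mem_biUnion]
          constructor
          · rintro ⟨h1, h2⟩; exact ⟨_, h2, h1, rfl⟩
          · rintro ⟨z, h1, h2, h3⟩; exact ⟨h2, h3 ▸ h1⟩
        · intro a _ c _ hac
          rw [Function.onFun, disjoint_left]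
          intro i hi hi2
          rw [mem_filter] at hi hi2
          exact hac (hi.2.symm.trans hi2.2)
      rw [h2, Nat.cast_sum]
      refine (sum_le_sum h1).trans ?_
      calc ∑ z ∈ Z, (C3 * (2 + |α| + 1 / |α|) * ((X : ℝ) / W))
          = Z.card * (C3 * (2 + |α| + 1 / |α|) * ((X : ℝ) / W)) := by rw [sum_const, nsmul_eq_mul]
        _ ≤ B := by
            rw [hB]
            apply mul_le_mul_of_nonneg_left _ (by positivity)
            apply mul_le_mul_of_nonneg_right _ (by positivity)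
            rw [hC5]
            linarith
    · -- high frequency
      refine hcells.trans ?_
      have hbi : (b : ℝ) ^ j = Real.exp (j * Real.log b) := by
        rw [← Real.exp_log (show (0 : ℝ) < b by linarith), ← Real.exp_nat_mul,
          Real.exp_log (show (0 : ℝ) < b by linarith)]
      have hmax : ((max 2 k0 : ℕ) : ℝ) = 2 := by
        rw [max_eq_left (by omega)]; norm_num
      have hD : ∀ h : ℤ, h ≠ 0 → |h| < W → ‖∑ m ∈ range M,
          ee (h * ((α * f 0 ((P + 1 + m : ℕ) : ℝ) + β) * (b : ℝ) ^ j))‖ ≤ D := by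
        intro h h0 hhW
        have e1 : ∀ m : ℕ, (h : ℝ) * ((α * f 0 ((P + 1 + m : ℕ) : ℝ) + β) * (b : ℝ) ^ j) =
            (h * α * (b : ℝ) ^ j) * f 0 ((P : ℝ) + 1 + m) + h * β * (b : ℝ) ^ j := by
          intro m; push_cast; ring
        simp only [e1]
        rw [ee_norm_const (range M) (fun m : ℕ => (h * α * (b : ℝ) ^ j) * f 0 ((P : ℝ) + 1 + m))]
        have hh1 : (1 : ℝ) ≤ |(h : ℝ)| := by exact_mod_cast Int.one_le_abs h0
        have hhWR : |(h : ℝ)| ≤ W := by exact_mod_cast hhW.le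
        have eabs : |(h : ℝ) * α * (b : ℝ) ^ j| = |(h : ℝ)| * |α| * (b : ℝ) ^ j := by
          rw [abs_mul, abs_mul, abs_of_pos (show (0 : ℝ) < (b : ℝ) ^ j by positivity)]
        refine (hsum P M _ hP1 hMP ?_ ?_).trans ?_
        · -- lower bound of the frequency
          rw [hmax, eabs]
          have e2 : (P : ℝ) ^ ((2 : ℝ) - 2 - θ + 1 / 8) = (P : ℝ) ^ (-θ) * (P : ℝ) ^ (1 / 8 : ℝ) := by
            rw [← Real.rpow_add hPpos]; congr 1; ring
          rw [e2]
          have h3 := hX1 X g1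
          have h4 : (X : ℝ) ^ (1 / 8 : ℝ) ≤ |α| * (X : ℝ) ^ (1 / 4 : ℝ) := by
            rw [inv_mul_le_iff₀ hα0] at h3
            exact h3
          have h5 : (P : ℝ) ^ (1 / 8 : ℝ) ≤ (X : ℝ) ^ (1 / 8 : ℝ) :=
            Real.rpow_le_rpow hPpos.le hPXR (by norm_num)
          have h6 : (P : ℝ) ^ (-θ) * (P : ℝ) ^ θ = 1 := by
            rw [← Real.rpow_add hPpos, neg_add_cancel, Real.rpow_zero]
          calc (P : ℝ) ^ (-θ) * (P : ℝ) ^ (1 / 8 : ℝ)
              ≤ (P : ℝ) ^ (-θ) * (|α| * ((b : ℝ) ^ j * (P : ℝ) ^ θ)) := by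
                apply mul_le_mul_of_nonneg_left _ (by positivity)
                refine h5.trans (h4.trans ?_)
                exact mul_le_mul_of_nonneg_left hhi.le hα0.le
            _ = ((P : ℝ) ^ (-θ) * (P : ℝ) ^ θ) * (1 * |α| * (b : ℝ) ^ j) := by ring
            _ = 1 * |α| * (b : ℝ) ^ j := by rw [h6, one_mul]
            _ ≤ _ := by gcongr
        · -- upper bound of the frequency
          rw [eabs]
          have h5 : (b : ℝ) ^ j ≤ (X : ℝ) ^ (A * Real.log b) := by
            rw [hbi, Real.rpow_def_of_pos hXpos]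
            apply Real.exp_le_exp.2
            calc (j : ℝ) * Real.log b ≤ (A * Real.log X) * Real.log b :=
                  mul_le_mul_of_nonneg_right hj2 hlb.le
              _ = _ := by ring
          have h7 : (W : ℝ) ≤ X := by
            calc (W : ℝ) ≤ (X : ℝ) ^ (σ' / 2) := hWle
              _ ≤ (X : ℝ) ^ (1 : ℝ) := Real.rpow_le_rpow_of_exponent_le hX1' (by linarith)
              _ = X := Real.rpow_one _
          have h8 := hX2 X g2
          calc |(h : ℝ)| * |α| * (b : ℝ) ^ j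
              ≤ X * |α| * (X : ℝ) ^ (A * Real.log b) := by
                gcongr
                exact hhWR.trans h7
            _ = |α| * (X : ℝ) ^ (A2 - 1) := by
                have : (X : ℝ) ^ (A2 - 1) = X * (X : ℝ) ^ (A * Real.log b) := by
                  rw [hA2]
                  nth_rewrite 2 [← Real.rpow_one (X : ℝ)]
                  rw [← Real.rpow_add hXpos]
                  congr 1; ring
                rw [this]; ring
            _ ≤ (X : ℝ) ^ A2 := h8
            _ ≤ ((P : ℝ) ^ 2) ^ A2 := by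
                apply Real.rpow_le_rpow hXpos.le _ hA2pos.le
                exact_mod_cast hXP
            _ = (P : ℝ) ^ (2 * A2) := by
                rw [← Real.rpow_natCast (P : ℝ) 2, ← Real.rpow_mul hPpos.le]
                norm_num
        · apply mul_le_mul_of_nonneg_left _ (by linarith)
          calc (P : ℝ) ^ (1 - σ) ≤ (P : ℝ) ^ (1 - σ') :=
                Real.rpow_le_rpow_of_exponent_le hP1R (by
                  have : σ' ≤ σ := min_le_left _ _
                  linarith)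
            _ ≤ (X : ℝ) ^ (1 - σ') := Real.rpow_le_rpow hPpos.le hPXR (by linarith)
      have hcw := count_words (range M) (fun m => (α * f 0 ((P + 1 + m : ℕ) : ℝ) + β) * (b : ℝ) ^ j)
        W hW4 D hD0 hD Z
      rw [card_range] at hcw
      refine hcw.trans ?_
      rw [hB]
      apply mul_le_mul_of_nonneg_left _ (by positivity)
      have hMX : (M : ℝ) ≤ X := by exact_mod_cast (by omega : M ≤ X)
      have h1 : 32 * (M : ℝ) / W ≤ 32 * (X / W) := by
        rw [mul_div_assoc]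
        gcongr
      have h2 : 0 ≤ C3 * (2 + |α| + 1 / |α|) * ((X : ℝ) / W) := by positivity
      calc 32 * (M : ℝ) / W + 4 * D ≤ 32 * (X / W) + 4 * (C * (X / W)) := by linarith
        _ ≤ _ := by rw [hC5]; linarith
  have hfin := dyadic_sum X p B hB0 hblock
  have hScard : (S.card : ℝ) ≤ ((Icc 1 X).filter p).card := by
    have : S ⊆ (Icc 1 X).filter p := by
      intro n hn
      obtain ⟨h1, h2, h3, h4⟩ := hS n hn
      rw [mem_filter, mem_Icc]
      exact ⟨⟨h1, h2⟩, h3, h4⟩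
    exact_mod_cast card_le_card this
  have hsqrt : ((Nat.sqrt X + 1 : ℕ) : ℝ) ≤ 2 * (X : ℝ) ^ (1 / 2 : ℝ) := by
    push_cast
    have h1 : (Nat.sqrt X : ℝ) ≤ (X : ℝ) ^ (1 / 2 : ℝ) := by
      rw [← Real.sqrt_eq_rpow]; exact Real.nat_sqrt_le_real_sqrt
    have h2 : (1 : ℝ) ≤ (X : ℝ) ^ (1 / 2 : ℝ) := Real.one_le_rpow hX1' (by norm_num)
    linarith
  have hlog2 : ((Nat.log 2 X + 1 : ℕ) : ℝ) ≤ 4 * Real.log X := by
    push_cast
    have h1 : (Nat.log 2 X : ℝ) ≤ Real.log X / Real.log 2 := by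
      have := Real.natLog_le_logb X 2
      simpa [Real.logb] using this
    have h2 : Real.log X / Real.log 2 ≤ 2 * Real.log X := by
      rw [div_le_iff₀ (Real.log_pos (by norm_num))]
      have := Real.log_two_gt_d9
      nlinarith
    linarith
  have h9 : ((Nat.log 2 X + 1 : ℕ) : ℝ) * B ≤ 4 * Real.log X * B :=
    mul_le_mul_of_nonneg_right hlog2 hB0
  have eW : (b : ℝ) ^ l = W := by rw [hW]; push_cast; rfl
  rw [eW]
  have e10 : 4 * Real.log X * B = 4 * C5 * Real.log X * X * Z.card / W := by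
    rw [hB]; ring
  rw [e10] at h9
  linarith

end Pool.Agent.TH373.DR
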