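import Pool.Agent.TH373.DR2.Ind

set_option autoImplicit false

/-!
Total variation form of the almost independence.
-/

namespace Pool.Agent.TH373.DR

open Finset Pool.Agent.Helper153.Vdc

/-- **Almost independence, total variation form.** -/
theorem indep_tv {θ : ℝ} {k0 : ℕ} {s : ℝ} {f : ℕ → ℝ → ℝ} (hf : Reg θ k0 s f)
    (b : ℕ) (hb : 2 ≤ b) (α β : ℝ) (hα : α ≠ 0) (g0 A : ℝ) (hg0 : 0 ≤ g0) (hA : 0 < A)
    (hE : ((max 2 k0 : ℕ) : ℝ) - 2 - θ < g0 * Real.log b) :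
    ∃ c : ℝ, 0 < c ∧ ∃ X0 : ℕ, ∀ X : ℕ, X0 ≤ X → ∀ r : ℕ,
      (r : ℝ) * Real.log (Real.log X) ≤ c * Real.log X → ∀ pl : Fin r → ℕ, Function.Injective pl →
      (∀ k, g0 * Real.log X ≤ pl k ∧ (pl k : ℝ) ≤ A * Real.log X) →
      ∀ (W : Finset (Fin r → Fin b)) (T : Finset ℕ),
      (∀ n, n ∈ T ↔ (1 ≤ n ∧ n ≤ X) ∧ ∃ w ∈ W, HasDigits b pl (fun k => (w k : ℕ)) (α * f 0 n + β)) →
      |(T.card : ℝ) - X * W.card / (b : ℝ) ^ r| ≤ (X : ℝ) ^ (1 - c) := by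
  classical
  obtain ⟨c, hc, X0, h⟩ := indep hf b hb α β hα g0 A hg0 hA hE
  have hbR : (2 : ℝ) ≤ b := by exact_mod_cast hb
  have hb0 : (0 : ℝ) < b := by linarith
  have hlb : 0 < Real.log b := Real.log_pos (by linarith)
  have t : Filter.Tendsto (fun X : ℕ => Real.log (Real.log X)) Filter.atTop Filter.atTop :=
    Real.tendsto_log_atTop.comp (Real.tendsto_log_atTop.comp tendsto_natCast_atTop_atTop)
  obtain ⟨X1, hX1⟩ := Filter.eventually_atTop.1 (t.eventually_ge_atTop (max 1 (Real.log b)))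
  refine ⟨c / 2, by positivity, max X0 (max X1 3), fun X hX r hr pl hinj hpl W T hT => ?_⟩
  simp only [max_le_iff] at hX
  obtain ⟨g1, g2, g3⟩ := hX
  have hXpos : (0 : ℝ) < X := by exact_mod_cast (by omega : 0 < X)
  have hX1' : (1 : ℝ) ≤ X := by exact_mod_cast (by omega : 1 ≤ X)
  have hlog : 0 < Real.log X := Real.log_pos (by exact_mod_cast (by omega : 1 < X))
  have hll := hX1 X g2
  rw [max_le_iff] at hll
  have hr' : (r : ℝ) * Real.log (Real.log X) ≤ c * Real.log X := by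
    have : 0 ≤ c * Real.log X := by positivity
    linarith
  have hpt : ∀ w ∈ W, |(((Icc 1 X).filter (fun n : ℕ =>
      HasDigits b pl (fun k => (w k : ℕ)) (α * f 0 n + β))).card : ℝ) - X / (b : ℝ) ^ r| ≤
      (X : ℝ) ^ (1 - c) := by
    intro w _
    exact h X g1 r hr' pl (fun k => (w k : ℕ)) hinj hpl (fun k => (w k).2) _
  have hTeq : T.card = ∑ w ∈ W, ((Icc 1 X).filter (fun n : ℕ =>
      HasDigits b pl (fun k => (w k : ℕ)) (α * f 0 n + β))).card := by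
    rw [← card_biUnion]
    · congr 1
      ext n
      rw [hT, mem_biUnion]
      constructor
      · rintro ⟨h1, w, hw, h2⟩
        exact ⟨w, hw, mem_filter.2 ⟨mem_Icc.2 h1, h2⟩⟩
      · rintro ⟨w, hw, h2⟩
        rw [mem_filter, mem_Icc] at h2
        exact ⟨h2.1, w, hw, h2.2⟩
    · intro w _ w' _ hne
      rw [Function.onFun, disjoint_left]
      intro n hn hn'
      rw [mem_filter] at hn hn'
      apply hne
      funext k
      apply Fin.ext
      have h1 := hn.2 k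
      have h2 := hn'.2 k
      rw [h1] at h2
      exact_mod_cast h2
  rw [hTeq]
  push_cast
  have e1 : (X : ℝ) * W.card / (b : ℝ) ^ r = ∑ _w ∈ W, (X : ℝ) / (b : ℝ) ^ r := by
    rw [sum_const, nsmul_eq_mul]; ring
  rw [e1, ← sum_sub_distrib]
  refine (abs_sum_le_sum_abs _ _).trans ((sum_le_sum hpt).trans ?_)
  rw [sum_const, nsmul_eq_mul]
  have hW : (W.card : ℝ) ≤ (b : ℝ) ^ r := by
    have h1 : W.card ≤ Fintype.card (Fin r → Fin b) := card_le_univ W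
    rw [Fintype.card_fun, Fintype.card_fin, Fintype.card_fin] at h1
    exact_mod_cast h1
  have hbr : (b : ℝ) ^ r ≤ (X : ℝ) ^ (c / 2) := by
    rw [← Real.exp_log hb0, ← Real.exp_nat_mul, Real.rpow_def_of_pos hXpos]
    apply Real.exp_le_exp.2
    calc (r : ℝ) * Real.log b ≤ r * Real.log (Real.log X) :=
          mul_le_mul_of_nonneg_left hll.2 (by positivity)
      _ ≤ c / 2 * Real.log X := hr
      _ = _ := by ring
  calc (W.card : ℝ) * (X : ℝ) ^ (1 - c) ≤ (X : ℝ) ^ (c / 2) * (X : ℝ) ^ (1 - c) :=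
        mul_le_mul_of_nonneg_right (hW.trans hbr) (by positivity)
    _ = _ := by rw [← Real.rpow_add hXpos]; congr 1; ring

theorem dgt_eq (b : ℕ) (y : ℝ) (j : ℕ) (hj : 1 ≤ j) :
    dgt b (y * (b : ℝ) ^ (j - 1)) = ⌊y * (b : ℝ) ^ j⌋ % (b : ℤ) := by
  unfold dgt
  obtain ⟨i, rfl⟩ : ∃ i, j = i + 1 := ⟨j - 1, by omega⟩
  rw [Nat.add_sub_cancel, mul_assoc, ← pow_succ]

theorem dgt_add_int (b : ℕ) (y : ℝ) (m : ℤ) (j : ℕ) (hj : 1 ≤ j) :
    ⌊(m + y) * (b : ℝ) ^ j⌋ % (b : ℤ) = ⌊y * (b : ℝ) ^ j⌋ % (b : ℤ) := by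
  obtain ⟨i, rfl⟩ : ∃ i, j = i + 1 := ⟨j - 1, by omega⟩
  have e1 : (m + y) * (b : ℝ) ^ (i + 1) = y * (b : ℝ) ^ (i + 1) +
      ((m * (b : ℤ) ^ i * b : ℤ) : ℝ) := by
    push_cast; ring
  rw [e1, Int.floor_add_intCast, Int.add_mul_emod_self_right]

end Pool.Agent.TH373.DR
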