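import Pool.Agent.TH373.DR.Vdc

set_option autoImplicit false

/-!
Exponential sums with the phases `F f(n)` for functions `f` whose derivatives of all orders `≥ k0`
have the size `x ^ (θ - k)` and alternating signs.
-/

namespace Pool.Agent.TH373.DR

open Finset Pool.Agent.Helper153.Vdc

/-- `f 0, f 1, …` are the derivatives of `f 0`, and from the order `k0` on
`s (-1)^k f_k(x) ≍ x^(θ-k)` -/
structure Reg (θ : ℝ) (k0 : ℕ) (s : ℝ) (f : ℕ → ℝ → ℝ) : Prop where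
  hs : s = 1 ∨ s = -1
  hθ : θ ≤ k0
  der : ∃ x0 : ℝ, 0 < x0 ∧ ∀ i x, x0 ≤ x → HasDerivAt (f i) (f (i + 1) x) x
  val : ∀ k, k0 ≤ k → ∃ c : ℝ, 0 < c ∧ ∃ C : ℝ, c ≤ C ∧ ∃ x1 : ℝ, ∀ x : ℝ, x1 ≤ x →
    c * x ^ (θ - k) ≤ s * (-1) ^ k * f k x ∧ s * (-1) ^ k * f k x ≤ C * x ^ (θ - k)

theorem Fam.reg {θ : ℝ} {k0 : ℕ} {s : ℝ} {c : ℕ → ℝ} {f : ℕ → ℝ → ℝ} (hf : Fam θ k0 s c f) :
    Reg θ k0 s f := by
  refine ⟨hf.hs, hf.hθ, ⟨1, one_pos, fun i x hx => hf.der i x (by linarith)⟩, fun k hk =>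
    ⟨c k, hf.hc k hk, c k, le_rfl, 1, fun x hx => ?_⟩⟩
  have h1 := hf.val k hk x (by linarith)
  have e2 : ((-1 : ℝ) ^ k) * ((-1) ^ k) = 1 := by
    rw [← mul_pow]; norm_num
  have e : s * (-1) ^ k * f k x = c k * x ^ (θ - k) := by
    rw [h1]
    calc s * (-1) ^ k * (s * (-1) ^ k * c k * x ^ (θ - k))
        = (s * s) * ((-1 : ℝ) ^ k * (-1) ^ k) * (c k * x ^ (θ - k)) := by ring
      _ = _ := by rw [sgn_mul hf.hs, e2, one_mul, one_mul]
  rw [e]
  exact ⟨le_rfl, le_rfl⟩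

/-- the condition of the derivative tests for the reversed phase -/
theorem Reg.cond {θ : ℝ} {k0 : ℕ} {s : ℝ} {f : ℕ → ℝ → ℝ} (hf : Reg θ k0 s f)
    (k : ℕ) (hk : k0 ≤ k) : ∃ c : ℝ, 0 < c ∧ ∃ D : ℝ, 1 ≤ D ∧ ∃ Q : ℕ, ∀ (P M : ℕ), 1 ≤ P → Q ≤ P →
      M ≤ P → ∀ F : ℝ, 0 < F →
    Cond k (fun m : ℕ => s * F * f 0 ((P : ℝ) + M - m)) M (F * c * (P : ℝ) ^ (θ - k)) D := by
  obtain ⟨x0, hx0, hder⟩ := hf.der
  obtain ⟨c1, hc1, C1, hC1, x1, h1⟩ := hf.val k hk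
  obtain ⟨c2, hc2, C2, hC2, x2, h2⟩ := hf.val (k + 1) (by omega)
  have hθk : θ - k ≤ 0 := by
    have : (k0 : ℝ) ≤ k := by exact_mod_cast hk
    linarith [hf.hθ]
  have h2pos : (0 : ℝ) < (2 : ℝ) ^ (θ - k) := by positivity
  have h2le : (2 : ℝ) ^ (θ - k) ≤ 1 := by
    calc (2 : ℝ) ^ (θ - k) ≤ (2 : ℝ) ^ (0 : ℝ) :=
          Real.rpow_le_rpow_of_exponent_le (by norm_num) hθk
      _ = 1 := Real.rpow_zero _
  refine ⟨c1 * (2 : ℝ) ^ (θ - k), by positivity, C1 / (c1 * (2 : ℝ) ^ (θ - k)), ?_,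
    ⌈max x0 (max x1 x2)⌉₊, ?_⟩
  · rw [le_div_iff₀ (by positivity), one_mul]
    nlinarith
  intro P M hP hQ hM F hF
  have hP0 : (0 : ℝ) < P := by exact_mod_cast hP
  have hMP : (M : ℝ) ≤ P := by exact_mod_cast hM
  have hPx : max x0 (max x1 x2) ≤ P := (Nat.le_ceil _).trans (by exact_mod_cast hQ)
  simp only [max_le_iff] at hPx
  obtain ⟨g0, g1, g2⟩ := hPx
  have key : ∀ j : ℕ, ∀ n : ℕ, n + j < M → ∃ x : ℝ, (P : ℝ) ≤ x ∧ x ≤ 2 * P ∧
      dd j (fun m : ℕ => s * F * f 0 ((P : ℝ) + M - m)) n = F * (s * (-1) ^ j * f j x) := by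
    intro j n hn
    have hnM : (n : ℝ) + j ≤ M := by exact_mod_cast hn.le
    obtain ⟨ξ, h1, h2, h3⟩ := dd_mvt j
      (fun i x => s * F * ((-1) ^ i * f i ((P : ℝ) + M - x))) 0 M n (by positivity) hnM
      (fun i x hx0 hx1 => by
        have a1 := hder i ((P : ℝ) + M - x) (by linarith)
        have a2 : HasDerivAt (fun y : ℝ => (P : ℝ) + M - y) (-1) x := by
          simpa using (hasDerivAt_id x).const_sub ((P : ℝ) + M)
        have a3 := a1.comp x a2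
        have a4 := (a3.const_mul ((-1 : ℝ) ^ i)).const_mul (s * F)
        exact a4.congr_deriv (by rw [pow_succ]; ring))
    refine ⟨(P : ℝ) + M - ξ, by linarith, ?_, ?_⟩
    · have : (0 : ℝ) ≤ n := by positivity
      linarith
    · have e1 : (fun m : ℕ => s * F * f 0 ((P : ℝ) + M - m)) =
          fun m : ℕ => s * F * ((-1) ^ 0 * f 0 ((P : ℝ) + M - m)) := by
        funext m; simp
      rw [e1, h3]
      ring
  constructor
  · intro n hn
    obtain ⟨x, hx1, hx2, hx3⟩ := key k n hn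
    have hxpos : 0 < x := by linarith
    obtain ⟨b1, b2⟩ := h1 x (by linarith)
    rw [hx3]
    constructor
    · calc F * (c1 * (2 : ℝ) ^ (θ - k)) * (P : ℝ) ^ (θ - k)
          = F * (c1 * (2 * P : ℝ) ^ (θ - k)) := by
            rw [Real.mul_rpow (by norm_num) hP0.le]; ring
        _ ≤ F * (c1 * x ^ (θ - k)) := by
            apply mul_le_mul_of_nonneg_left _ hF.le
            apply mul_le_mul_of_nonneg_left _ hc1.le
            exact Real.rpow_le_rpow_of_nonpos hxpos hx2 hθk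
        _ ≤ _ := mul_le_mul_of_nonneg_left b1 hF.le
    · have e1 : C1 / (c1 * (2 : ℝ) ^ (θ - k)) * (F * (c1 * (2 : ℝ) ^ (θ - k)) * (P : ℝ) ^ (θ - k))
          = F * (C1 * (P : ℝ) ^ (θ - k)) := by
        field_simp
      rw [e1]
      apply mul_le_mul_of_nonneg_left _ hF.le
      refine b2.trans ?_
      apply mul_le_mul_of_nonneg_left _ (by linarith)
      exact Real.rpow_le_rpow_of_nonpos hP0 hx1 hθk
  · intro n hn
    obtain ⟨x, hx1, hx2, hx3⟩ := key (k + 1) n hn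
    have hxpos : 0 < x := by linarith
    obtain ⟨b1, b2⟩ := h2 x (by linarith)
    rw [hx3]
    apply mul_nonneg hF.le
    refine le_trans ?_ b1
    positivity

/-- the derivative tests of the orders `k ≤ K`, with common constants -/
theorem unif2 (D : ℕ → ℝ) (hD : ∀ k, 1 ≤ D k) (η : ℝ) (hη : 0 < η) (hη1 : η < 1) (K : ℕ) :
    ∃ σ : ℝ, 0 < σ ∧ ∃ C : ℝ, 1 ≤ C ∧ ∀ k : ℕ, 2 ≤ k → k ≤ K →
    ∀ (N M : ℕ) (g : ℕ → ℝ) (lam : ℝ), 1 ≤ N → M ≤ N →
      Cond k g M lam (D k) → (N : ℝ) ^ (-2 + η) ≤ lam →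
      lam ≤ (N : ℝ) ^ (-η) →
      ‖∑ n ∈ range M, ee (g n)‖ ≤ C * (N : ℝ) ^ (1 - σ) := by
  induction K with
  | zero =>
    refine ⟨1, one_pos, 1, le_rfl, ?_⟩
    intro k h1 h2
    omega
  | succ K ih =>
    obtain ⟨σ1, hσ1, C1, hC1, h1⟩ := ih
    by_cases hK : 2 ≤ K + 1
    · obtain ⟨σ2, hσ2, C2, hC2, h2⟩ := vdc (K + 1) hK (D (K + 1)) (hD _) η hη hη1
      refine ⟨min σ1 σ2, lt_min hσ1 hσ2, max C1 C2, le_trans hC1 (le_max_left _ _), ?_⟩
      intro k hk hkK N M g lam hN hM hc hl1 hl2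
      have hN' : (1 : ℝ) ≤ N := by exact_mod_cast hN
      have hpos : ∀ s : ℝ, 0 ≤ (N : ℝ) ^ s := fun s => Real.rpow_nonneg (by linarith) s
      rcases Nat.lt_or_ge k (K + 1) with hlt | hge
      · refine (h1 k hk (by omega) N M g lam hN hM hc hl1 hl2).trans ?_
        refine mul_le_mul (le_max_left _ _) ?_ (hpos _) (by linarith [le_max_left C1 C2])
        exact Real.rpow_le_rpow_of_exponent_le hN' (by linarith [min_le_left σ1 σ2])
      · have hke : k = K + 1 := by omega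
        subst hke
        refine (h2 N M g lam hN hM hc hl1 hl2).trans ?_
        refine mul_le_mul (le_max_right _ _) ?_ (hpos _) (by linarith [le_max_left C1 C2])
        exact Real.rpow_le_rpow_of_exponent_le hN' (by linarith [min_le_right σ1 σ2])
    · refine ⟨σ1, hσ1, C1, hC1, ?_⟩
      intro k hk hkK
      omega

/-- **Exponential sums.** Power saving for `∑ e(F f(n))` over `P < n ≤ P + M`, `M ≤ P`,
uniformly for `P ^ (k1 - 2 - θ + η) ≤ |F| ≤ P ^ A`, `k1 = max 2 k0`. -/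
theorem Reg.expsum {θ : ℝ} {k0 : ℕ} {s : ℝ} {f : ℕ → ℝ → ℝ} (hf : Reg θ k0 s f)
    (η A : ℝ) (hη : 0 < η) (hη1 : η ≤ 1 / 2) :
    ∃ σ : ℝ, 0 < σ ∧ ∃ C : ℝ, 1 ≤ C ∧ ∀ (P M : ℕ) (F : ℝ), 1 ≤ P → M ≤ P →
      (P : ℝ) ^ (((max 2 k0 : ℕ) : ℝ) - 2 - θ + η) ≤ |F| → |F| ≤ (P : ℝ) ^ A →
      ‖∑ n ∈ range M, ee (F * f 0 ((P : ℝ) + 1 + n))‖ ≤ C * (P : ℝ) ^ (1 - σ) := by
  set k1 : ℕ := max 2 k0 with hk1
  have hk12 : 2 ≤ k1 := le_max_left _ _
  have hk10 : k0 ≤ k1 := le_max_right _ _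
  have hθ1 : θ ≤ k1 := by
    have : (k0 : ℝ) ≤ k1 := by exact_mod_cast hk10
    linarith [hf.hθ]
  -- the orders used
  obtain ⟨K, hK⟩ : ∃ K : ℕ, k1 ≤ K ∧ A + θ + 1 ≤ (K : ℝ) := by
    obtain ⟨n, hn⟩ := exists_nat_ge (A + θ + 1)
    exact ⟨max k1 n, le_max_left _ _, hn.trans (by exact_mod_cast le_max_right _ _)⟩
  -- the constants of the orders
  have hreg : ∀ k : ℕ, ∃ c : ℝ, 0 < c ∧ ∃ D : ℝ, 1 ≤ D ∧ ∃ Q : ℕ, k0 ≤ k → ∀ (P M : ℕ), 1 ≤ P →
      Q ≤ P → M ≤ P → ∀ F : ℝ, 0 < F →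
    Cond k (fun m : ℕ => s * F * f 0 ((P : ℝ) + M - m)) M (F * c * (P : ℝ) ^ (θ - k)) D := by
    intro k
    by_cases hk : k0 ≤ k
    · obtain ⟨c, hc, D, hD, Q, h⟩ := hf.cond k hk
      exact ⟨c, hc, D, hD, Q, fun _ => h⟩
    · exact ⟨1, one_pos, 1, le_rfl, 0, fun h => absurd h hk⟩
  choose c hc D hD Qc hcond using hreg
  obtain ⟨σ, hσ, C, hC, hvdc⟩ := unif2 D hD (η / 2) (by positivity) (by linarith) K
  -- constants `c_k` are between `P ^ (-η/2)` and `P ^ (η/2)` for large `P`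
  have hcst : ∀ k : ℕ, ∃ P0 : ℕ, ∀ P : ℕ, P0 ≤ P →
      (P : ℝ) ^ (-(η / 2)) ≤ c k ∧ c k ≤ (P : ℝ) ^ (η / 2) := by
    intro k
    have t1 : Filter.Tendsto (fun P : ℕ => (P : ℝ) ^ (-(η / 2))) Filter.atTop (nhds 0) :=
      (tendsto_rpow_neg_atTop (by positivity)).comp tendsto_natCast_atTop_atTop
    have t2 : Filter.Tendsto (fun P : ℕ => (P : ℝ) ^ (η / 2)) Filter.atTop Filter.atTop :=
      (tendsto_rpow_atTop (by positivity)).comp tendsto_natCast_atTop_atTop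
    obtain ⟨P0, hP0⟩ := Filter.eventually_atTop.1
      ((t1.eventually (ge_mem_nhds (hc k))).and (t2.eventually_ge_atTop (c k)))
    exact ⟨P0, fun P hP => hP0 P hP⟩
  choose P0 hP0 using hcst
  set Q : ℕ := (range (K + 1)).sup (fun k => max (P0 k) (Qc k)) with hQ
  refine ⟨min σ 1, lt_min hσ one_pos, C + Q, by
    have : (0 : ℝ) ≤ Q := by positivity
    linarith, ?_⟩
  intro P M F hP hM hF1 hF2
  have hP1 : (1 : ℝ) ≤ P := by exact_mod_cast hP
  have hPpos : (0 : ℝ) < P := by linarith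
  have hpow1 : (1 : ℝ) ≤ (P : ℝ) ^ (1 - min σ 1) :=
    Real.one_le_rpow hP1 (by linarith [min_le_right σ 1])
  rcases lt_or_ge P Q with hsmall | hlarge
  · -- trivial bound
    have h1 := triv_bound M (fun n : ℕ => F * f 0 ((P : ℝ) + 1 + n))
    have h2 : (M : ℝ) ≤ Q := by exact_mod_cast (by omega : M ≤ Q)
    have hQ0 : (0 : ℝ) ≤ Q := by positivity
    calc _ ≤ (M : ℝ) := h1
      _ ≤ (Q : ℝ) * 1 := by linarith
      _ ≤ (C + Q) * (P : ℝ) ^ (1 - min σ 1) :=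
        mul_le_mul (by linarith) hpow1 (by norm_num) (by linarith)
  · have hFpos : 0 < |F| := lt_of_lt_of_le (Real.rpow_pos_of_pos hPpos _) hF1
    -- the choice of `k`
    have hex : ∃ k : ℕ, k1 ≤ k ∧ |F| * (P : ℝ) ^ (θ - k) ≤ (P : ℝ) ^ (-η) := by
      refine ⟨K, hK.1, ?_⟩
      calc |F| * (P : ℝ) ^ (θ - K) ≤ (P : ℝ) ^ A * (P : ℝ) ^ (θ - K) :=
            mul_le_mul_of_nonneg_right hF2 (Real.rpow_nonneg hPpos.le _)
        _ = (P : ℝ) ^ (A + (θ - K)) := (Real.rpow_add hPpos _ _).symm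
        _ ≤ _ := Real.rpow_le_rpow_of_exponent_le hP1 (by linarith [hK.2])
    classical
    set k := Nat.find hex with hkdef
    obtain ⟨hk1', hkle⟩ := Nat.find_spec hex
    have hkK : k ≤ K := by
      apply Nat.find_min' hex
      refine ⟨hK.1, ?_⟩
      calc |F| * (P : ℝ) ^ (θ - K) ≤ (P : ℝ) ^ A * (P : ℝ) ^ (θ - K) :=
            mul_le_mul_of_nonneg_right hF2 (Real.rpow_nonneg hPpos.le _)
        _ = (P : ℝ) ^ (A + (θ - K)) := (Real.rpow_add hPpos _ _).symm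
        _ ≤ _ := Real.rpow_le_rpow_of_exponent_le hP1 (by linarith [hK.2])
    have hlow : (P : ℝ) ^ (-2 + η) ≤ |F| * (P : ℝ) ^ (θ - k) := by
      rcases Nat.eq_or_lt_of_le hk1' with he | hlt
      · rw [← hkdef] at he
        rw [← he]
        calc (P : ℝ) ^ (-2 + η) = (P : ℝ) ^ ((k1 : ℝ) - 2 - θ + η) * (P : ℝ) ^ (θ - k1) := by
              rw [← Real.rpow_add hPpos]; congr 1; ring
          _ ≤ _ := mul_le_mul_of_nonneg_right hF1 (Real.rpow_nonneg hPpos.le _)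
      · have hmin := Nat.find_min hex (m := k - 1) (by omega)
        push Not at hmin
        have h3 := hmin (by omega)
        have e1 : (P : ℝ) ^ (θ - (k - 1 : ℕ)) = (P : ℝ) ^ (θ - k) * P := by
          rw [Nat.cast_sub (by omega), Nat.cast_one]
          nth_rewrite 3 [← Real.rpow_one (P : ℝ)]
          rw [← Real.rpow_add hPpos]
          congr 1
          ring
        rw [e1] at h3
        have h4 : (P : ℝ) ^ (-η) * (P : ℝ) ^ (-1 : ℝ) ≤ |F| * (P : ℝ) ^ (θ - k) := by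
          have e2 : (P : ℝ) ^ (-1 : ℝ) = (P : ℝ)⁻¹ := by rw [Real.rpow_neg_one]
          rw [e2, ← div_eq_mul_inv, div_le_iff₀ hPpos]
          linarith
        refine le_trans ?_ h4
        rw [← Real.rpow_add hPpos]
        exact Real.rpow_le_rpow_of_exponent_le hP1 (by linarith)
    have hk0 : k0 ≤ k := hk10.trans hk1'
    have hPkk : max (P0 k) (Qc k) ≤ P :=
      (Finset.le_sup (f := fun k => max (P0 k) (Qc k)) (mem_range.2 (by omega : k < K + 1))).trans hlarge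
    have hPk : P0 k ≤ P := (le_max_left _ _).trans hPkk
    have hPq : Qc k ≤ P := (le_max_right _ _).trans hPkk
    obtain ⟨hc1, hc2⟩ := hP0 k P hPk
    have hck := hc k
    set lam := |F| * c k * (P : ℝ) ^ (θ - k) with hlam
    have elam : lam = (|F| * (P : ℝ) ^ (θ - k)) * c k := by
      rw [hlam]; ring
    have hl1 : (P : ℝ) ^ (-2 + η / 2) ≤ lam := by
      rw [elam]
      calc (P : ℝ) ^ (-2 + η / 2) = (P : ℝ) ^ (-2 + η) * (P : ℝ) ^ (-(η / 2)) := by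
            rw [← Real.rpow_add hPpos]; congr 1; ring
        _ ≤ _ := mul_le_mul hlow hc1 (Real.rpow_nonneg hPpos.le _) (by positivity)
    have hl2 : lam ≤ (P : ℝ) ^ (-(η / 2)) := by
      rw [elam]
      calc _ ≤ (P : ℝ) ^ (-η) * (P : ℝ) ^ (η / 2) :=
            mul_le_mul hkle hc2 hck.le (Real.rpow_nonneg hPpos.le _)
        _ = _ := by rw [← Real.rpow_add hPpos]; congr 1; ring
    have hmain := hvdc k (hk12.trans hk1') hkK P M _ lam hP hM
      (hcond k hk0 P M hP hPq hM |F| hFpos) hl1 hl2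
    -- reversal
    have hrev : ‖∑ n ∈ range M, ee (F * f 0 ((P : ℝ) + 1 + n))‖
        = ‖∑ m ∈ range M, ee (s * |F| * f 0 ((P : ℝ) + M - m))‖ := by
      have e1 : ∑ n ∈ range M, ee (F * f 0 ((P : ℝ) + 1 + n))
          = ∑ m ∈ range M, ee (F * f 0 ((P : ℝ) + M - m)) := by
        rw [← Finset.sum_range_reflect]
        apply Finset.sum_congr rfl
        intro m hm
        rw [mem_range] at hm
        have : ((M - 1 - m : ℕ) : ℝ) = (M : ℝ) - 1 - m := by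
          rw [Nat.cast_sub (by omega), Nat.cast_sub (by omega)]; push_cast; ring
        rw [this]
        congr 3
        ring
      rw [e1]
      have hcase : F = s * |F| ∨ F = -(s * |F|) := by
        rcases hf.hs with h | h <;> rcases abs_cases F with ⟨h1, _⟩ | ⟨h1, _⟩ <;>
          rw [h, h1] <;> simp
      rcases hcase with h | h
      · rw [← h]
      · have : ∀ m : ℕ, F * f 0 ((P : ℝ) + M - m) = -(s * |F| * f 0 ((P : ℝ) + M - m)) := by
          intro m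
          nth_rewrite 1 [h]
          ring
        simp only [this]
        exact norm_sum_neg M _
    rw [hrev]
    refine hmain.trans ?_
    refine mul_le_mul ?_ ?_ (Real.rpow_nonneg hPpos.le _) (by positivity)
    · have : (0 : ℝ) ≤ Q := by positivity
      linarith
    · exact Real.rpow_le_rpow_of_exponent_le hP1 (by linarith [min_le_left σ 1])

end Pool.Agent.TH373.DR
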