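import Pool.Agent.TH373.DR2.TV

set_option autoImplicit false

/-!
All short words occur in all windows of logarithmic length.
-/

namespace Pool.Agent.TH373.DR

open Finset Pool.Agent.Helper153.Vdc

/-- the conclusion of `indep_tv` -/
def IndTV (b : ℕ) (y : ℕ → ℝ) (g0 A : ℝ) : Prop :=
  ∃ c : ℝ, 0 < c ∧ ∃ X0 : ℕ, ∀ X : ℕ, X0 ≤ X → ∀ r : ℕ,
      (r : ℝ) * Real.log (Real.log X) ≤ c * Real.log X → ∀ pl : Fin r → ℕ, Function.Injective pl →
      (∀ k, g0 * Real.log X ≤ pl k ∧ (pl k : ℝ) ≤ A * Real.log X) →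
      ∀ (W : Finset (Fin r → Fin b)) (T : Finset ℕ),
      (∀ n, n ∈ T ↔ (1 ≤ n ∧ n ≤ X) ∧ ∃ w ∈ W, HasDigits b pl (fun k => (w k : ℕ)) (y n)) →
      |(T.card : ℝ) - X * W.card / (b : ℝ) ^ r| ≤ (X : ℝ) ^ (1 - c)

/-- words without the block `w` -/
def NoBlock (b m k : ℕ) (w : Fin k → Fin b) (v : Fin (m * k) → Fin b) : Prop :=
  ∀ t : Fin m, ¬ ∀ s : Fin k, v (finProdFinEquiv (t, s)) = w s

theorem noBlock_card (b m k : ℕ) (w : Fin k → Fin b) [DecidablePred (NoBlock b m k w)] :
    (univ.filter (NoBlock b m k w)).card = (b ^ k - 1) ^ m := by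
  classical
  have h1 : (univ.filter (NoBlock b m k w)).card =
      (univ.filter (fun F : Fin m → Fin k → Fin b => ∀ t, F t ≠ w)).card := by
    symm
    refine card_bij (fun F _ => fun idx => F (finProdFinEquiv.symm idx).1 (finProdFinEquiv.symm idx).2)
      ?_ ?_ ?_
    · intro F hF
      rw [mem_filter] at hF ⊢
      refine ⟨mem_univ _, fun t h => hF.2 t ?_⟩
      funext s
      have := h s
      have e : (finProdFinEquiv.symm (finProdFinEquiv (t, s)) : Fin m × Fin k) = (t, s) :=
        Equiv.symm_apply_apply _ _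
      simp only [e] at this
      exact this
    · intro F _ F' _ h
      funext t s
      have := congrFun h (finProdFinEquiv (t, s))
      simp only [Equiv.symm_apply_apply] at this
      exact this
    · intro v hv
      rw [mem_filter] at hv
      refine ⟨fun t s => v (finProdFinEquiv (t, s)), ?_, ?_⟩
      · rw [mem_filter]
        refine ⟨mem_univ _, fun t h => hv.2 t (fun s => congrFun h s)⟩
      · funext idx
        exact congrArg v (Equiv.apply_symm_apply finProdFinEquiv idx)
  rw [h1]
  have h2 : univ.filter (fun F : Fin m → Fin k → Fin b => ∀ t, F t ≠ w) =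
      Fintype.piFinset (fun _ : Fin m => univ.erase w) := by
    ext F
    rw [mem_filter, Fintype.mem_piFinset]
    constructor
    · rintro ⟨_, h⟩ t
      exact mem_erase.2 ⟨h t, mem_univ _⟩
    · intro h
      exact ⟨mem_univ _, fun t => (mem_erase.1 (h t)).1⟩
  rw [h2, Fintype.card_piFinset, prod_const, card_univ, Fintype.card_fin,
    card_erase_of_mem (mem_univ _), card_univ, Fintype.card_fun, Fintype.card_fin, Fintype.card_fin]

theorem frac_le (b m k : ℕ) (hb : 1 ≤ b) :
    (((b ^ k - 1) ^ m : ℕ) : ℝ) / (b : ℝ) ^ (m * k) ≤ Real.exp (-((m : ℝ) / (b : ℝ) ^ k)) := by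
  have hb0 : (0 : ℝ) < b := by exact_mod_cast hb
  have hbk : 1 ≤ b ^ k := Nat.one_le_pow _ _ hb
  have hp : (0 : ℝ) < (b : ℝ) ^ k := by positivity
  have e1 : (((b ^ k - 1) ^ m : ℕ) : ℝ) / (b : ℝ) ^ (m * k) = (1 - 1 / (b : ℝ) ^ k) ^ m := by
    push_cast [Nat.cast_sub hbk]
    rw [mul_comm m k, pow_mul, ← div_pow]
    congr 1
    field_simp
  have e2 : Real.exp (-((m : ℝ) / (b : ℝ) ^ k)) = Real.exp (-(1 / (b : ℝ) ^ k)) ^ m := by
    rw [← Real.exp_nat_mul]; congr 1; ring
  rw [e1, e2]
  apply pow_le_pow_left₀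
  · have : 1 / (b : ℝ) ^ k ≤ 1 := by
      rw [div_le_one hp]; exact one_le_pow₀ (by exact_mod_cast hb)
    linarith
  · have := Real.add_one_le_exp (-(1 / (b : ℝ) ^ k))
    linarith

/-- **All short words.** -/
theorem all_words (b : ℕ) (hb : 2 ≤ b) (y : ℕ → ℝ) (g0 A : ℝ) (hA : 0 < A) (hI : IndTV b y g0 A)
    (δ : ℝ) (hδ : 0 < δ) (B : ℝ) :
    ∃ X0 : ℕ, ∀ X : ℕ, X0 ≤ X → ∀ S : Finset ℕ,
      (∀ n ∈ S, 1 ≤ n ∧ n ≤ X ∧ ∃ (k : ℕ) (w : Fin k → Fin b) (i L : ℕ), 1 ≤ k ∧
        (b : ℝ) ^ k * Real.log (Real.log X) ^ 4 ≤ Real.log X ∧ g0 * Real.log X ≤ i ∧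
        δ * Real.log X ≤ L ∧ ((i + L : ℕ) : ℝ) ≤ A * Real.log X ∧
        ∀ j : ℕ, i ≤ j → j + k ≤ i + L →
          ¬ ∀ s : Fin k, dgt b (y n * (b : ℝ) ^ (j + s)) = ((w s : ℕ) : ℤ)) →
      (S.card : ℝ) ≤ X * Real.exp (-(B * Real.log (Real.log X))) := by
  classical
  obtain ⟨c, hc, X0, h⟩ := hI
  have hbR : (2 : ℝ) ≤ b := by exact_mod_cast hb
  have hb0 : (0 : ℝ) < b := by linarith
  have hb1 : 1 ≤ b := by omega
  set c' : ℝ := min c δ with hc'
  have hc'0 : 0 < c' := lt_min hc hδ
  have tl : Filter.Tendsto (fun X : ℕ => Real.log X) Filter.atTop Filter.atTop :=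
    Real.tendsto_log_atTop.comp tendsto_natCast_atTop_atTop
  have tll : Filter.Tendsto (fun X : ℕ => Real.log (Real.log X)) Filter.atTop Filter.atTop :=
    Real.tendsto_log_atTop.comp tl
  obtain ⟨X1, hX1⟩ := Filter.eventually_atTop.1
    (tll.eventually_ge_atTop (max 1 (8 * (|B| + 6 + Real.log (A + 1)) / c')))
  -- `4 (loglog X)^2 ≤ c' log X`
  obtain ⟨X2, hX2⟩ : ∃ X2 : ℕ, ∀ X : ℕ, X2 ≤ X →
      4 * Real.log (Real.log X) ^ 2 ≤ c' * Real.log X := by
    have t1 : Filter.Tendsto (fun x : ℝ => c' / 4 * Real.exp x / x ^ 2) Filter.atTop Filter.atTop := by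
      have := (Real.tendsto_exp_div_pow_atTop 2).const_mul_atTop (show 0 < c' / 4 by positivity)
      refine this.congr (fun x => ?_)
      ring
    obtain ⟨X2, hX2⟩ := Filter.eventually_atTop.1 ((t1.comp tll).eventually_ge_atTop 1)
    refine ⟨max X2 X1, fun X hX => ?_⟩
    have h1 := hX2 X ((le_max_left _ _).trans hX)
    have h2 := hX1 X ((le_max_right _ _).trans hX)
    rw [max_le_iff] at h2
    have hll : 0 < Real.log (Real.log X) := by linarith [h2.1]
    have hlpos : 0 < Real.log X := by
      by_contra hcon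
      push Not at hcon
      have : (0 : ℝ) ≤ Real.log X := Real.log_natCast_nonneg X
      have h0 : Real.log X = 0 := le_antisymm hcon this
      rw [h0] at hll
      simp at hll
    simp only [Function.comp] at h1
    rw [Real.exp_log hlpos, le_div_iff₀ (by positivity)] at h1
    linarith
  -- the error `X^(-c)`
  obtain ⟨X3, hX3⟩ : ∃ X3 : ℕ, ∀ X : ℕ, X3 ≤ X →
      (X : ℝ) ^ (-c) ≤ Real.exp (-((|B| + 6 + Real.log (A + 1)) * Real.log (Real.log X))) := by
    refine ⟨max X1 X2, fun X hX => ?_⟩
    have h1 := hX2 X ((le_max_right _ _).trans hX)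
    have h2 := hX1 X ((le_max_left _ _).trans hX)
    rw [max_le_iff] at h2
    have hll : 1 ≤ Real.log (Real.log X) := h2.1
    have hX0' : (0 : ℝ) < X := by
      rcases Nat.eq_zero_or_pos X with rfl | hpos
      · simp at hll; linarith
      · exact_mod_cast hpos
    rw [Real.rpow_def_of_pos hX0']
    apply Real.exp_le_exp.2
    have h3 := h2.2
    rw [div_le_iff₀ hc'0] at h3
    have h4 : c' ≤ c := min_le_left _ _
    have hlpos : 0 ≤ Real.log X := Real.log_natCast_nonneg X
    have h5 : c' * Real.log X ≤ c * Real.log X := mul_le_mul_of_nonneg_right h4 hlpos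
    -- `(…) loglog X ≤ c' (loglog X)^2 / 8 ≤ c' … `
    have h6 : (|B| + 6 + Real.log (A + 1)) * Real.log (Real.log X) ≤
        (Real.log (Real.log X) * c' / 8) * Real.log (Real.log X) := by
      apply mul_le_mul_of_nonneg_right _ (by linarith)
      linarith
    have h7 : (Real.log (Real.log X) * c' / 8) * Real.log (Real.log X) ≤
        c' / 8 * (c' * Real.log X / 4) := by
      have : Real.log (Real.log X) ^ 2 ≤ c' * Real.log X / 4 := by linarith
      calc (Real.log (Real.log X) * c' / 8) * Real.log (Real.log X) =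
            c' / 8 * Real.log (Real.log X) ^ 2 := by ring
        _ ≤ _ := mul_le_mul_of_nonneg_left this (by positivity)
    have h8 : Real.log (Real.log X) ≤ Real.log X := by
      have := Real.log_le_sub_one_of_pos (show 0 < Real.log X by
        by_contra hcon
        push Not at hcon
        have h0 : Real.log X = 0 := le_antisymm hcon hlpos
        rw [h0] at hll
        simp at hll
        linarith)
      linarith
    -- crude: use `loglog X ≤ log X` when `c'` is large
    rcases le_or_gt c' 32 with hsm | hbig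
    · have : c' / 8 * (c' * Real.log X / 4) ≤ c' * Real.log X := by
        have : 0 ≤ c' * Real.log X := by positivity
        nlinarith
      linarith
    · have h9 : (Real.log (Real.log X) * c' / 8) * Real.log (Real.log X) ≤ c' * Real.log X := by
        have h10 : Real.log (Real.log X) ^ 2 ≤ 8 * Real.log X := by
          have h11 : 0 ≤ Real.log (Real.log X) := by linarith
          have h12 := Real.add_one_le_exp (Real.log (Real.log X))
          have h13 := Real.quadratic_le_exp_of_nonneg h11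
          have hlp : 0 < Real.log X := by
            by_contra hcon
            push Not at hcon
            have h0 : Real.log X = 0 := le_antisymm hcon hlpos
            rw [h0] at hll
            simp at hll
            linarith
          rw [Real.exp_log hlp] at h13
          nlinarith
        calc (Real.log (Real.log X) * c' / 8) * Real.log (Real.log X) =
              c' / 8 * Real.log (Real.log X) ^ 2 := by ring
          _ ≤ c' / 8 * (8 * Real.log X) := mul_le_mul_of_nonneg_left h10 (by positivity)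
          _ = _ := by ring
      linarith
  refine ⟨max (max X0 X1) (max X2 (max X3 3)), fun X hX S hS => ?_⟩
  simp only [max_le_iff] at hX
  obtain ⟨⟨g0', g1⟩, g2, g3, g4⟩ := hX
  have hXpos : (0 : ℝ) < X := by exact_mod_cast (by omega : 0 < X)
  have hll' := hX1 X g1
  rw [max_le_iff] at hll'
  obtain ⟨hll, hllB⟩ := hll'
  set LL : ℝ := Real.log (Real.log X) with hLL
  have hlogX : 0 < Real.log X := Real.log_pos (by exact_mod_cast (by omega : 1 < X))
  have hLLle : LL ≤ Real.log X := by
    have := Real.log_le_sub_one_of_pos hlogX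
    linarith
  have hlog1 : 1 ≤ Real.log X := hll.trans hLLle
  have h4 := hX2 X g2
  -- the blocks
  set mm : ℕ → ℕ := fun k => ⌊c' * Real.log X / (k * LL)⌋₊ with hmm
  set V : (k : ℕ) → (Fin k → Fin b) → ℕ → Finset ℕ := fun k w i => (Icc 1 X).filter (fun n =>
    ∃ v ∈ univ.filter (NoBlock b (mm k) k w),
      HasDigits b (fun idx : Fin (mm k * k) => i + idx) (fun idx => (v idx : ℕ)) (y n)) with hV
  set KK : ℕ := ⌊Real.log X⌋₊ with hKK
  have hkLL : ∀ k : ℕ, 1 ≤ k → (b : ℝ) ^ k * LL ^ 4 ≤ Real.log X → (k : ℝ) ≤ 2 * LL ∧ k ≤ KK ∧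
      (b : ℝ) ^ k ≤ Real.log X := by
    intro k hk1 hk
    have hLL4 : 1 ≤ LL ^ 4 := one_le_pow₀ hll
    have hbk : (b : ℝ) ^ k ≤ Real.log X := by
      have : (b : ℝ) ^ k ≤ (b : ℝ) ^ k * LL ^ 4 := le_mul_of_one_le_right (by positivity) hLL4
      linarith
    have h2k : (2 : ℝ) ^ k ≤ Real.log X := (pow_le_pow_left₀ (by norm_num) hbR k).trans hbk
    have h5 : (k : ℝ) * Real.log 2 ≤ LL := by
      have := Real.log_le_log (by positivity) h2k
      rwa [Real.log_pow] at this
    have h6 : (k : ℝ) ≤ 2 * LL := by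
      have := Real.log_two_gt_d9
      have hk0 : (0 : ℝ) ≤ k := by positivity
      nlinarith
    refine ⟨h6, ?_, hbk⟩
    apply Nat.le_floor
    have h7 : (k : ℝ) ≤ 2 ^ k := by exact_mod_cast (Nat.lt_two_pow_self).le
    linarith
  -- one triple
  have hone : ∀ (k : ℕ) (w : Fin k → Fin b) (i : ℕ), 1 ≤ k → (b : ℝ) ^ k * LL ^ 4 ≤ Real.log X →
      g0 * Real.log X ≤ i → (i : ℝ) + c' * Real.log X ≤ A * Real.log X →
      ((V k w i).card : ℝ) ≤ 2 * (X * Real.exp (-((|B| + 6 + Real.log (A + 1)) * LL))) := by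
    intro k w i hk1 hk hi1 hi2
    obtain ⟨hk2, _, hbk⟩ := hkLL k hk1 hk
    have hk0 : (0 : ℝ) < k := by exact_mod_cast hk1
    have hkLLpos : 0 < (k : ℝ) * LL := by positivity
    have hmle : (mm k : ℝ) ≤ c' * Real.log X / (k * LL) := Nat.floor_le (by positivity)
    have hmkle : ((mm k * k : ℕ) : ℝ) * LL ≤ c' * Real.log X := by
      push_cast
      rw [le_div_iff₀ hkLLpos] at hmle
      linarith
    have hr1 : ((mm k * k : ℕ) : ℝ) * Real.log (Real.log X) ≤ c * Real.log X := by
      refine hmkle.trans ?_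
      exact mul_le_mul_of_nonneg_right (min_le_left _ _) hlogX.le
    have hr2 : ((mm k * k : ℕ) : ℝ) ≤ c' * Real.log X := by
      have : ((mm k * k : ℕ) : ℝ) ≤ ((mm k * k : ℕ) : ℝ) * LL :=
        le_mul_of_one_le_right (by positivity) hll
      linarith
    have htv := h X g0' (mm k * k) hr1 (fun idx : Fin (mm k * k) => i + idx)
      (fun a a' haa => by
        simp only at haa
        exact Fin.ext (by omega)) (fun idx => by
        push_cast
        have h0 : (0 : ℝ) ≤ (idx : ℕ) := by positivity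
        have h1 : ((idx : ℕ) : ℝ) ≤ ((mm k * k : ℕ) : ℝ) := by exact_mod_cast idx.2.le
        push_cast at h1 hr2
        constructor <;> linarith) (univ.filter (NoBlock b (mm k) k w)) (V k w i) (fun n => by
        rw [hV, mem_filter, mem_Icc])
    rw [noBlock_card] at htv
    have h5 := (abs_le.1 htv).2
    have h6 := frac_le b (mm k) k hb1
    have h7 : (X : ℝ) * (((b ^ k - 1) ^ mm k : ℕ) : ℝ) / (b : ℝ) ^ (mm k * k) ≤
        X * Real.exp (-((mm k : ℝ) / (b : ℝ) ^ k)) := by
      rw [mul_div_assoc]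
      exact mul_le_mul_of_nonneg_left h6 hXpos.le
    -- the exponent
    have h8 : (|B| + 6 + Real.log (A + 1)) * LL ≤ (mm k : ℝ) / (b : ℝ) ^ k := by
      have hbkpos : (0 : ℝ) < (b : ℝ) ^ k := by positivity
      rw [le_div_iff₀ hbkpos]
      have hmge : c' * Real.log X / (k * LL) - 1 ≤ mm k := by
        have := Nat.lt_floor_add_one (c' * Real.log X / (k * LL))
        rw [hmm]
        linarith
      have h9 : c' * Real.log X / (2 * LL ^ 2) ≤ c' * Real.log X / (k * LL) := by
        apply div_le_div_of_nonneg_left (by positivity) (by positivity)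
        nlinarith
      have h10 : 2 ≤ c' * Real.log X / (2 * LL ^ 2) := by
        rw [le_div_iff₀ (by positivity)]
        linarith
      have h11 : c' * Real.log X / (4 * LL ^ 2) ≤ mm k := by
        have : c' * Real.log X / (4 * LL ^ 2) = c' * Real.log X / (2 * LL ^ 2) / 2 := by
          field_simp; norm_num
        rw [this]
        linarith
      refine le_trans ?_ h11
      rw [le_div_iff₀ (by positivity)]
      have h12 : (|B| + 6 + Real.log (A + 1)) ≤ LL * c' / 8 := by
        rw [div_le_iff₀ hc'0] at hllB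
        linarith
      have h13 : 0 ≤ LL := by linarith
      have h14 : (|B| + 6 + Real.log (A + 1)) * LL * (b : ℝ) ^ k * (4 * LL ^ 2) ≤
          (LL * c' / 8) * LL * (b : ℝ) ^ k * (4 * LL ^ 2) := by gcongr
      refine h14.trans ?_
      have h15 : (LL * c' / 8) * LL * (b : ℝ) ^ k * (4 * LL ^ 2) =
          c' / 2 * ((b : ℝ) ^ k * LL ^ 4) := by ring
      rw [h15]
      have h16 : c' / 2 * ((b : ℝ) ^ k * LL ^ 4) ≤ c' / 2 * Real.log X :=
        mul_le_mul_of_nonneg_left hk (by positivity)
      have h17 : 0 ≤ c' * Real.log X := by positivity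
      linarith
    have h9 : Real.exp (-((mm k : ℝ) / (b : ℝ) ^ k)) ≤
        Real.exp (-((|B| + 6 + Real.log (A + 1)) * LL)) := Real.exp_le_exp.2 (by linarith)
    have h10 := hX3 X g3
    have h11 : (X : ℝ) ^ (1 - c) = X * (X : ℝ) ^ (-c) := by
      nth_rewrite 2 [← Real.rpow_one (X : ℝ)]
      rw [← Real.rpow_add hXpos]
      congr 1
    rw [h11] at h5
    have h12 : (X : ℝ) * (X : ℝ) ^ (-c) ≤ X * Real.exp (-((|B| + 6 + Real.log (A + 1)) * LL)) :=
      mul_le_mul_of_nonneg_left h10 hXpos.le
    have h13 : (X : ℝ) * Real.exp (-((mm k : ℝ) / (b : ℝ) ^ k)) ≤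
        X * Real.exp (-((|B| + 6 + Real.log (A + 1)) * LL)) :=
      mul_le_mul_of_nonneg_left h9 hXpos.le
    linarith
  -- the union
  set ks : Finset ℕ := (range (KK + 1)).filter (fun k => 1 ≤ k ∧ (b : ℝ) ^ k * LL ^ 4 ≤ Real.log X)
    with hks
  set is : Finset ℕ := (range (⌊A * Real.log X⌋₊ + 1)).filter (fun i => g0 * Real.log X ≤ i ∧
    (i : ℝ) + c' * Real.log X ≤ A * Real.log X) with his
  have hsub : S ⊆ ks.biUnion fun k => is.biUnion fun i =>
      (univ : Finset (Fin k → Fin b)).biUnion fun w => V k w i := by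
    intro n hn
    obtain ⟨hn1, hn2, k, w, i, L, hk1, hk, hi, hL, hiL, hno⟩ := hS n hn
    obtain ⟨hk2, hkK, hbk⟩ := hkLL k hk1 hk
    simp only [mem_biUnion]
    have hδL : c' * Real.log X ≤ L := by
      refine le_trans ?_ hL
      exact mul_le_mul_of_nonneg_right (min_le_right _ _) hlogX.le
    refine ⟨k, ?_, i, ?_, w, mem_univ _, ?_⟩
    · rw [hks, mem_filter, mem_range]
      exact ⟨by omega, hk1, hk⟩
    · rw [his, mem_filter, mem_range]
      push_cast at hiL
      refine ⟨Nat.lt_succ_of_le (Nat.le_floor (by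
        have : (0 : ℝ) ≤ L := by positivity
        linarith)), hi, by linarith⟩
    · rw [hV, mem_filter, mem_Icc]
      refine ⟨⟨hn1, hn2⟩, ?_⟩
      -- the word of digits
      have hdlt : ∀ t : ℝ, 0 ≤ dgt b t ∧ dgt b t < b := by
        intro t
        unfold dgt
        have : (0 : ℤ) < b := by exact_mod_cast hb1
        exact ⟨Int.emod_nonneg _ (by omega), Int.emod_lt_of_pos _ this⟩
      set v : Fin (mm k * k) → Fin b := fun idx => ⟨(dgt b (y n * (b : ℝ) ^ (i + (idx : ℕ)))).toNat, by
        have := hdlt (y n * (b : ℝ) ^ (i + (idx : ℕ)))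
        omega⟩ with hv
      have hvd : ∀ idx : Fin (mm k * k), dgt b (y n * (b : ℝ) ^ (i + (idx : ℕ))) = ((v idx : ℕ) : ℤ) := by
        intro idx
        have := hdlt (y n * (b : ℝ) ^ (i + (idx : ℕ)))
        simp only [hv]
        omega
      refine ⟨v, ?_, fun idx => hvd idx⟩
      rw [mem_filter]
      refine ⟨mem_univ _, fun t hcon => ?_⟩
      have hk0 : (0 : ℝ) < k := by exact_mod_cast hk1
      have hmle : (mm k : ℝ) ≤ c' * Real.log X / (k * LL) := Nat.floor_le (by positivity)
      have hmk : (mm k * k : ℕ) ≤ L := by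
        have h5 : ((mm k * k : ℕ) : ℝ) ≤ L := by
          push_cast
          rw [le_div_iff₀ (by positivity)] at hmle
          have h6 : (mm k : ℝ) * k ≤ (mm k : ℝ) * (k * LL) := by
            rw [← mul_assoc]
            exact le_mul_of_one_le_right (by positivity) hll
          linarith
        exact_mod_cast h5
      have htk : (t : ℕ) * k + k ≤ mm k * k := by
        have := t.2
        calc (t : ℕ) * k + k = ((t : ℕ) + 1) * k := by ring
          _ ≤ mm k * k := Nat.mul_le_mul_right k this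
      refine hno (i + (t : ℕ) * k) (by omega) (by omega) (fun s => ?_)
      have h5 := hvd (finProdFinEquiv (t, s))
      have h6 : ((finProdFinEquiv (t, s) : Fin (mm k * k)) : ℕ) = s + k * t := rfl
      rw [h6, hcon s] at h5
      have e : i + (t : ℕ) * k + (s : ℕ) = i + (s + k * (t : ℕ)) := by ring
      rw [e]
      exact h5
  have hcard : (S.card : ℝ) ≤ ∑ k ∈ ks, ∑ i ∈ is, ∑ w : Fin k → Fin b, ((V k w i).card : ℝ) := by
    have h1 := card_le_card hsub
    have h2 : (ks.biUnion fun k => is.biUnion fun i =>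
        (univ : Finset (Fin k → Fin b)).biUnion fun w => V k w i).card ≤
        ∑ k ∈ ks, ∑ i ∈ is, ∑ w : Fin k → Fin b, (V k w i).card := by
      refine card_biUnion_le.trans (sum_le_sum fun k _ => ?_)
      refine card_biUnion_le.trans (sum_le_sum fun i _ => ?_)
      exact card_biUnion_le
    exact_mod_cast h1.trans h2
  set Y : ℝ := 2 * (X * Real.exp (-((|B| + 6 + Real.log (A + 1)) * LL))) with hY
  have hY0 : 0 ≤ Y := by positivity
  have hinner : ∀ k ∈ ks, ∑ i ∈ is, ∑ w : Fin k → Fin b, ((V k w i).card : ℝ) ≤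
      (A + 1) * Real.log X * (Real.log X * Y) := by
    intro k hk
    rw [hks, mem_filter] at hk
    obtain ⟨_, hk1, hk'⟩ := hk
    obtain ⟨hk2, _, hbk⟩ := hkLL k hk1 hk'
    calc ∑ i ∈ is, ∑ w : Fin k → Fin b, ((V k w i).card : ℝ)
        ≤ ∑ _i ∈ is, ∑ _w : Fin k → Fin b, Y := by
          apply sum_le_sum; intro i hi
          rw [his, mem_filter] at hi
          apply sum_le_sum; intro w _
          exact hone k w i hk1 hk' hi.2.1 hi.2.2
      _ = is.card * ((b : ℝ) ^ k * Y) := by
          simp only [sum_const, card_univ, Fintype.card_fun, Fintype.card_fin, nsmul_eq_mul]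
          push_cast; ring
      _ ≤ ((A + 1) * Real.log X) * (Real.log X * Y) := by
          apply mul_le_mul _ (mul_le_mul_of_nonneg_right hbk hY0) (by positivity) (by positivity)
          have h5 : (is.card : ℝ) ≤ ⌊A * Real.log X⌋₊ + 1 := by
            have : is.card ≤ ⌊A * Real.log X⌋₊ + 1 := by
              rw [his]; exact (card_filter_le _ _).trans (by rw [card_range])
            exact_mod_cast this
          have h6 : (⌊A * Real.log X⌋₊ : ℝ) ≤ A * Real.log X := Nat.floor_le (by positivity)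
          linarith
      _ = _ := by ring
  have hksc : (ks.card : ℝ) ≤ 2 * Real.log X := by
    have h5 : (ks.card : ℝ) ≤ KK + 1 := by
      have : ks.card ≤ KK + 1 := by
        rw [hks]; exact (card_filter_le _ _).trans (by rw [card_range])
      exact_mod_cast this
    have h6 : (KK : ℝ) ≤ Real.log X := Nat.floor_le hlogX.le
    linarith
  have hA1 : 0 < A + 1 := by linarith
  calc (S.card : ℝ) ≤ _ := hcard
    _ ≤ ∑ _k ∈ ks, (A + 1) * Real.log X * (Real.log X * Y) := sum_le_sum hinner
    _ = ks.card * ((A + 1) * Real.log X * (Real.log X * Y)) := by rw [sum_const, nsmul_eq_mul]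
    _ ≤ 2 * Real.log X * ((A + 1) * Real.log X * (Real.log X * Y)) :=
        mul_le_mul_of_nonneg_right hksc (by positivity)
    _ = (4 * (A + 1) * Real.log X ^ 3 * Real.exp (-((|B| + 6 + Real.log (A + 1)) * LL))) * X := by
        rw [hY]; ring
    _ ≤ Real.exp (-(B * LL)) * X := by
        apply mul_le_mul_of_nonneg_right _ hXpos.le
        have e1 : Real.log X ^ 3 = Real.exp (3 * LL) := by
          nth_rewrite 1 [← Real.exp_log hlogX]
          rw [← Real.exp_nat_mul]; norm_num; rfl
        have e2 : A + 1 = Real.exp (Real.log (A + 1)) := (Real.exp_log hA1).symm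
        have e4 : (4 : ℝ) ≤ Real.exp 2 := by
          have h5 := Real.exp_one_gt_d9
          have : Real.exp 2 = Real.exp 1 * Real.exp 1 := by rw [← Real.exp_add]; norm_num
          rw [this]; nlinarith
        have hlogA : 0 ≤ Real.log (A + 1) := Real.log_nonneg (by linarith)
        calc 4 * (A + 1) * Real.log X ^ 3 * Real.exp (-((|B| + 6 + Real.log (A + 1)) * LL))
            ≤ Real.exp 2 * Real.exp (Real.log (A + 1)) * Real.exp (3 * LL) *
              Real.exp (-((|B| + 6 + Real.log (A + 1)) * LL)) := by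
              rw [e1]
              rw [← e2]
              gcongr
          _ = Real.exp (2 + Real.log (A + 1) + 3 * LL + -((|B| + 6 + Real.log (A + 1)) * LL)) := by
              rw [← Real.exp_add, ← Real.exp_add, ← Real.exp_add]
          _ ≤ Real.exp (-(B * LL)) := by
              apply Real.exp_le_exp.2
              have h5 : B * LL ≤ |B| * LL := mul_le_mul_of_nonneg_right (le_abs_self B) (by linarith)
              have h6 : Real.log (A + 1) ≤ Real.log (A + 1) * LL := le_mul_of_one_le_right hlogA hll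
              nlinarith
    _ = _ := by rw [hLL]; ring

end Pool.Agent.TH373.DR
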